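import Mathlib

namespace Sph9fe

universe u

section alg

variable {Gh : Type u} [Group Gh] (N : Subgroup Gh)

/-- the subgroup of triples of elements of `N` with product `1`. -/
def triZ (hc : ∀ z ∈ N, ∀ g : Gh, z * g = g * z) : Subgroup (Gh × Gh × Gh) where
  carrier := {x | x.1 ∈ N ∧ x.2.1 ∈ N ∧ x.2.2 ∈ N ∧ x.1 * x.2.1 * x.2.2 = 1}
  one_mem' := by simp [N.one_mem]
  mul_mem' := by
    rintro ⟨a, b, c⟩ ⟨a', b', c'⟩ ⟨h1, h2, h3, h4⟩ ⟨h1', h2', h3', h4'⟩
    simp only at h1 h2 h3 h4 h1' h2' h3' h4'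
    refine ⟨N.mul_mem h1 h1', N.mul_mem h2 h2', N.mul_mem h3 h3', ?_⟩
    show a * a' * (b * b') * (c * c') = 1
    calc a * a' * (b * b') * (c * c') = a * (a' * b) * b' * c * c' := by group
      _ = a * (b * a') * b' * c * c' := by rw [hc a' h1' b]
      _ = a * b * (a' * b' * c) * c' := by group
      _ = a * b * (c * (a' * b')) * c' := by rw [← hc c h3 (a' * b')]
      _ = (a * b * c) * (a' * b' * c') := by group
      _ = 1 := by rw [h4, h4', one_mul]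
  inv_mem' := by
    rintro ⟨a, b, c⟩ ⟨h1, h2, h3, h4⟩
    simp only at h1 h2 h3 h4
    refine ⟨N.inv_mem h1, N.inv_mem h2, N.inv_mem h3, ?_⟩
    show a⁻¹ * b⁻¹ * c⁻¹ = 1
    have e1 : b * a = a * b := hc b h2 a
    have e2 : c * (b * a) = b * a * c := hc c h3 _
    calc a⁻¹ * b⁻¹ * c⁻¹ = (c * (b * a))⁻¹ := by group
      _ = (a * b * c)⁻¹ := by rw [e2, e1]
      _ = 1 := by rw [h4, inv_one]

theorem triZ_normal (hc : ∀ z ∈ N, ∀ g : Gh, z * g = g * z) : (triZ N hc).Normal := by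
  constructor
  rintro ⟨a, b, c⟩ ⟨h1, h2, h3, h4⟩ ⟨x, y, z⟩
  simp only at h1 h2 h3 h4
  have e1 : x * a * x⁻¹ = a := by rw [← hc a h1 x]; group
  have e2 : y * b * y⁻¹ = b := by rw [← hc b h2 y]; group
  have e3 : z * c * z⁻¹ = c := by rw [← hc c h3 z]; group
  show (x * a * x⁻¹) ∈ N ∧ (y * b * y⁻¹) ∈ N ∧ (z * c * z⁻¹) ∈ N ∧
    (x * a * x⁻¹) * (y * b * y⁻¹) * (z * c * z⁻¹) = 1
  rw [e1, e2, e3]
  exact ⟨h1, h2, h3, h4⟩

theorem normal_of_central (hc : ∀ z ∈ N, ∀ g : Gh, z * g = g * z) : N.Normal := by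
  constructor
  intro a ha g
  have : g * a * g⁻¹ = a := by rw [← hc a ha g]; group
  rw [this]; exact ha

/-- the package of homomorphisms used in the argument. -/
theorem exists_package (hc : ∀ z ∈ N, ∀ g : Gh, z * g = g * z) (h2 : ∀ z ∈ N, z * z = 1)
    [hN : N.Normal] :
    ∃ (K : Type u) (_ : Group K) (i₁ i₂ : (Gh ⧸ N) →* K) (π₁ π₂ π₃ : K →* (Gh ⧸ N)),
      (∀ g, π₁ (i₁ g) = g) ∧ (∀ g, π₁ (i₂ g) = g) ∧ (∀ g, π₂ (i₁ g) = g) ∧ (∀ g, π₂ (i₂ g) = 1) ∧
      (∀ g, π₃ (i₁ g) = 1) ∧ (∀ g, π₃ (i₂ g) = g) ∧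
      ∀ l m : K, l * m = m * l → π₃ l = 1 → π₂ m = 1 → ∀ a b : Gh, (a : Gh ⧸ N) = π₁ l →
        (b : Gh ⧸ N) = π₁ m → a * b = b * a := by
  have := triZ_normal N hc
  let Z := triZ N hc
  let j1 : Gh →* (Gh × Gh × Gh) := (MonoidHom.id Gh).prod ((MonoidHom.id Gh).prod 1)
  let j2 : Gh →* (Gh × Gh × Gh) := (MonoidHom.id Gh).prod ((1 : Gh →* Gh).prod (MonoidHom.id Gh))
  have hj1 : ∀ x ∈ N, ((QuotientGroup.mk' Z).comp j1) x = 1 := by
    intro x hx
    show ((x, x, 1) : Gh × Gh × Gh) = (1 : (Gh × Gh × Gh) ⧸ Z)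
    rw [QuotientGroup.eq_one_iff]
    exact ⟨hx, hx, N.one_mem, by simp [h2 x hx]⟩
  have hj2 : ∀ x ∈ N, ((QuotientGroup.mk' Z).comp j2) x = 1 := by
    intro x hx
    show ((x, 1, x) : Gh × Gh × Gh) = (1 : (Gh × Gh × Gh) ⧸ Z)
    rw [QuotientGroup.eq_one_iff]
    exact ⟨hx, N.one_mem, hx, by simp [h2 x hx]⟩
  let p1 : (Gh × Gh × Gh) →* (Gh ⧸ N) := (QuotientGroup.mk' N).comp (MonoidHom.fst _ _)
  let p2 : (Gh × Gh × Gh) →* (Gh ⧸ N) :=
    (QuotientGroup.mk' N).comp ((MonoidHom.fst _ _).comp (MonoidHom.snd _ _))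
  let p3 : (Gh × Gh × Gh) →* (Gh ⧸ N) :=
    (QuotientGroup.mk' N).comp ((MonoidHom.snd _ _).comp (MonoidHom.snd _ _))
  have hp1 : ∀ x ∈ Z, p1 x = 1 := fun x hx => (QuotientGroup.eq_one_iff _).2 hx.1
  have hp2 : ∀ x ∈ Z, p2 x = 1 := fun x hx => (QuotientGroup.eq_one_iff _).2 hx.2.1
  have hp3 : ∀ x ∈ Z, p3 x = 1 := fun x hx => (QuotientGroup.eq_one_iff _).2 hx.2.2.1
  refine ⟨(Gh × Gh × Gh) ⧸ Z, inferInstance,
    QuotientGroup.lift N ((QuotientGroup.mk' Z).comp j1) hj1,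
    QuotientGroup.lift N ((QuotientGroup.mk' Z).comp j2) hj2,
    QuotientGroup.lift Z p1 hp1, QuotientGroup.lift Z p2 hp2, QuotientGroup.lift Z p3 hp3,
    ?_, ?_, ?_, ?_, ?_, ?_, ?_⟩
  · intro g; induction g using QuotientGroup.induction_on with | H g => rfl
  · intro g; induction g using QuotientGroup.induction_on with | H g => rfl
  · intro g; induction g using QuotientGroup.induction_on with | H g => rfl
  · intro g; induction g using QuotientGroup.induction_on with | H g => rfl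
  · intro g; induction g using QuotientGroup.induction_on with | H g => rfl
  · intro g; induction g using QuotientGroup.induction_on with | H g => rfl
  · intro l m hlm hl hm a b ha hb
    induction l using QuotientGroup.induction_on with | H l => ?_
    induction m using QuotientGroup.induction_on with | H m => ?_
    obtain ⟨l1, l2, l3⟩ := l
    obtain ⟨m1, m2, m3⟩ := m
    have hl3 : l3 ∈ N := (QuotientGroup.eq_one_iff _).1 hl
    have hm2 : m2 ∈ N := (QuotientGroup.eq_one_iff _).1 hm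
    have hcomm : ((l1, l2, l3) * (m1, m2, m3) : Gh × Gh × Gh)⁻¹ *
        ((m1, m2, m3) * (l1, l2, l3)) ∈ Z := by
      rw [← QuotientGroup.eq]; exact hlm
    have hz1 : (l1 * m1)⁻¹ * (m1 * l1) ∈ N := hcomm.1
    have hprod : ((l1 * m1)⁻¹ * (m1 * l1)) * ((l2 * m2)⁻¹ * (m2 * l2)) *
      ((l3 * m3)⁻¹ * (m3 * l3)) = 1 := hcomm.2.2.2
    have c2 : m2 * l2 = l2 * m2 := hc m2 hm2 l2
    have c3 : l3 * m3 = m3 * l3 := hc l3 hl3 m3
    rw [c2, c3] at hprod
    have hc1 : l1 * m1 = m1 * l1 := by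
      have : (l1 * m1)⁻¹ * (m1 * l1) = 1 := by simpa using hprod
      exact (inv_mul_eq_one.1 this)
    -- `a = l1 * z`, `b = m1 * z'`
    have ha' : (a : Gh ⧸ N) = (l1 : Gh ⧸ N) := ha
    have hb' : (b : Gh ⧸ N) = (m1 : Gh ⧸ N) := hb
    rw [QuotientGroup.eq] at ha' hb'
    set z := a⁻¹ * l1 with hz
    set w := b⁻¹ * m1 with hw
    have hl1 : l1 = a * z := by rw [hz]; group
    have hm1 : m1 = b * w := by rw [hw]; group
    rw [hl1, hm1] at hc1
    have k1 : a * z * (b * w) = (a * b) * (z * w) := by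
      calc a * z * (b * w) = a * (z * b) * w := by group
        _ = a * (b * z) * w := by rw [hc z ha' b]
        _ = _ := by group
    have k2 : b * w * (a * z) = (b * a) * (z * w) := by
      calc b * w * (a * z) = b * (w * a) * z := by group
        _ = b * (a * w) * z := by rw [hc w hb' a]
        _ = (b * a) * (w * z) := by group
        _ = _ := by rw [hc w hb' z]
    rw [k1, k2] at hc1
    exact mul_right_cancel hc1

end alg

end Sph9fe
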