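import Mathlib

namespace Sph9fe

open Topology Filter Set

/-- A function `h` on pairs of points is locally trivial on `U` if near every point of `U` it is of the
form `(σ u)⁻¹ * σ v`. -/
def LocTriv {X G : Type*} [TopologicalSpace X] [Group G] (U : Set X) (h : X → X → G) : Prop :=
  ∀ p ∈ U, ∃ σ : X → G, ∀ᶠ q in 𝓝 (p, p), h q.1 q.2 = (σ q.1)⁻¹ * σ q.2

/-- `ψ` trivialises `k` on `A`. -/
def TrivOn {X G : Type*} [TopologicalSpace X] [Group G] (A : Set X) (k : X → X → G)
    (ψ : X → G) : Prop :=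
  ∀ a ∈ A, ∀ᶠ b in 𝓝[A] a, k a b = (ψ a)⁻¹ * ψ b

section basic

variable {X Y G K : Type*} [TopologicalSpace X] [TopologicalSpace Y] [Group G] [Group K]

theorem LocTriv.mono {U V : Set X} {h : X → X → G} (hV : LocTriv V h) (hUV : U ⊆ V) :
    LocTriv U h := fun p hp => hV p (hUV hp)

theorem LocTriv.comp {U : Set X} {h : X → X → G} (hU : LocTriv U h) {F : Y → X}
    (hF : Continuous F) : LocTriv (F ⁻¹' U) (fun a b => h (F a) (F b)) := by
  intro p hp
  obtain ⟨σ, hσ⟩ := hU (F p) hp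
  refine ⟨fun a => σ (F a), ?_⟩
  have hc : Continuous (fun q : Y × Y => (F q.1, F q.2)) := by fun_prop
  have := hc.tendsto (p, p)
  exact this.eventually hσ

theorem TrivOn.mono {A B : Set X} {k : X → X → G} {ψ : X → G} (h : TrivOn B k ψ) (hAB : A ⊆ B) :
    TrivOn A k ψ := fun a ha => (h a (hAB ha)).filter_mono (nhdsWithin_mono _ hAB)

theorem TrivOn.comp {A : Set X} {k : X → X → G} {ψ : X → G} (h : TrivOn A k ψ) {B : Set Y}
    {F : Y → X} (hF : ContinuousOn F B) (hm : MapsTo F B A) :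
    TrivOn B (fun a b => k (F a) (F b)) (fun a => ψ (F a)) := by
  intro a ha
  have h1 : Tendsto F (𝓝[B] a) (𝓝[A] (F a)) :=
    tendsto_nhdsWithin_of_tendsto_nhds_of_eventually_within _ (hF a ha)
      (eventually_nhdsWithin_of_forall fun x hx => hm hx)
  exact h1.eventually (h (F a) (hm ha))

theorem TrivOn.congr {A : Set X} {k k' : X → X → G} {ψ : X → G} (h : TrivOn A k ψ)
    (hk : ∀ a ∈ A, ∀ᶠ b in 𝓝[A] a, k' a b = k a b) : TrivOn A k' ψ := by
  intro a ha
  filter_upwards [h a ha, hk a ha] with b hb hb'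
  rw [hb', hb]

theorem TrivOn.unique {A : Set X} (hA : IsPreconnected A) {k : X → X → G} {ψ ψ' : X → G}
    (h : TrivOn A k ψ) (h' : TrivOn A k ψ') {a b : X} (ha : a ∈ A) (hb : b ∈ A) :
    ψ' a * (ψ a)⁻¹ = ψ' b * (ψ b)⁻¹ := by
  let _ : TopologicalSpace G := ⊥
  have : DiscreteTopology G := ⟨rfl⟩
  refine hA.constant (f := fun x => ψ' x * (ψ x)⁻¹) ?_ ha hb
  intro x hx
  refine Tendsto.congr' ?_ tendsto_const_nhds
  filter_upwards [h x hx, h' x hx] with y hy hy'
  have : (ψ x)⁻¹ * ψ y = (ψ' x)⁻¹ * ψ' y := by rw [← hy, ← hy']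
  have h2 : ψ' y = ψ' x * ((ψ x)⁻¹ * ψ y) := by rw [this]; group
  rw [h2]; group

end basic


section convex

variable {E G : Type*} [NormedAddCommGroup E] [NormedSpace ℝ E] [Group G]

/-- partial products along the segment from `o` to `a`. -/
noncomputable def segProd (k : E → E → G) (o : E) (n : ℕ) (a : E) : ℕ → G
  | 0 => 1
  | (i + 1) => segProd k o n a i *
      k (o + ((i : ℝ) / n) • (a - o)) (o + (((i + 1 : ℕ) : ℝ) / n) • (a - o))

theorem exists_uniform {D U : Set E} (hD : IsCompact D) (hDU : D ⊆ U)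
    {k : E → E → G} (hk : LocTriv U k) :
    ∃ δ > 0, ∀ x ∈ D, ∃ σ : E → G, ∀ a b, dist a x < δ → dist b x < δ →
      k a b = (σ a)⁻¹ * σ b := by
  choose! σ hσ using fun p (hp : p ∈ D) => hk p (hDU hp)
  have h1 : ∀ p : E, p ∈ D → ∃ ε > 0, ∀ a b, dist a p < ε → dist b p < ε →
      k a b = (σ p a)⁻¹ * σ p b := by
    intro p hp
    have := hσ p hp
    rw [nhds_prod_eq, Filter.Eventually, Metric.nhds_basis_ball.prod_self.mem_iff] at this
    obtain ⟨ε, hε, hsub⟩ := this
    refine ⟨ε, hε, fun a b ha hb => ?_⟩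
    exact hsub (Set.mk_mem_prod (Metric.mem_ball.2 ha) (Metric.mem_ball.2 hb))
  choose! ε hε hloc using h1
  obtain ⟨δ, hδ, hleb⟩ := lebesgue_number_lemma_of_metric (c := fun p : D => Metric.ball (p : E) (ε p))
    hD (fun p => Metric.isOpen_ball) (fun x hx => Set.mem_iUnion.2 ⟨⟨x, hx⟩, by
      simpa using hε x hx⟩)
  refine ⟨δ, hδ, fun x hx => ?_⟩
  obtain ⟨p, hp⟩ := hleb x hx
  exact ⟨σ p, fun a b ha hb => hloc p p.2 a b (by simpa using hp (Metric.mem_ball.2 ha))
    (by simpa using hp (Metric.mem_ball.2 hb))⟩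

theorem exists_trivOn_convex {D U : Set E} (hD : IsCompact D) (hconv : Convex ℝ D) (hDU : D ⊆ U)
    {k : E → E → G} (hk : LocTriv U k) : ∃ ψ : E → G, TrivOn D k ψ := by
  rcases D.eq_empty_or_nonempty with hDe | ⟨o, ho⟩
  · subst hDe
    exact ⟨fun _ => 1, fun a ha => absurd ha (by simp)⟩
  obtain ⟨δ, hδ, hloc⟩ := exists_uniform hD hDU hk
  -- bound of the diameter
  obtain ⟨R, hR⟩ := hD.isBounded.exists_norm_le
  obtain ⟨n, hn⟩ := exists_nat_gt ((2 * R) / (δ / 2))
  have hR0 : 0 ≤ R := (norm_nonneg o).trans (hR o ho)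
  have hn0 : 0 < (n : ℝ) := lt_of_le_of_lt (by positivity) hn
  have hn0' : 0 < n := by exact_mod_cast hn0
  have hstep : (1 / (n : ℝ)) * (2 * R) < δ / 2 := by
    rw [div_lt_iff₀ (by positivity)] at hn
    rw [one_div, inv_mul_lt_iff₀ hn0]; linarith
  refine ⟨fun a => segProd k o n a n, ?_⟩
  -- points on segments
  have hmem : ∀ a ∈ D, ∀ i : ℕ, i ≤ n → o + ((i : ℝ) / n) • (a - o) ∈ D := by
    intro a ha i hi
    have : o + ((i : ℝ) / n) • (a - o) = AffineMap.lineMap o a ((i : ℝ) / n) := by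
      rw [AffineMap.lineMap_apply]; simp [add_comm]
    rw [this]
    exact hconv.lineMap_mem ho ha ⟨by positivity, by
      rw [div_le_one hn0]; exact_mod_cast hi⟩
  have key : ∀ a ∈ D, ∀ b ∈ D, dist a b < δ / 2 → ∀ i : ℕ, i ≤ n →
      segProd k o n a i * k (o + ((i : ℝ) / n) • (a - o)) (o + ((i : ℝ) / n) • (b - o)) =
        segProd k o n b i := by
    intro a ha b hb hab i
    induction i with
    | zero =>
      intro _
      obtain ⟨σ, hσ⟩ := hloc o ho
      have := hσ o o (by simpa using hδ) (by simpa using hδ)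
      simp only [segProd, Nat.cast_zero, zero_div, zero_smul, add_zero, one_mul]
      rw [this]; group
    | succ i ih =>
      intro hi
      have hi' : i ≤ n := by omega
      have IH := ih hi'
      set x0 := o + ((i : ℝ) / n) • (a - o) with hx0
      set x1 := o + (((i + 1 : ℕ) : ℝ) / n) • (a - o) with hx1
      set y0 := o + ((i : ℝ) / n) • (b - o) with hy0
      set y1 := o + (((i + 1 : ℕ) : ℝ) / n) • (b - o) with hy1
      obtain ⟨σ, hσ⟩ := hloc x0 (hmem a ha i hi')
      have hin : (i : ℝ) / n ≤ 1 := by rw [div_le_one hn0]; exact_mod_cast hi'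
      have hin0 : 0 ≤ (i : ℝ) / n := by positivity
      have hin1 : (((i + 1 : ℕ) : ℝ)) / n ≤ 1 := by rw [div_le_one hn0]; exact_mod_cast hi
      have hin10 : 0 ≤ (((i + 1 : ℕ) : ℝ)) / n := by positivity
      have d1 : dist x1 x0 < δ / 2 := by
        have : x1 - x0 = (1 / (n : ℝ)) • (a - o) := by
          rw [hx1, hx0, add_sub_add_left_eq_sub, ← sub_smul]
          congr 1; push_cast; ring
        rw [dist_eq_norm, this, norm_smul]
        refine lt_of_le_of_lt ?_ hstep
        rw [Real.norm_of_nonneg (by positivity)]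
        refine mul_le_mul_of_nonneg_left ?_ (by positivity)
        calc ‖a - o‖ ≤ ‖a‖ + ‖o‖ := norm_sub_le _ _
          _ ≤ 2 * R := by linarith [hR a ha, hR o ho]
      have dab : ‖b - a‖ < δ / 2 := by rw [← dist_eq_norm, dist_comm]; exact hab
      have d2 : dist y0 x0 < δ / 2 := by
        have : y0 - x0 = ((i : ℝ) / n) • (b - a) := by
          rw [hy0, hx0, add_sub_add_left_eq_sub, ← smul_sub]
          congr 1; abel
        rw [dist_eq_norm, this, norm_smul, Real.norm_of_nonneg hin0]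
        calc ((i : ℝ) / n) * ‖b - a‖ ≤ 1 * ‖b - a‖ := by gcongr
          _ < δ / 2 := by linarith
      have d3' : dist y1 x1 < δ / 2 := by
        have : y1 - x1 = (((i + 1 : ℕ) : ℝ) / n) • (b - a) := by
          rw [hy1, hx1, add_sub_add_left_eq_sub, ← smul_sub]
          congr 1; abel
        rw [dist_eq_norm, this, norm_smul, Real.norm_of_nonneg hin10]
        calc (((i + 1 : ℕ) : ℝ) / n) * ‖b - a‖ ≤ 1 * ‖b - a‖ := by gcongr
          _ < δ / 2 := by linarith
      have d3 : dist y1 x0 < δ := by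
        linarith [dist_triangle y1 x1 x0]
      have dx0 : dist x0 x0 < δ := by simpa using hδ
      have e1 := hσ x0 x1 dx0 (by linarith)
      have e2 := hσ x1 y1 (by linarith) d3
      have e3 := hσ x0 y0 dx0 (by linarith)
      have e4 := hσ y0 y1 (by linarith) d3
      have e5 : segProd k o n a (i + 1) = segProd k o n a i * k x0 x1 := rfl
      have e6 : segProd k o n b (i + 1) = segProd k o n b i * k y0 y1 := rfl
      rw [e5, e6, ← IH, e1, e2, e3, e4]; group
  intro a ha
  have : ∀ᶠ b in 𝓝[D] a, dist a b < δ / 2 ∧ b ∈ D := by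
    refine (Filter.Eventually.and ?_ self_mem_nhdsWithin)
    refine Filter.Eventually.filter_mono nhdsWithin_le_nhds ?_
    have := Metric.ball_mem_nhds a (half_pos hδ)
    filter_upwards [this] with b hb
    rw [dist_comm]; exact hb
  filter_upwards [this] with b hb
  have := key a ha b hb.2 hb.1 n le_rfl
  have hnn : (n : ℝ) / n = 1 := div_self hn0.ne'
  rw [hnn, one_smul, one_smul, add_sub_cancel, add_sub_cancel] at this
  rw [← this]; group

end convex

end Sph9fe
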