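import Pool.Agent.Work.MP_9fe036_gt.Torus

namespace Sph9fe

open Topology Filter Set

/-- union of the bounded components of the complement -/
def Int3 (S : Set R3) : Set R3 := {x | x ∉ S ∧ Bornology.IsBounded (connectedComponentIn Sᶜ x)}

/-! ### the two discs -/

noncomputable def E1f (a : ℝ × ℝ) : R3 := ((1 - a.2) * (30 * sS a.1), 0, (1 - a.2) * (30 * cC a.1))
noncomputable def E2f (a : ℝ × ℝ) : R3 := (0, (1 - a.2) * (60 * sS a.1), 90 + (1 - a.2) * (60 * cC a.1))

theorem E1f_cont : Continuous E1f := by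
  have h1 := cC_cont
  have h2 := sS_cont
  unfold E1f; fun_prop

theorem E2f_cont : Continuous E2f := by
  have h1 := cC_cont
  have h2 := sS_cont
  unfold E2f; fun_prop

theorem E1f_N2 (n : ℕ) {a : ℝ × ℝ} (ha : a ∈ sq) : E1f a ∈ (N2 n)ᶜ := by
  intro h
  obtain ⟨h1, -⟩ := N2_reg h
  obtain ⟨-, h2, h3⟩ := ha
  have h4 := sc_sq a.1
  have e : (E1f a).1 ^ 2 + (E1f a).2.2 ^ 2 = 900 * (1 - a.2) ^ 2 := by
    unfold E1f
    simp only
    calc ((1 - a.2) * (30 * sS a.1)) ^ 2 + ((1 - a.2) * (30 * cC a.1)) ^ 2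
        = 900 * (1 - a.2) ^ 2 * (sS a.1 ^ 2 + cC a.1 ^ 2) := by ring
      _ = _ := by rw [h4, mul_one]
  rw [e] at h1
  nlinarith

theorem E2f_N1 (n : ℕ) {a : ℝ × ℝ} (ha : a ∈ sq) : E2f a ∈ (N1 n)ᶜ := by
  intro h
  obtain ⟨-, h2, h3⟩ := ha
  have h4 := sc_sq a.1
  have c1 := cC_le a.1
  have c2 := cC_ge a.1
  have s1 : -1 ≤ sS a.1 ∧ sS a.1 ≤ 1 := by constructor <;> nlinarith [sq_nonneg (cC a.1)]
  rcases N1_reg h with h | h
  · have : ‖E2f a‖ < 200 := by
      rw [norm3_lt_iff, abs_lt, abs_lt, abs_lt]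
      unfold E2f
      simp only
      refine ⟨⟨?_, ?_⟩, ⟨?_, ?_⟩, ?_, ?_⟩ <;> nlinarith
    linarith
  · have := (abs_le.1 h.2).2
    unfold E2f at this
    simp only at this
    nlinarith

/-! ### the sets -/

theorem YL_NN (n : ℕ) : ∀ x : R2, ‖x‖ ≤ 1 → ff x ∈ NN n := by
  induction n with
  | zero => intro x hx; exact ff_BB hx
  | succ n ih =>
    intro x hx
    rcases cases4 x with h | h | h | h
    · rw [ff_T h.1 h.2]; exact KK_sub_NN n (Or.inl (Or.inl (lathe_T_mem hx)))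
    · rw [ff_U h.1.le h.2]; exact KK_sub_NN n (Or.inl (Or.inr (lathe_U_mem h.1.le)))
    · rw [ff_q1 h.le]
      left; right
      show sinv (sc _) ∈ NN n
      rw [sinv_sc]; exact ih _ h.le
    · rw [ff_q2 h.le]
      left; right
      show sinv (sc _) ∈ NN n
      rw [sinv_sc, tau_NN]; exact ih _ h.le

theorem YY_sub_XX : YY ⊆ XX := by
  have h : ∀ p ∈ YL, p ∈ XX := by
    intro p hp
    obtain ⟨x, hx, rfl⟩ := mem_YL.1 hp
    exact mem_iInter.2 fun n => YL_NN n x hx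
  rintro p (hp | hp)
  · exact h p hp
  · exact tau_XX.1 (h _ hp)

theorem T1s_sub : T1s ⊆ R1s := by
  rintro p (hp | hp)
  · left; exact (show ‖p‖ = 200 from hp.1).ge
  · right; exact (lathe_o_cases hp).1

theorem T2s_sub : T2s ⊆ R2s := by
  rintro p (hp | hp)
  · rcases hp.1 with hp | hp
    · left; left; exact hp.1.1
    · left; right; exact (lathe_l_cases hp).1
  · right; exact (lathe_r_cases hp).1

theorem Sone_sub : Sone ⊆ Hone := by
  rintro p (hp | hp)
  · exact Or.inl (T1s_sub hp.1.1)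
  · obtain ⟨q, hq, rfl⟩ := hp
    right; show sg1i (sg1 q) ∈ XX; rw [sg1i_sg1]; exact YY_sub_XX hq

theorem Stwo_sub : Stwo ⊆ Htwo := by
  rintro p (hp | hp)
  · exact Or.inl (T2s_sub hp.1.1)
  · obtain ⟨q, hq, rfl⟩ := hp
    right; show sg2i (sg2 q) ∈ XX; rw [sg2i_sg2]; exact YY_sub_XX hq

theorem Rod_closed : IsClosed Rod := by
  have c1 : Continuous (fun p : R3 => |p.1|) := by fun_prop
  have c2 : Continuous (fun p : R3 => p.2.1) := by fun_prop
  have c3 : Continuous (fun p : R3 => |p.2.2|) := by fun_prop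
  exact (isClosed_le c1 continuous_const).inter (((isClosed_le continuous_const c2).inter
    (isClosed_le c2 continuous_const)).inter (isClosed_le c3 continuous_const))

theorem R1s_closed : IsClosed R1s :=
  (isClosed_le continuous_const continuous_norm).union Rod_closed

theorem R2s_closed : IsClosed R2s := by
  have c1 : Continuous (fun p : R3 => p.1) := by fun_prop
  have c1' : Continuous (fun p : R3 => |p.1|) := by fun_prop
  have c2 : Continuous (fun p : R3 => |p.2.1|) := by fun_prop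
  have c3 : Continuous (fun p : R3 => p.2.2) := by fun_prop
  have c3' : Continuous (fun p : R3 => |p.2.2 + 60|) := by fun_prop
  have h1 : IsClosed Bar := (isClosed_le c1' continuous_const).inter
    ((isClosed_le c2 continuous_const).inter (isClosed_le c3' continuous_const))
  have h2 : IsClosed PL := ((isClosed_le continuous_const c1).inter
    (isClosed_le c1 continuous_const)).inter ((isClosed_le c2 continuous_const).inter
      ((isClosed_le continuous_const c3).inter (isClosed_le c3 continuous_const)))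
  have h3 : IsClosed PR := ((isClosed_le continuous_const c1).inter
    (isClosed_le c1 continuous_const)).inter ((isClosed_le c2 continuous_const).inter
      ((isClosed_le continuous_const c3).inter (isClosed_le c3 continuous_const)))
  exact (h1.union h2).union h3

theorem Hone_closed : IsClosed Hone := R1s_closed.union (XX_closed.preimage sg1i_cont)
theorem Htwo_closed : IsClosed Htwo := R2s_closed.union (XX_closed.preimage sg2i_cont)

theorem Hone_reg {p : R3} (h : p ∈ Hone) : RodReg p :=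
  rod_reg (h.elim Or.inl (fun h => Or.inr (XX_sub_BB h)))

theorem Htwo_reg {p : R3} (h : p ∈ Htwo) : RingReg p :=
  ring_reg (h.elim Or.inl (fun h => Or.inr (XX_sub_BB h)))

theorem reg_disj {p : R3} (h1 : RodReg p) (h2 : RingReg p) : False := by
  obtain ⟨a1, a2, a3, a4, a5, a6⟩ := h2
  rcases h1 with h | ⟨h, h'⟩
  · have : ‖p‖ ≤ 80 := by
      rw [norm3_le_iff]
      exact ⟨a4, by linarith, abs_le.2 ⟨a5, a6⟩⟩
    linarith
  · have e1 : p.1 ^ 2 ≤ 400 := by rw [← sq_abs]; nlinarith [abs_nonneg p.1]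
    have e2 : p.2.2 ^ 2 ≤ 400 := by rw [← sq_abs]; nlinarith [abs_nonneg p.2.2]
    linarith

/-- a preconnected set off the frontier surface is inside or outside -/
theorem side {H S C : Set R3} (hH : IsClosed H) (hF : Fr H S) (hC : IsPreconnected C)
    (hCS : ∀ p ∈ C, p ∉ S) {x : R3} (hx : x ∈ C) (hxH : x ∉ H) : ∀ p ∈ C, p ∉ H := by
  have hopen : IsOpen (interior H) := isOpen_interior
  have hsub : C ⊆ Hᶜ ∪ interior H := by
    intro p hp
    by_cases hpH : p ∈ H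
    · right; exact mem_interior_iff_mem_nhds.2 (hF p hpH (hCS p hp))
    · exact Or.inl hpH
  have hdis : Disjoint Hᶜ (interior H) :=
    Set.disjoint_left.2 (fun p h1 h2 => h1 (interior_subset h2))
  intro p hp
  exact (hC.subset_left_of_subset_union hH.isOpen_compl hopen hdis hsub ⟨x, hx, hxH⟩) hp

theorem Stwo_Int : Stwo ⊆ Int3 Sone := by
  intro x hx
  have hxH : x ∉ Hone := fun h => reg_disj (Hone_reg h) (Htwo_reg (Stwo_sub hx))
  have hxS : x ∉ Sone := fun h => hxH (Sone_sub h)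
  refine ⟨hxS, ?_⟩
  have h1 : ∀ p ∈ connectedComponentIn Soneᶜ x, p ∉ Hone :=
    side Hone_closed Fr_Sone isPreconnected_connectedComponentIn
      (fun p hp => connectedComponentIn_subset _ _ hp) (mem_connectedComponentIn hxS) hxH
  refine (Metric.isBounded_ball (x := (0 : R3)) (r := 200)).subset ?_
  intro p hp
  rw [mem_ball_zero_iff]
  by_contra hcon
  push Not at hcon
  exact h1 p hp (Or.inl (Or.inl hcon))

/-! ### connectedness of the stages -/

theorem box_preconn (a b c d e f : ℝ) :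
    IsPreconnected {p : R3 | (a ≤ p.1 ∧ p.1 ≤ b) ∧ (c ≤ p.2.1 ∧ p.2.1 ≤ d) ∧ (e ≤ p.2.2 ∧ p.2.2 ≤ f)} := by
  have : {p : R3 | (a ≤ p.1 ∧ p.1 ≤ b) ∧ (c ≤ p.2.1 ∧ p.2.1 ≤ d) ∧ (e ≤ p.2.2 ∧ p.2.2 ≤ f)} =
      Icc a b ×ˢ (Icc c d ×ˢ Icc e f) := by
    ext p; simp only [mem_prod, mem_Icc, mem_ofPred_eq]
  rw [this]
  exact isPreconnected_Icc.prod (isPreconnected_Icc.prod isPreconnected_Icc)

theorem R2s_preconn : IsPreconnected R2s := by
  have e1 : Bar = {p : R3 | (-80 ≤ p.1 ∧ p.1 ≤ 80) ∧ (-20 ≤ p.2.1 ∧ p.2.1 ≤ 20) ∧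
      (-80 ≤ p.2.2 ∧ p.2.2 ≤ -40)} := by
    ext p
    simp only [Bar, mem_ofPred_eq, abs_le]
    constructor
    · rintro ⟨h1, h2, h3, h4⟩; exact ⟨h1, h2, by linarith, by linarith⟩
    · rintro ⟨h1, h2, h3, h4⟩; exact ⟨h1, h2, by linarith, by linarith⟩
  have e2 : PL = {p : R3 | (-80 ≤ p.1 ∧ p.1 ≤ -40) ∧ (-20 ≤ p.2.1 ∧ p.2.1 ≤ 20) ∧
      (-40 ≤ p.2.2 ∧ p.2.2 ≤ 80)} := by
    ext p
    simp only [PL, mem_ofPred_eq, abs_le]
  have e3 : PR = {p : R3 | (40 ≤ p.1 ∧ p.1 ≤ 80) ∧ (-20 ≤ p.2.1 ∧ p.2.1 ≤ 20) ∧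
      (-40 ≤ p.2.2 ∧ p.2.2 ≤ 80)} := by
    ext p
    simp only [PR, mem_ofPred_eq, abs_le]
  have h1 : IsPreconnected Bar := e1 ▸ box_preconn _ _ _ _ _ _
  have h2 : IsPreconnected PL := e2 ▸ box_preconn _ _ _ _ _ _
  have h3 : IsPreconnected PR := e3 ▸ box_preconn _ _ _ _ _ _
  refine IsPreconnected.union (60, 0, -40) ?_ ?_ (IsPreconnected.union (-60, 0, -40) ?_ ?_ h1 h2) h3
  · left; simp only [Bar, mem_ofPred_eq]; norm_num
  · simp only [PR, mem_ofPred_eq]; norm_num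
  · simp only [Bar, mem_ofPred_eq]; norm_num
  · simp only [PL, mem_ofPred_eq]; norm_num

theorem outer_preconn : IsPreconnected {p : R3 | 200 ≤ ‖p‖} := by
  have hrank : 1 < Module.rank ℝ R3 := by
    have : Module.finrank ℝ R3 = 3 := by simp
    rw [← Module.finrank_eq_rank, this]; norm_num
  have e : {p : R3 | 200 ≤ ‖p‖} = (fun q : ℝ × R3 => q.1 • q.2) '' (Ici 200 ×ˢ Metric.sphere 0 1) := by
    ext p
    constructor
    · intro hp
      have hp' : 200 ≤ ‖p‖ := hp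
      have hpos : 0 < ‖p‖ := by linarith
      refine ⟨(‖p‖, ‖p‖⁻¹ • p), ⟨hp', ?_⟩, ?_⟩
      · rw [mem_sphere_zero_iff_norm]
        show ‖‖p‖⁻¹ • p‖ = 1
        rw [norm_smul, norm_inv, norm_norm, inv_mul_cancel₀ hpos.ne']
      · show ‖p‖ • ‖p‖⁻¹ • p = p
        rw [smul_smul, mul_inv_cancel₀ hpos.ne', one_smul]
    · rintro ⟨⟨r, y⟩, ⟨hr, hy⟩, rfl⟩
      rw [mem_sphere_zero_iff_norm] at hy
      have hr' : (200 : ℝ) ≤ r := hr
      show 200 ≤ ‖r • y‖
      rw [norm_smul, show ‖y‖ = 1 from hy, mul_one, Real.norm_of_nonneg (by linarith)]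
      exact hr'
  rw [e]
  exact (isPreconnected_Ici.prod (isPreconnected_sphere hrank 0 1)).image _
    (by fun_prop : Continuous (fun q : ℝ × R3 => q.1 • q.2)).continuousOn

theorem Rod_preconn : IsPreconnected Rod := by
  have e : Rod = {p : R3 | (-4 ≤ p.1 ∧ p.1 ≤ 4) ∧ (-200 ≤ p.2.1 ∧ p.2.1 ≤ 160) ∧
      (-4 ≤ p.2.2 ∧ p.2.2 ≤ 4)} := by
    ext p
    simp only [Rod, mem_ofPred_eq, abs_le]
  exact e ▸ box_preconn _ _ _ _ _ _

theorem R1s_preconn : IsPreconnected R1s := by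
  refine IsPreconnected.union (0, -200, 0) ?_ ?_ outer_preconn Rod_preconn
  · show 200 ≤ ‖((0, -200, 0) : R3)‖
    have := ((norm3_le_iff ((0, -200, 0) : R3)).1 le_rfl).2.1
    norm_num at this ⊢
  · simp only [Rod, mem_ofPred_eq]; norm_num

theorem stage_preconn (n : ℕ) {s si : R3 → R3} (hs : Continuous s) (hsi : Continuous si)
    (h12 : ∀ p, s (si p) = p) (h21 : ∀ p, si (s p) = p) {C : Set R3} (hC : IsPreconnected C)
    (h1 : s (-20, 0, 0) ∈ C) (h2 : s (20, 0, 0) ∈ C) : IsPreconnected (C ∪ si ⁻¹' (NN n)) := by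
  have hC' : IsPreconnected (si '' C) := hC.image _ hsi.continuousOn
  have := (NN_preconn n (si '' C) hC' ⟨_, h1, h21 _⟩ ⟨_, h2, h21 _⟩).image s hs.continuousOn
  have e : s '' (si '' C ∪ NN n) = C ∪ si ⁻¹' (NN n) := by
    ext p
    constructor
    · rintro ⟨q, hq | hq, rfl⟩
      · obtain ⟨r, hr, rfl⟩ := hq
        left; rw [h12]; exact hr
      · right; show si (s q) ∈ NN n; rw [h21]; exact hq
    · rintro (hp | hp)
      · exact ⟨si p, Or.inl ⟨p, hp, rfl⟩, h12 p⟩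
      · exact ⟨si p, Or.inr hp, h12 p⟩
  rwa [e] at this

theorem N1_preconn (n : ℕ) : IsPreconnected (N1 n) := by
  refine stage_preconn n sg1_cont sg1i_cont sg1_sg1i sg1i_sg1 R1s_preconn ?_ ?_
  · right
    simp only [Rod, sg1, mem_ofPred_eq]; norm_num
  · left
    show 200 ≤ ‖sg1 (20, 0, 0)‖
    have := ((norm3_le_iff (sg1 (20, 0, 0))).1 le_rfl).2.1
    simp only [sg1] at this ⊢
    norm_num at this ⊢

theorem N2_preconn (n : ℕ) : IsPreconnected (N2 n) := by
  refine stage_preconn n sg2_cont sg2i_cont sg2_sg2i sg2i_sg2 R2s_preconn ?_ ?_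
  · left; right
    simp only [PL, sg2, mem_ofPred_eq]; norm_num
  · right
    simp only [PR, sg2, mem_ofPred_eq]; norm_num

end Sph9fe
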