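import Mathlib

namespace Sph9fe

/-- the group of the local systems is a quotient of this one -/
abbrev Gh : Type := Matrix.SpecialLinearGroup (Fin 2) (ZMod 5)

/-- the subgroup `{1, -1}` -/
def Nz : Subgroup Gh where
  carrier := {z | z = 1 ∨ z = -1}
  one_mem' := Or.inl rfl
  mul_mem' := by
    rintro a b (rfl | rfl) (rfl | rfl)
    · left; simp
    · right; simp
    · right; simp
    · left; simp
  inv_mem' := by
    rintro a (rfl | rfl)
    · left; simp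
    · right
      show (-1 : Gh)⁻¹ = -1
      rw [inv_eq_iff_mul_eq_one]; simp

theorem mem_Nz {z : Gh} : z ∈ Nz ↔ z = 1 ∨ z = -1 := Iff.rfl

theorem Nz_comm : ∀ z ∈ Nz, ∀ g : Gh, z * g = g * z := by
  rintro z (rfl | rfl) g
  · simp
  · simp

theorem Nz_sq : ∀ z ∈ Nz, z * z = 1 := by
  rintro z (rfl | rfl)
  · simp
  · simp

instance Nz_normal : Nz.Normal := ⟨fun z hz g => by
  rw [← Nz_comm z hz g, mul_assoc, mul_inv_cancel, mul_one]; exact hz⟩

def m0 : Gh := ⟨!![0, 1; 4, 0], by decide⟩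
def m1 : Gh := ⟨!![2, 0; 0, 3], by decide⟩
def m2 : Gh := ⟨!![0, 1; 4, 1], by decide⟩
def m3 : Gh := ⟨!![0, 2; 2, 0], by decide⟩
def m4 : Gh := ⟨!![1, 0; 2, 1], by decide⟩
def m5 : Gh := ⟨!![1, 3; 4, 3], by decide⟩

theorem gh_ext {A B : Gh} (h00 : A.1 0 0 = B.1 0 0) (h01 : A.1 0 1 = B.1 0 1)
    (h10 : A.1 1 0 = B.1 1 0) (h11 : A.1 1 1 = B.1 1 1) : A = B := by
  apply Subtype.ext
  ext i j
  fin_cases i <;> fin_cases j
  · exact h00
  · exact h01
  · exact h10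
  · exact h11

theorem r0 : m0 * m1 * m5 = m5 * m1 := gh_ext (by decide) (by decide) (by decide) (by decide)
theorem r1 : m1 * m3 * m5 = m5 * m3 := gh_ext (by decide) (by decide) (by decide) (by decide)
theorem r2 : m2 * m2 * m3 = -1 * (m3 * m2) := gh_ext (by decide) (by decide) (by decide) (by decide)
theorem r3 : m3 * m5 * m0 = m0 * m5 := gh_ext (by decide) (by decide) (by decide) (by decide)
theorem r4 : m4 * m1 * m2 = -1 * (m2 * m1) := gh_ext (by decide) (by decide) (by decide) (by decide)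
theorem r5 : m5 * m2 * m4 = -1 * (m4 * m2) := gh_ext (by decide) (by decide) (by decide) (by decide)
theorem rst : m0 * m1 = -1 * (m1 * m0) := gh_ext (by decide) (by decide) (by decide) (by decide)
theorem rst_ne : m0 * m1 ≠ m1 * m0 := by
  intro h
  have := congrArg (fun A : Gh => A.1 0 1) h
  revert this
  decide

abbrev Gq : Type := Gh ⧸ Nz

def LL : Set Gq := {(m0 : Gq), (m1 : Gq), (m2 : Gq), (m3 : Gq), (m4 : Gq), (m5 : Gq)}

theorem mk_neg_one : ((-1 : Gh) : Gq) = 1 := (QuotientGroup.eq_one_iff _).2 (Or.inr rfl)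

theorem q_pos {g b c : Gh} (h : g * b * c = c * b) : (g : Gq) = (c : Gq) * b * (c : Gq)⁻¹ * (b : Gq)⁻¹ := by
  have : (g : Gq) * b * c = c * b := by
    rw [← QuotientGroup.mk_mul, ← QuotientGroup.mk_mul, h, QuotientGroup.mk_mul]
  rw [← this]; group

theorem q_neg {g b c : Gh} (h : g * b * c = -1 * (c * b)) :
    (g : Gq) = (c : Gq) * b * (c : Gq)⁻¹ * (b : Gq)⁻¹ := by
  have : (g : Gq) * b * c = c * b := by
    rw [← QuotientGroup.mk_mul, ← QuotientGroup.mk_mul, h, QuotientGroup.mk_mul, mk_neg_one, one_mul,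
      QuotientGroup.mk_mul]
  rw [← this]; group

theorem LL_closed : ∀ g ∈ LL, ∃ b ∈ LL, ∃ c ∈ LL, g = c * b * c⁻¹ * b⁻¹ := by
  intro g hg
  have k0 : (m0 : Gq) ∈ LL := by simp [LL]
  have k1 : (m1 : Gq) ∈ LL := by simp [LL]
  have k2 : (m2 : Gq) ∈ LL := by simp [LL]
  have k3 : (m3 : Gq) ∈ LL := by simp [LL]
  have k4 : (m4 : Gq) ∈ LL := by simp [LL]
  have k5 : (m5 : Gq) ∈ LL := by simp [LL]
  rcases hg with rfl | rfl | rfl | rfl | rfl | rfl
  · exact ⟨_, k1, _, k5, q_pos r0⟩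
  · exact ⟨_, k3, _, k5, q_pos r1⟩
  · exact ⟨_, k2, _, k3, q_neg r2⟩
  · exact ⟨_, k5, _, k0, q_pos r3⟩
  · exact ⟨_, k1, _, k2, q_neg r4⟩
  · exact ⟨_, k2, _, k4, q_neg r5⟩

theorem m0_mem : (m0 : Gq) ∈ LL := by simp [LL]
theorem m1_mem : (m1 : Gq) ∈ LL := by simp [LL]

theorem q_comm : (m0 : Gq) * m1 = (m1 : Gq) * m0 := by
  rw [← QuotientGroup.mk_mul, rst, QuotientGroup.mk_mul, mk_neg_one, one_mul, QuotientGroup.mk_mul]

theorem inv_ne : m0⁻¹ * m1⁻¹ ≠ m1⁻¹ * m0⁻¹ := by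
  intro h
  apply rst_ne
  have := congrArg (fun x => x⁻¹) h
  simp only [mul_inv_rev, inv_inv] at this
  exact this.symm

end Sph9fe
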