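import Pool.Agent.Work.MP_9fe036_gt.Final
import Pool.Agent.Work.MP_9fe036_gt.Labels

namespace Sph9fe

open Topology Filter Set

/-! ### the two witnesses and the bounding box -/

theorem q2_mem : ((0, 0, -80) : R3) ∈ Stwo := by
  left
  refine ⟨⟨Or.inl ⟨Or.inl ⟨⟨?_, ?_⟩, ?_⟩, ?_⟩, ?_⟩, ?_⟩
  · simp only [Bar, mem_ofPred_eq]; norm_num
  · rintro ⟨-, -, h⟩
    norm_num at h
  · rintro ⟨y, hy, h⟩
    have := congrArg (fun p : R3 => p.2.2) h
    simp only [Ψl] at this
    norm_num at this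
  · rintro ⟨y, hy, h⟩
    have := congrArg (fun p : R3 => p.2.2) h
    simp only [Ψr] at this
    norm_num at this
  · rintro ⟨y, hy, h⟩
    have := congrArg (fun p : R3 => p.1) h
    simp only [sg2_io] at this
    norm_num at this
  · rintro ⟨y, hy, h⟩
    have := congrArg (fun p : R3 => p.1) h
    simp only [sg2_tio] at this
    norm_num at this

theorem q1_mem : ((0, 0, -200) : R3) ∈ Sone := by
  left
  refine ⟨⟨Or.inl ⟨?_, ?_⟩, ?_⟩, ?_⟩
  · show ‖((0, 0, -200) : R3)‖ = 200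
    rw [norm3_eq_iff]
    simp only
    norm_num
  · rintro ⟨y, hy, h⟩
    have := congrArg (fun p : R3 => p.2.1) h
    simp only [Ψo] at this
    norm_num at this
  · rintro ⟨y, hy, h⟩
    have := congrArg (fun p : R3 => p.2.1) h
    simp only [sg1_io] at this
    norm_num at this
  · rintro ⟨y, hy, h⟩
    have := congrArg (fun p : R3 => p.2.1) h
    simp only [sg1_tio] at this
    norm_num at this

theorem Sone_bdd {p : R3} (h : p ∈ Sone) : ‖p‖ ≤ 200 := by
  rcases h with h | h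
  · rcases h.1.1 with h | h
    · exact (show ‖p‖ = 200 from h.1).le
    · obtain ⟨h1, ⟨h2, h3⟩, h4⟩ := (lathe_o_cases h).1
      rw [norm3_le_iff]
      exact ⟨by linarith, abs_le.2 ⟨by linarith, by linarith⟩, by linarith⟩
  · obtain ⟨q, hq, rfl⟩ := h
    have := XX_sub_BB (YY_sub_XX hq)
    simp only [BB, mem_ofPred_eq, abs_le] at this
    rw [norm3_le_iff]
    simp only [sg1, abs_le]
    refine ⟨⟨?_, ?_⟩, ⟨?_, ?_⟩, ?_, ?_⟩ <;> linarith [this.1.1, this.1.2, this.2.1.1, this.2.1.2, this.2.2.1, this.2.2.2]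

/-! ### rays -/

def Ray (c : ℝ) : Set R3 := (fun z : ℝ => ((0, 0, z) : R3)) '' Iic c

theorem Ray_preconn (c : ℝ) : IsPreconnected (Ray c) :=
  isPreconnected_Iic.image _ (by fun_prop : Continuous (fun z : ℝ => ((0, 0, z) : R3))).continuousOn

theorem Ray_unbdd (c : ℝ) : ¬ Bornology.IsBounded (Ray c) := by
  intro h
  obtain ⟨R, hR⟩ := h.subset_closedBall 0
  have hm : ((0, 0, min c (-(|R| + 1))) : R3) ∈ Ray c := ⟨_, mem_Iic.2 (min_le_left _ _), rfl⟩
  have := hR hm
  rw [mem_closedBall_zero_iff, norm3_le_iff] at this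
  have h3 := (abs_le.1 this.2.2).1
  have h4 := min_le_right c (-(|R| + 1))
  simp only at h3
  linarith [le_abs_self R]

theorem Ray_meets {S : Set R3} {c : ℝ} (h : ((0, 0, c) : R3) ∈ Int3 S) :
    ∃ z, z < c ∧ ((0, 0, z) : R3) ∈ S := by
  by_contra hcon
  push Not at hcon
  have hsub : Ray c ⊆ Sᶜ := by
    rintro _ ⟨z, hz, rfl⟩ hzS
    rcases (show z ≤ c from hz).eq_or_lt with h' | h'
    · exact h.1 (by rw [← h']; exact hzS)
    · exact hcon z h' hzS
  exact Ray_unbdd c (h.2.subset ((Ray_preconn c).subset_connectedComponentIn ⟨c, mem_Iic.2 le_rfl, rfl⟩ hsub))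

theorem outer_unbdd {z : ℝ} (hz : z < -200) : ((0, 0, z) : R3) ∉ Int3 Sone := by
  intro h
  obtain ⟨w, hw, hS⟩ := Ray_meets h
  have := Sone_bdd hS
  rw [norm3_le_iff] at this
  have := (abs_le.1 this.2.2).1
  simp only at this
  linarith

/-! ### compactness -/

theorem exists_stage {S : Set R3} (hS : IsCompact S) {R : Set R3} {s : R3 → R3}
    (hs : Continuous s) (h : ∀ p ∈ S, p ∉ R ∪ s ⁻¹' XX) :
    ∃ n, ∀ m, n ≤ m → ∀ p ∈ S, p ∉ R ∪ s ⁻¹' (NN m) := by
  have h1 : S ∩ ⋂ n, s ⁻¹' (NN n) = ∅ := by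
    ext p
    simp only [mem_inter_iff, mem_empty_iff_false, iff_false, not_and]
    intro hp hn
    refine h p hp (Or.inr ?_)
    exact mem_iInter.2 (fun n => mem_iInter.1 hn n)
  obtain ⟨n, hn⟩ := IsCompact.elim_directed_family_closed hS (fun n => s ⁻¹' (NN n))
    (fun n => (NN_closed n).preimage hs) h1 (by
      intro i j
      exact ⟨max i j, preimage_mono (NN_anti (le_max_left _ _)), preimage_mono (NN_anti (le_max_right _ _))⟩)
  refine ⟨n, fun m hm p hp hpm => ?_⟩
  rcases hpm with h2 | h2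
  · exact h p hp (Or.inl h2)
  · have : p ∈ S ∩ s ⁻¹' (NN n) := ⟨hp, NN_anti hm h2⟩
    rw [hn] at this
    exact this

/-! ### the obstruction -/

theorem comp_open {S : Set R3} (hS : IsClosed S) (P : Set R3 → Prop) :
    IsOpen {x | x ∉ S ∧ P (connectedComponentIn Sᶜ x)} := by
  rw [isOpen_iff_mem_nhds]
  rintro x ⟨hx, hP⟩
  refine mem_of_superset (hS.isOpen_compl.connectedComponentIn.mem_nhds (mem_connectedComponentIn hx)) ?_
  intro y hy
  refine ⟨connectedComponentIn_subset _ _ hy, ?_⟩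
  rw [← connectedComponentIn_eq hy]
  exact hP

theorem psi_00 {G : Type*} [Group G] (s t : G) : psi0 s t (0, 0) = t * s := by
  have h : (0 : ℝ) ≤ 1 / 2 := by norm_num
  simp only [psi0, h, if_true]

theorem psi_10 {G : Type*} [Group G] (s t : G) : psi0 s t (1, 0) = t := by
  have h : (0 : ℝ) ≤ 1 / 2 := by norm_num
  have h' : ¬ (1 : ℝ) ≤ 1 / 2 := by norm_num
  simp only [psi0, h, h', if_true, if_false, mul_one]

theorem psi_01 {G : Type*} [Group G] (s t : G) : psi0 s t (0, 1) = s := by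
  have h : (0 : ℝ) ≤ 1 / 2 := by norm_num
  have h' : ¬ (1 : ℝ) ≤ 1 / 2 := by norm_num
  simp only [psi0, h, h', if_true, if_false, one_mul]

theorem no_middle {S3 : Set R3} (h3 : IsSph S3) (h23 : Stwo ⊆ Int3 S3) (h31 : S3 ⊆ Int3 Sone) :
    False := by
  have hS3c : IsCompact S3 := h3.isCompact
  have hS3cl : IsClosed S3 := h3.isClosed
  have hS3p : IsPreconnected S3 := by
    obtain ⟨e⟩ := h3
    have hrank : 1 < Module.rank ℝ E3 := by
      have : Module.finrank ℝ E3 = 3 := by simp [E3]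
      rw [← Module.finrank_eq_rank, this]; norm_num
    have hS2 : IsPreconnected (Metric.sphere (0 : E3) 1) := isPreconnected_sphere hrank 0 1
    have : PreconnectedSpace S2 := isPreconnected_iff_preconnectedSpace.1 hS2
    have hu : IsPreconnected (range (fun x : S2 => (e x : R3))) :=
      isPreconnected_range (continuous_subtype_val.comp e.continuous)
    have he : range (fun x : S2 => (e x : R3)) = S3 := by
      ext p
      constructor
      · rintro ⟨x, rfl⟩; exact (e x).2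
      · intro hp; exact ⟨e.symm ⟨p, hp⟩, by simp⟩
    rwa [he] at hu
  -- the crossing point
  obtain ⟨z, hz, hzS⟩ := Ray_meets (h23 q2_mem)
  have hz2 : -200 < z := by
    by_contra hcon
    push Not at hcon
    rcases hcon.eq_or_lt with h | h
    · rw [h] at hzS
      exact (h31 hzS).1 q1_mem
    · exact outer_unbdd h (h31 hzS)
  have hx1 : ((0, 0, z) : R3) ∉ Hone := by
    intro h
    rcases Hone_reg h with h | h
    · have : ‖((0, 0, z) : R3)‖ < 200 := by
        rw [norm3_lt_iff]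
        simp only [abs_zero]
        exact ⟨by norm_num, by norm_num, abs_lt.2 ⟨hz2, by linarith⟩⟩
      linarith
    · have := (abs_le.1 h.2).1
      simp only at this
      linarith
  have hx2 : ((0, 0, z) : R3) ∉ Htwo := by
    intro h
    have := (Htwo_reg h).2.2.2.2.1
    simp only at this
    linarith
  have hd1 : ∀ p ∈ S3, p ∉ Hone :=
    side Hone_closed Fr_Sone hS3p (fun p hp => (h31 hp).1) hzS hx1
  have hd2 : ∀ p ∈ S3, p ∉ Htwo :=
    side Htwo_closed Fr_Stwo hS3p (fun p hp hp2 => (h23 hp2).1 hp) hzS hx2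
  obtain ⟨n1, hn1⟩ := exists_stage hS3c sg1i_cont hd1
  obtain ⟨n2, hn2⟩ := exists_stage hS3c sg2i_cont hd2
  set n := max n1 n2 with hn
  have hN1 : ∀ p ∈ S3, p ∉ N1 n := hn1 n (le_max_left _ _)
  have hN2 : ∀ p ∈ S3, p ∉ N2 n := hn2 n (le_max_right _ _)
  have hN1' : N1 n ⊆ S3ᶜ := fun p hp hpS => hN1 p hpS hp
  have hN2' : N2 n ⊆ S3ᶜ := fun p hp hpS => hN2 p hpS hp
  let O : Set R3 := {x | x ∉ S3 ∧ ¬ Bornology.IsBounded (connectedComponentIn S3ᶜ x)}
  have hIo : IsOpen (Int3 S3) := comp_open hS3cl (fun C => Bornology.IsBounded C)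
  have hOo : IsOpen O := comp_open hS3cl (fun C => ¬ Bornology.IsBounded C)
  have hN2I : N2 n ⊆ Int3 S3 := by
    have hq : ((0, 0, -80) : R3) ∈ N2 n := by
      left; left; left
      simp only [Bar, mem_ofPred_eq]; norm_num
    intro p hp
    refine ⟨hN2' hp, ?_⟩
    have h1 : p ∈ connectedComponentIn S3ᶜ (0, 0, -80) :=
      (N2_preconn n).subset_connectedComponentIn hq hN2' hp
    rw [← connectedComponentIn_eq h1]
    exact (h23 q2_mem).2
  have hN1O : N1 n ⊆ O := by
    intro p hp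
    refine ⟨hN1' hp, fun hb => ?_⟩
    have h1 : N1 n ⊆ connectedComponentIn S3ᶜ p :=
      (N1_preconn n).subset_connectedComponentIn hp hN1'
    refine Ray_unbdd (-200) ((hb.subset h1).subset ?_)
    rintro _ ⟨w, hw, rfl⟩
    left; left
    show 200 ≤ ‖((0, 0, w) : R3)‖
    have hw' : w ≤ -200 := hw
    by_contra hcon
    push Not at hcon
    rw [norm3_lt_iff] at hcon
    have := (abs_lt.1 hcon.2.2).1
    simp only at this
    linarith
  obtain ⟨h, hh1, hh2⟩ := global_coc LL_closed m0_mem m1_mem q_comm n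
  obtain ⟨e⟩ := h3
  have hLT : LocTriv (N1 n ∪ N2 n)ᶜ h := fun p hp => hh1 p hp
  have hFF : ∀ a : ℝ × ℝ, sg1i (FF a) ∉ BB ∧ sg2i (FF a) ∉ BB := fun a =>
    ⟨fun hc => FF_not_rod a (rod_reg (Or.inr hc)), fun hc => FF_not_ring a (ring_reg (Or.inr hc))⟩
  have hψ : TrivOn sq (fun a b => h (FF a) (FF b)) (psi0 (m0 : Gq) (m1 : Gq)) := by
    refine (hh0_triv q_comm).congr ?_
    intro a _
    exact Filter.Eventually.of_forall (fun b => hh2 _ _ (hFF a).1 (hFF a).2)
  refine core Nz Nz_comm Nz_sq (N1 := N1 n) (N2 := N2 n) (S := S3) (I := Int3 S3) (O := O) e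
    ?_ hIo hOo ?_ ?_ hN2I hN1O hLT (F := FF) FF_cont ?_ ?_ (fun a _ => FF_mem n a)
    (E1 := E1f) E1f_cont ?_ ?_ (t₀ := 1 / 2) ⟨by norm_num, by norm_num⟩ ?_
    (fun a ha => E1f_N2 n ha)
    (E2 := E2f) E2f_cont ?_ ?_ (s₀ := 0) ⟨le_rfl, zero_le_one⟩ ?_
    (fun a ha => E2f_N1 n ha) (ψ0 := psi0 (m0 : Gq) (m1 : Gq)) hψ (s := m0⁻¹) (t := m1⁻¹) inv_ne
    ?_ ?_
  · rintro p hp (h1 | h1)
    · exact hN1 p hp h1
    · exact hN2 p hp h1
  · intro p
    by_cases hp : p ∈ S3
    · exact Or.inr (Or.inl hp)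
    · by_cases hb : Bornology.IsBounded (connectedComponentIn S3ᶜ p)
      · exact Or.inl ⟨hp, hb⟩
      · exact Or.inr (Or.inr ⟨hp, hb⟩)
  · intro p hp hpO; exact hpO.2 hp.2
  · intro t; simp only [FF, sS_zero, sS_one, cC_zero, cC_one]
  · intro s; simp only [FF, rho, sS_zero, sS_one, cC_zero, cC_one]
  · intro t; simp only [E1f, sS_zero, sS_one, cC_zero, cC_one]
  · intro s s'; simp only [E1f, sub_self, zero_mul]
  · intro s
    simp only [E1f, FF, rho, sS_half, cC_half]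
    refine Prod.ext ?_ (Prod.ext ?_ ?_)
    · show (1 - 0) * (30 * sS s) = (90 + 60 * -1) * sS s; ring
    · show (0 : ℝ) = 60 * 0; ring
    · show (1 - 0) * (30 * cC s) = (90 + 60 * -1) * cC s; ring
  · intro t; simp only [E2f, sS_zero, sS_one, cC_zero, cC_one]
  · intro s s'; simp only [E2f, sub_self, zero_mul]
  · intro s
    simp only [E2f, FF, rho, sS_zero, cC_zero]
    ext <;> simp
  · rw [psi_10, psi_00, QuotientGroup.mk_inv, ← q_comm, mul_inv_rev, mul_inv_cancel_left]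
  · rw [psi_01, psi_00, QuotientGroup.mk_inv, mul_inv_rev, mul_inv_cancel_left]

end Sph9fe
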