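import Pool.Agent.Work.MP_9fe036_gt.HornInj

namespace Sph9fe

open Topology Filter Set

/-! ### surjectivity of the solid parametrisations -/

theorem KT_surj {p : R3} (h : p ∈ KT) : ∃ θ y, 0 ≤ θ ∧ θ ≤ 1 ∧ ‖y‖ ≤ 1 ∧ ΨT θ y = p := by
  obtain ⟨h1, h2, h3, h4⟩ := h
  have hpos : 0 < 4 + 11 * ((p.1 + 20) / 4) := by linarith
  refine ⟨(p.1 + 20) / 4, (p.2.1 / (4 + 11 * ((p.1 + 20) / 4)), p.2.2 / 4), by linarith, by linarith,
    ?_, ?_⟩
  · rw [norm_le_iff]
    simp only
    rw [abs_div, abs_div, abs_of_pos hpos, abs_of_pos (show (0:ℝ) < 4 by norm_num),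
      div_le_one hpos, div_le_one (by norm_num)]
    exact ⟨h3, h4⟩
  · unfold ΨT
    ext
    · simp only; ring
    · simp only; rw [← mul_div_assoc]; exact mul_div_cancel_left₀ _ hpos.ne'
    · simp only; ring

/-- recovered coordinate -/
noncomputable def uu (x y : ℝ) : ℝ := min (y + 13) (min (6 - x) (13 - y))

theorem uu_ΨU : ∀ θ (y : R2), 0 ≤ θ → θ ≤ 1 → ‖y‖ ≤ 1 →
      uu (ΨU θ y).1 (ΨU θ y).2.1 = y.1 := by
    intro θ y h0 h1 hy
    rw [norm_le_iff] at hy
    have hy1 := abs_le.1 hy.1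
    simp only [ΨU, uu]
    rcases le_total (3 * θ) 1 with ha | ha
    · rw [cl_of_mem (show 0 ≤ 3 * θ by linarith) ha, cl_of_le (show 3 * θ - 1 ≤ 0 by linarith),
        cl_of_le (show 3 * θ - 2 ≤ 0 by linarith)]
      rw [min_eq_left]
      · ring
      · refine le_min ?_ ?_ <;> nlinarith
    · rcases le_total (3 * θ) 2 with hb | hb
      · rw [cl_of_ge ha, cl_of_mem (show 0 ≤ 3 * θ - 1 by linarith) (by linarith),
          cl_of_le (show 3 * θ - 2 ≤ 0 by linarith)]
        rw [min_eq_right, min_eq_left]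
        · ring
        · nlinarith
        · refine le_trans (min_le_left _ _) ?_
          nlinarith
      · rw [cl_of_ge ha, cl_of_ge (show 1 ≤ 3 * θ - 1 by linarith),
          cl_of_mem (show 0 ≤ 3 * θ - 2 by linarith) (by linarith)]
        rw [min_eq_right, min_eq_right]
        · ring
        · nlinarith
        · refine le_trans (min_le_right _ _) ?_
          nlinarith

theorem KU_surj {p : R3} (h : p ∈ KU) : ∃ θ y, 0 ≤ θ ∧ θ ≤ 1 ∧ ‖y‖ ≤ 1 ∧ ΨU θ y = p := by
  obtain ⟨hs, hz⟩ := h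
  have hu1 : -1 ≤ uu p.1 p.2.1 := by
    unfold uu
    unfold Strip at hs
    refine le_min ?_ (le_min ?_ ?_) <;> rcases hs with hs | hs | hs <;>
      linarith [hs.1, hs.2.1, hs.2.2.1, hs.2.2.2]
  have hu2 : uu p.1 p.2.1 ≤ 1 := by
    unfold uu
    unfold Strip at hs
    rcases hs with hs | hs | hs
    · exact (min_le_left _ _).trans (by linarith [hs.2.2.2])
    · exact (min_le_right _ _).trans ((min_le_left _ _).trans (by linarith [hs.1]))
    · exact (min_le_right _ _).trans ((min_le_right _ _).trans (by linarith [hs.2.2.1]))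
  have hm1 : uu p.1 p.2.1 ≤ p.2.1 + 13 := min_le_left _ _
  have hm2 : uu p.1 p.2.1 ≤ 6 - p.1 := (min_le_right _ _).trans (min_le_left _ _)
  have hm3 : uu p.1 p.2.1 ≤ 13 - p.2.1 := (min_le_right _ _).trans (min_le_right _ _)
  have hyn : ‖((uu p.1 p.2.1, p.2.2) : R2)‖ ≤ 1 := by
    rw [norm_le_iff]; exact ⟨abs_le.2 ⟨hu1, hu2⟩, hz⟩
  have hcase : uu p.1 p.2.1 = p.2.1 + 13 ∨ uu p.1 p.2.1 = 6 - p.1 ∨ uu p.1 p.2.1 = 13 - p.2.1 := by
    unfold uu
    rcases min_choice (p.2.1 + 13) (min (6 - p.1) (13 - p.2.1)) with h | h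
    · exact Or.inl h
    · rcases min_choice (6 - p.1) (13 - p.2.1) with h' | h'
      · right; left; rw [h, h']
      · right; right; rw [h, h']
  set u := uu p.1 p.2.1 with hu
  unfold Strip at hs
  rcases hcase with hc | hc | hc
  · have hx : -16 ≤ p.1 := by rcases hs with hs | hs | hs <;> linarith [hs.1]
    have hd : 0 < 22 - u := by linarith
    have ht0 : 0 ≤ (p.1 + 16) / (22 - u) := div_nonneg (by linarith) hd.le
    have ht1 : (p.1 + 16) / (22 - u) ≤ 1 := by rw [div_le_one hd]; linarith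
    refine ⟨(p.1 + 16) / (22 - u) / 3, (u, p.2.2), by linarith, by linarith, hyn, ?_⟩
    unfold ΨU
    have e3 : 3 * ((p.1 + 16) / (22 - u) / 3) = (p.1 + 16) / (22 - u) := by ring
    rw [e3, cl_of_mem ht0 ht1, cl_of_le (show (p.1 + 16) / (22 - u) - 1 ≤ 0 by linarith),
      cl_of_le (show (p.1 + 16) / (22 - u) - 2 ≤ 0 by linarith)]
    ext
    · simp only; rw [div_mul_cancel₀ _ hd.ne']; ring
    · simp only; linarith
    · rfl
  · have hd : 0 < 26 - 2 * u := by linarith
    have ht0 : 0 ≤ (p.2.1 + 13 - u) / (26 - 2 * u) := div_nonneg (by linarith) hd.le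
    have ht1 : (p.2.1 + 13 - u) / (26 - 2 * u) ≤ 1 := by rw [div_le_one hd]; linarith
    refine ⟨(1 + (p.2.1 + 13 - u) / (26 - 2 * u)) / 3, (u, p.2.2), by linarith, by linarith, hyn, ?_⟩
    unfold ΨU
    have e3 : 3 * ((1 + (p.2.1 + 13 - u) / (26 - 2 * u)) / 3) =
      1 + (p.2.1 + 13 - u) / (26 - 2 * u) := by ring
    rw [e3, cl_of_ge (show 1 ≤ 1 + (p.2.1 + 13 - u) / (26 - 2 * u) by linarith), add_sub_cancel_left,
      cl_of_mem ht0 ht1, cl_of_le (show 1 + (p.2.1 + 13 - u) / (26 - 2 * u) - 2 ≤ 0 by linarith)]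
    ext
    · simp only; linarith
    · simp only; rw [div_mul_cancel₀ _ hd.ne']; ring
    · rfl
  · have hx : 4 ≤ p.1 := by
      rcases hs with hs | hs | hs
      · linarith [hs.2.2.2]
      · linarith [hs.1]
      · exact hs.1
    have hd : 0 < 2 - u := by linarith
    have ht0 : 0 ≤ (6 - u - p.1) / (2 - u) := div_nonneg (by linarith) hd.le
    have ht1 : (6 - u - p.1) / (2 - u) ≤ 1 := by rw [div_le_one hd]; linarith
    refine ⟨(2 + (6 - u - p.1) / (2 - u)) / 3, (u, p.2.2), by linarith, by linarith, hyn, ?_⟩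
    unfold ΨU
    have e3 : 3 * ((2 + (6 - u - p.1) / (2 - u)) / 3) = 2 + (6 - u - p.1) / (2 - u) := by ring
    rw [e3, cl_of_ge (show 1 ≤ 2 + (6 - u - p.1) / (2 - u) by linarith),
      cl_of_ge (show 1 ≤ 2 + (6 - u - p.1) / (2 - u) - 1 by linarith), add_sub_cancel_left,
      cl_of_mem ht0 ht1]
    ext
    · simp only; rw [div_mul_cancel₀ _ hd.ne']; ring
    · simp only; linarith
    · rfl

/-! ### interiors -/

theorem KT_nhds {θ : ℝ} {y : R2} (h0 : 0 < θ) (h1 : θ < 1) (hy : ‖y‖ < 1) : KT ∈ 𝓝 (ΨT θ y) := by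
  have hopen : IsOpen {p : R3 | -20 < p.1 ∧ p.1 < -16 ∧ |p.2.1| < 4 + 11 * ((p.1 + 20) / 4) ∧
      |p.2.2| < 4} := by
    have c1 : Continuous (fun p : R3 => p.1) := by fun_prop
    have c2 : Continuous (fun p : R3 => |p.2.1|) := by fun_prop
    have c3 : Continuous (fun p : R3 => |p.2.2|) := by fun_prop
    have c4 : Continuous (fun p : R3 => 4 + 11 * ((p.1 + 20) / 4)) := by fun_prop
    exact (isOpen_lt continuous_const c1).inter ((isOpen_lt c1 continuous_const).inter
      ((isOpen_lt c2 c4).inter (isOpen_lt c3 continuous_const)))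
  refine mem_of_superset (hopen.mem_nhds ?_) (fun p hp => ⟨hp.1.le, hp.2.1.le, hp.2.2.1.le, hp.2.2.2.le⟩)
  rw [norm_lt_iff] at hy
  refine ⟨?_, ?_, ?_, ?_⟩
  · simp only [ΨT]; linarith
  · simp only [ΨT]; linarith
  · simp only [ΨT]
    rw [show -20 + 4 * θ + 20 = 4 * θ by ring, show 4 + 11 * (4 * θ / 4) = 4 + 11 * θ by ring,
      abs_mul, abs_of_nonneg (show 0 ≤ 4 + 11 * θ by linarith)]
    nlinarith [hy.1, abs_nonneg y.1]
  · simp only [ΨT]
    rw [abs_mul, abs_of_nonneg (show (0:ℝ) ≤ 4 by norm_num)]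
    linarith [hy.2]

theorem KU_nhds {θ : ℝ} {y : R2} (h0 : 0 < θ) (h1 : θ < 1) (hy : ‖y‖ < 1) : KU ∈ 𝓝 (ΨU θ y) := by
  have hopen : IsOpen {p : R3 | -1 < uu p.1 p.2.1 ∧ uu p.1 p.2.1 < 1 ∧ -16 < p.1 ∧
      (p.2.1 < 0 ∨ 4 < p.1) ∧ |p.2.2| < 1} := by
    have c1 : Continuous (fun p : R3 => p.1) := by fun_prop
    have c2 : Continuous (fun p : R3 => p.2.1) := by fun_prop
    have c3 : Continuous (fun p : R3 => |p.2.2|) := by fun_prop
    have c4 : Continuous (fun p : R3 => uu p.1 p.2.1) := by unfold uu; fun_prop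
    exact (isOpen_lt continuous_const c4).inter ((isOpen_lt c4 continuous_const).inter
      ((isOpen_lt continuous_const c1).inter
        (((isOpen_lt c2 continuous_const).union (isOpen_lt continuous_const c1)).inter
          (isOpen_lt c3 continuous_const))))
  refine mem_of_superset (hopen.mem_nhds ?_) ?_
  · have hy' := hy
    rw [norm_lt_iff] at hy
    have a1 := abs_lt.1 hy.1
    refine ⟨?_, ?_, ?_, ?_, hy.2⟩
    · rw [uu_ΨU θ y h0.le h1.le hy'.le]; exact a1.1
    · rw [uu_ΨU θ y h0.le h1.le hy'.le]; exact a1.2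
    · have hpos : 0 < cl (3 * θ) := by
        unfold cl; exact lt_max_of_lt_right (lt_min (by norm_num) (by linarith))
      show -16 < -16 + cl (3 * θ) * (22 - y.1) - cl (3 * θ - 2) * (2 - y.1)
      rcases le_total (3 * θ - 2) 0 with h | h
      · rw [cl_of_le h]
        have : 0 < cl (3 * θ) * (22 - y.1) := mul_pos hpos (by linarith)
        linarith
      · rw [cl_of_ge (show 1 ≤ 3 * θ by linarith)]
        have h1 := cl_le (3 * θ - 2)
        have h0 := cl_nonneg (3 * θ - 2)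
        nlinarith
    · show -13 + y.1 + cl (3 * θ - 1) * (26 - 2 * y.1) < 0 ∨
        4 < -16 + cl (3 * θ) * (22 - y.1) - cl (3 * θ - 2) * (2 - y.1)
      rcases le_total (3 * θ) 1 with h | h
      · left
        rw [cl_of_le (show 3 * θ - 1 ≤ 0 by linarith)]; linarith
      · right
        rw [cl_of_ge h]
        have h2 : cl (3 * θ - 2) < 1 := by
          unfold cl; exact max_lt (by norm_num) (min_lt_of_right_lt (by linarith))
        have h0 := cl_nonneg (3 * θ - 2)
        nlinarith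
  · rintro p ⟨h1, h2, h3, h4, h5⟩
    refine ⟨?_, h5.le⟩
    have hm1 : -1 < p.2.1 + 13 := lt_of_lt_of_le h1 (min_le_left _ _)
    have hm2 : -1 < 6 - p.1 := lt_of_lt_of_le h1 ((min_le_right _ _).trans (min_le_left _ _))
    have hm3 : -1 < 13 - p.2.1 := lt_of_lt_of_le h1 ((min_le_right _ _).trans (min_le_right _ _))
    unfold Strip
    unfold uu at h2
    rcases min_lt_iff.1 h2 with h | h
    · left; refine ⟨h3.le, by linarith, by linarith, by linarith⟩
    · rcases min_lt_iff.1 h with h | h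
      · right; left; refine ⟨by linarith, by linarith, by linarith, by linarith⟩
      · right; right
        refine ⟨?_, by linarith, by linarith, by linarith⟩
        rcases h4 with h4 | h4
        · linarith
        · exact h4.le

/-- open box neighbourhoods -/
theorem box_nhds {a : R3} {S : Set R3} (r s t : ℝ) (hr : 0 < r) (hs : 0 < s) (ht : 0 < t)
    (h : ∀ p : R3, |p.1 - a.1| < r → |p.2.1 - a.2.1| < s → |p.2.2 - a.2.2| < t → p ∈ S) :
    S ∈ 𝓝 a := by
  have c1 : Continuous (fun p : R3 => |p.1 - a.1|) := by fun_prop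
  have c2 : Continuous (fun p : R3 => |p.2.1 - a.2.1|) := by fun_prop
  have c3 : Continuous (fun p : R3 => |p.2.2 - a.2.2|) := by fun_prop
  have hopen : IsOpen {p : R3 | |p.1 - a.1| < r ∧ |p.2.1 - a.2.1| < s ∧ |p.2.2 - a.2.2| < t} :=
    (isOpen_lt c1 continuous_const).inter ((isOpen_lt c2 continuous_const).inter
      (isOpen_lt c3 continuous_const))
  refine mem_of_superset (hopen.mem_nhds ?_) (fun p hp => h p hp.1 hp.2.1 hp.2.2)
  simp [hr, hs, ht]

theorem base_U {y : R2} (hy : ‖y‖ < 1) : KT ∪ KU ∈ 𝓝 (ΨU 0 y) := by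
  rw [ΨU_zero]
  rw [norm_lt_iff] at hy
  obtain ⟨h1, h2⟩ := hy
  refine box_nhds (1 / 10) (1 - |y.1|) (1 - |y.2|) (by norm_num) (by linarith) (by linarith) ?_
  intro p hp1 hp2 hp3
  simp only at hp1 hp2 hp3
  rw [abs_lt] at hp1
  have e1 : |p.2.1 + 13| < 1 := by
    have : p.2.1 + 13 = (p.2.1 - (-13 + y.1)) + y.1 := by ring
    rw [this]; exact lt_of_le_of_lt (abs_add_le _ _) (by linarith)
  have e2 : |p.2.2| < 1 := by
    have : p.2.2 = (p.2.2 - y.2) + y.2 := by ring
    rw [this]; exact lt_of_le_of_lt (abs_add_le _ _) (by linarith)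
  rw [abs_lt] at e1
  rcases le_total p.1 (-16) with h | h
  · left
    refine ⟨by linarith, h, ?_, by linarith⟩
    rw [abs_le]; constructor <;> linarith
  · right
    exact ⟨Or.inl ⟨h, by linarith, by linarith, by linarith⟩, e2.le⟩

theorem base_1 {y : R2} (hy : ‖y‖ < 1) : KT ∪ sinv ⁻¹' KT ∈ 𝓝 (sc (io y)) := by
  rw [norm_lt_iff] at hy
  obtain ⟨h1, h2⟩ := hy
  have e : sc (io y) = (-16, 13 + y.2, y.1) := by unfold sc io; ext <;> simp; norm_num
  rw [e]
  refine box_nhds (1 / 10) (1 - |y.2|) (1 - |y.1|) (by norm_num) (by linarith) (by linarith) ?_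
  intro p hp1 hp2 hp3
  simp only at hp1 hp2 hp3
  rw [abs_lt] at hp1
  have e1 : |p.2.1 - 13| < 1 := by
    have : p.2.1 - 13 = (p.2.1 - (13 + y.2)) + y.2 := by ring
    rw [this]; exact lt_of_le_of_lt (abs_add_le _ _) (by linarith)
  have e2 : |p.2.2| < 1 := by
    have : p.2.2 = (p.2.2 - y.1) + y.1 := by ring
    rw [this]; exact lt_of_le_of_lt (abs_add_le _ _) (by linarith)
  rw [abs_lt] at e1 e2
  rcases le_total p.1 (-16) with h | h
  · left
    refine ⟨by linarith, h, ?_, ?_⟩ <;> rw [abs_le] <;> constructor <;> linarith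
  · right
    refine ⟨?_, ?_, ?_, ?_⟩ <;> simp only [sinv]
    · linarith
    · linarith
    · rw [abs_le]; constructor <;> linarith
    · rw [abs_le]; constructor <;> linarith

theorem base_2 {y : R2} (hy : ‖y‖ < 1) :
    KU ∪ (fun p => tau (sinv p)) ⁻¹' KT ∈ 𝓝 (sc (tau (io y))) := by
  rw [norm_lt_iff] at hy
  obtain ⟨h1, h2⟩ := hy
  have e : sc (tau (io y)) = (4, 13 + y.1, y.2) := by unfold sc tau io; ext <;> simp; norm_num
  rw [e]
  refine box_nhds (1 / 10) (1 - |y.1|) (1 - |y.2|) (by norm_num) (by linarith) (by linarith) ?_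
  intro p hp1 hp2 hp3
  simp only at hp1 hp2 hp3
  rw [abs_lt] at hp1
  have e1 : |p.2.1 - 13| < 1 := by
    have : p.2.1 - 13 = (p.2.1 - (13 + y.1)) + y.1 := by ring
    rw [this]; exact lt_of_le_of_lt (abs_add_le _ _) (by linarith)
  have e2 : |p.2.2| < 1 := by
    have : p.2.2 = (p.2.2 - y.2) + y.2 := by ring
    rw [this]; exact lt_of_le_of_lt (abs_add_le _ _) (by linarith)
  rw [abs_lt] at e1 e2
  rcases le_total 4 p.1 with h | h
  · left
    refine ⟨Or.inr (Or.inr ⟨h, by linarith, by linarith, by linarith⟩), ?_⟩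
    rw [abs_le]; constructor <;> linarith
  · right
    refine ⟨?_, ?_, ?_, ?_⟩ <;> simp only [sinv, tau]
    · linarith
    · linarith
    · rw [abs_le]; constructor <;> linarith
    · rw [abs_le]; constructor <;> linarith

end Sph9fe
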