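import Pool.Agent.Work.MP_9fe036_gt.Front

namespace Sph9fe

open Topology Filter Set

/-- the gadget set -/
def XX : Set R3 := ⋂ n, NN n

/-- the surface of one horn -/
def YL : Set R3 := ff '' Metric.closedBall 0 1

/-- the whole surface -/
def YY : Set R3 := YL ∪ tau ⁻¹' YL

theorem mem_YL {p : R3} : p ∈ YL ↔ ∃ x : R2, ‖x‖ ≤ 1 ∧ ff x = p := by
  unfold YL; simp

theorem YL_compact : IsCompact YL := (isCompact_closedBall _ _).image ff_cont

theorem YY_closed : IsClosed YY :=
  YL_compact.isClosed.union (YL_compact.isClosed.preimage tau_cont)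

theorem KT_closed : IsClosed KT := by
  have c1 : Continuous (fun p : R3 => p.1) := by fun_prop
  have c2 : Continuous (fun p : R3 => |p.2.1|) := by fun_prop
  have c3 : Continuous (fun p : R3 => |p.2.2|) := by fun_prop
  have c4 : Continuous (fun p : R3 => 4 + 11 * ((p.1 + 20) / 4)) := by fun_prop
  exact (isClosed_le continuous_const c1).inter ((isClosed_le c1 continuous_const).inter
      ((isClosed_le c2 c4).inter (isClosed_le c3 continuous_const)))

theorem KU_closed : IsClosed KU := by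
  have c1 : Continuous (fun p : R3 => p.1) := by fun_prop
  have c2 : Continuous (fun p : R3 => p.2.1) := by fun_prop
  have c3 : Continuous (fun p : R3 => |p.2.2|) := by fun_prop
  have hs : IsClosed {p : R3 | Strip p.1 p.2.1} := by
    have hb : ∀ a b c d : ℝ, IsClosed {p : R3 | a ≤ p.1 ∧ p.1 ≤ b ∧ c ≤ p.2.1 ∧ p.2.1 ≤ d} :=
      fun a b c d => (isClosed_le continuous_const c1).inter
        ((isClosed_le c1 continuous_const).inter ((isClosed_le continuous_const c2).inter
          (isClosed_le c2 continuous_const)))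
    exact (hb _ _ _ _).union ((hb _ _ _ _).union (hb _ _ _ _))
  exact hs.inter (isClosed_le c3 continuous_const)

theorem KL_closed : IsClosed KL := KT_closed.union KU_closed

theorem KK_closed : IsClosed KK := KL_closed.union (KL_closed.preimage tau_cont)

theorem st_cont : Continuous (fun p => sinv (tau p)) := sinv_cont.comp tau_cont

theorem BB_closed' : IsClosed BB := by
  have c1 : Continuous (fun u : R3 => |u.1|) := by fun_prop
  have c2 : Continuous (fun u : R3 => |u.2.1|) := by fun_prop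
  have c3 : Continuous (fun u : R3 => |u.2.2|) := by fun_prop
  exact (isClosed_le c1 continuous_const).inter
    ((isClosed_le c2 continuous_const).inter (isClosed_le c3 continuous_const))

theorem NN_closed (n : ℕ) : IsClosed (NN n) := by
  induction n with
  | zero => exact BB_closed'
  | succ n ih => exact (KK_closed.union (ih.preimage sinv_cont)).union (ih.preimage st_cont)

theorem XX_closed : IsClosed XX := isClosed_iInter NN_closed

theorem KL_BB {p : R3} (h : p ∈ KL) : p ∈ BB := h.elim KT_BB KU_BB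

theorem KK_BB {p : R3} (h : p ∈ KK) : p ∈ BB := h.elim KL_BB (fun h => tau_BB.1 (KL_BB h))

theorem NN_succ_sub (n : ℕ) : NN (n + 1) ⊆ NN n := by
  induction n with
  | zero =>
    rintro p ((h | h) | h)
    · exact KK_BB h
    · exact C1_BB h
    · exact tau_BB.1 (C1_BB h)
  | succ n ih =>
    rintro p ((h | h) | h)
    · exact Or.inl (Or.inl h)
    · exact Or.inl (Or.inr (ih h))
    · exact Or.inr (ih h)

theorem NN_anti : Antitone NN := antitone_nat_of_succ_le NN_succ_sub

theorem NN_sub_BB (n : ℕ) : NN n ⊆ BB := NN_anti (Nat.zero_le n)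

theorem XX_sub_BB : XX ⊆ BB := fun _ hp => mem_iInter.1 hp 0

theorem KK_sub_XX : KK ⊆ XX := by
  intro p hp
  refine mem_iInter.2 fun n => ?_
  cases n with
  | zero => exact KK_BB hp
  | succ n => exact KK_sub_NN n hp

theorem KT_sub_XX {p : R3} (h : p ∈ KT) : p ∈ XX := KK_sub_XX (Or.inl (Or.inl h))
theorem KU_sub_XX {p : R3} (h : p ∈ KU) : p ∈ XX := KK_sub_XX (Or.inl (Or.inr h))

theorem sinv_XX {p : R3} (h : sinv p ∈ XX) : p ∈ XX := by
  refine mem_iInter.2 fun n => ?_
  cases n with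
  | zero => exact C1_BB (XX_sub_BB h)
  | succ n => exact Or.inl (Or.inr (mem_iInter.1 h n))

theorem tau_NN {n : ℕ} {p : R3} : tau p ∈ NN n ↔ p ∈ NN n := by
  have h : ∀ p : R3, p ∈ NN n → tau p ∈ NN n := by
    intro p hp
    cases n with
    | zero => exact tau_BB.2 hp
    | succ n =>
      rcases hp with (hp | hp) | hp
      · left; left
        rcases hp with hp | hp
        · right; show tau (tau p) ∈ KL; rw [tau_tau]; exact hp
        · left; exact hp
      · right; show sinv (tau (tau p)) ∈ NN n; rw [tau_tau]; exact hp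
      · left; right; exact hp
  exact ⟨fun hp => by have := h _ hp; rwa [tau_tau] at this, h p⟩

theorem tau_XX {p : R3} : tau p ∈ XX ↔ p ∈ XX := by
  unfold XX
  simp only [mem_iInter, tau_NN]

theorem tau_YY {p : R3} : tau p ∈ YY ↔ p ∈ YY := by
  unfold YY
  simp only [mem_union, mem_preimage, tau_tau]
  exact or_comm

/-- `YY` is stable under `sc` -/
theorem sc_YY {p : R3} (h : p ∈ YY) : sc p ∈ YY := by
  rcases h with h | h
  · obtain ⟨x, hx, rfl⟩ := mem_YL.1 h
    left
    refine mem_YL.2 ⟨((13 + x.2) / 30, x.1 / 8), ?_, ?_⟩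
    · rw [norm_le_iff] at hx ⊢
      simp only [abs_le] at hx ⊢
      refine ⟨⟨?_, ?_⟩, ?_, ?_⟩ <;> linarith [hx.1.1, hx.1.2, hx.2.1, hx.2.2]
    · have e : q1 ((13 + x.2) / 30, x.1 / 8) = x := by
        unfold q1; ext <;> simp only <;> ring
      rw [ff_q1 (by rw [e]; exact hx), e]
  · obtain ⟨x, hx, hxp⟩ := mem_YL.1 h
    left
    refine mem_YL.2 ⟨((-13 - x.1 / 2) / 30, x.2 / 16), ?_, ?_⟩
    · rw [norm_le_iff] at hx ⊢
      simp only [abs_le] at hx ⊢
      refine ⟨⟨?_, ?_⟩, ?_, ?_⟩ <;> linarith [hx.1.1, hx.1.2, hx.2.1, hx.2.2]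
    · have e : q2 ((-13 - x.1 / 2) / 30, x.2 / 16) = x := by
        unfold q2; ext <;> simp only <;> ring
      rw [ff_q2 (by rw [e]; exact hx), e, hxp, tau_tau]

/-- conclusion for points of `XX` off the surface -/
def Good (p : R3) : Prop :=
  XX ∈ 𝓝 p ∨ (∃ y : R2, ‖y‖ < 1 ∧ p = io y) ∨ (∃ y : R2, ‖y‖ < 1 ∧ tau p = io y)

theorem Good_tau {p : R3} (h : Good (tau p)) : Good p := by
  rcases h with h | ⟨y, hy, h⟩ | ⟨y, hy, h⟩
  · left
    have h1 : tau ⁻¹' XX ∈ 𝓝 p := tau_cont.continuousAt.preimage_mem_nhds h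
    have h2 : tau ⁻¹' XX = XX := by ext q; exact tau_XX
    rwa [h2] at h1
  · exact Or.inr (Or.inr ⟨y, hy, h⟩)
  · exact Or.inr (Or.inl ⟨y, hy, by rw [tau_tau] at h; exact h⟩)

/-- site of the first child -/
theorem XX_site1 {y : R2} (hy : ‖y‖ < 1) : XX ∈ 𝓝 (sc (io y)) := by
  refine mem_of_superset (base_1 hy) ?_
  rintro p (hp | hp)
  · exact KT_sub_XX hp
  · exact sinv_XX (KT_sub_XX hp)

theorem XX_site2 {y : R2} (hy : ‖y‖ < 1) : XX ∈ 𝓝 (sc (tau (io y))) := by
  refine mem_of_superset (base_2 hy) ?_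
  rintro p (hp | hp)
  · exact KU_sub_XX hp
  · exact sinv_XX (tau_XX.1 (KT_sub_XX hp))

theorem q0_of {y : R2} : q0 ((y.1 - 13) / 30, y.2 / 8) = y := by
  unfold q0; ext <;> simp only <;> ring

theorem q1_of {y : R2} : q1 ((13 + y.2) / 30, y.1 / 8) = y := by
  unfold q1; ext <;> simp only <;> ring

/-- points of the first stage solid -/
theorem KL_good {p : R3} (hp : p ∈ KL) (hpY : p ∉ YY) : Good p := by
  have hYL : ∀ x : R2, ‖x‖ ≤ 1 → ff x ≠ p := fun x hx h => hpY (Or.inl (mem_YL.2 ⟨x, hx, h⟩))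
  rcases hp with hp | hp
  · obtain ⟨θ, y, h0, h1, hy, rfl⟩ := KT_surj hp
    by_cases hsurf : θ = 1 ∨ ‖y‖ = 1
    · obtain ⟨hx, hxe⟩ := lathe_surj ΨT h0 h1 hy hsurf
      set x := (1 - θ / 2) • y with hxdef
      rcases cases4 x with h | h | h | h
      · exact absurd ((ff_T h.1 h.2).trans hxe) (hYL x hx)
      · left
        rw [← hxe, lathe_T_flat (norm_of_q0 h.1.le)]
        have e : ((-16, 30 * x.1, 8 * x.2) : R3) = ΨU 0 (q0 x) := by
          rw [ΨU_zero]; unfold q0; ext <;> simp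
        rw [e]
        refine mem_of_superset (base_U h.1) ?_
        rintro q (hq | hq)
        · exact KT_sub_XX hq
        · exact KU_sub_XX hq
      · left
        rw [← hxe, lathe_T_flat (norm_of_q1 h.le)]
        have e : ((-16, 30 * x.1, 8 * x.2) : R3) = sc (io (q1 x)) := by
          unfold sc io q1; ext <;> simp; norm_num
        rw [e]; exact XX_site1 h
      · left
        have h0' := q0_of_q2 h.le
        rw [← hxe, lathe_T_flat (norm_of_q0 (by linarith))]
        have e : ((-16, 30 * x.1, 8 * x.2) : R3) = ΨU 0 (q0 x) := by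
          rw [ΨU_zero]; unfold q0; ext <;> simp
        rw [e]
        refine mem_of_superset (base_U (lt_of_le_of_lt h0' (by norm_num))) ?_
        rintro q (hq | hq)
        · exact KT_sub_XX hq
        · exact KU_sub_XX hq
    · push Not at hsurf
      have hy1 : ‖y‖ < 1 := lt_of_le_of_ne hy hsurf.2
      have h11 : θ < 1 := lt_of_le_of_ne h1 hsurf.1
      rcases h0.eq_or_lt with h00 | h00
      · right; left
        exact ⟨y, hy1, by rw [← h00, ΨT_zero]⟩
      · left
        exact mem_of_superset (KT_nhds h00 h11 hy1) (fun q hq => KT_sub_XX hq)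
  · obtain ⟨θ, y, h0, h1, hy, rfl⟩ := KU_surj hp
    by_cases hsurf : θ = 1 ∨ ‖y‖ = 1
    · obtain ⟨hz, hze⟩ := lathe_surj ΨU h0 h1 hy hsurf
      set z := (1 - θ / 2) • y with hzdef
      set x : R2 := ((z.1 - 13) / 30, z.2 / 8) with hxdef
      have hq0 : q0 x = z := q0_of
      have hx : ‖x‖ ≤ 1 := (norm_of_q0 (by rw [hq0]; exact hz)).trans (by norm_num)
      rcases lt_or_ge ‖q2 x‖ 1 with h | h
      · left
        have h0' := q0_of_q2 h.le
        rw [← hze, ← hq0, lathe_le _ h0', ΨU_one]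
        have e : ((4, 13 - ((2 : ℝ) • q0 x).1, ((2 : ℝ) • q0 x).2) : R3) = sc (tau (io (q2 x))) := by
          unfold sc tau io q2 q0; ext <;> simp <;> ring
        rw [e]; exact XX_site2 h
      · exact absurd ((ff_U (by rw [hq0]; exact hz) h).trans (by rw [hq0, hze])) (hYL x hx)
    · push Not at hsurf
      have hy1 : ‖y‖ < 1 := lt_of_le_of_ne hy hsurf.2
      have h11 : θ < 1 := lt_of_le_of_ne h1 hsurf.1
      left
      rcases h0.eq_or_lt with h00 | h00
      · rw [← h00]
        refine mem_of_superset (base_U hy1) ?_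
        rintro q (hq | hq)
        · exact KT_sub_XX hq
        · exact KU_sub_XX hq
      · exact mem_of_superset (KU_nhds h00 h11 hy1) (fun q hq => KU_sub_XX hq)

/-- cubes of level `n` -/
def CU : ℕ → Set R3
  | 0 => BB
  | (n + 1) => sinv ⁻¹' (CU n) ∪ (fun p => sinv (tau p)) ⁻¹' (CU n)

theorem CU_near (n : ℕ) : ∀ x ∈ CU n, ∃ y ∈ YY, ‖x - y‖ ≤ 40 * (1 / 2) ^ n := by
  induction n with
  | zero =>
    intro x hx
    refine ⟨ff 0, Or.inl (mem_YL.2 ⟨0, by simp, rfl⟩), ?_⟩
    have h1 := mem_BB.1 hx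
    have h2 := mem_BB.1 (ff_BB (x := 0) (by simp))
    calc ‖x - ff 0‖ ≤ ‖x‖ + ‖ff 0‖ := norm_sub_le _ _
      _ ≤ 40 * (1 / 2) ^ 0 := by norm_num; linarith
  | succ n ih =>
    have key : ∀ x, sinv x ∈ CU n → ∃ y ∈ YY, ‖x - y‖ ≤ 40 * (1 / 2) ^ (n + 1) := by
      intro x hx
      obtain ⟨y, hy, hxy⟩ := ih _ hx
      refine ⟨sc y, sc_YY hy, ?_⟩
      have e : x - sc y = Lc (sinv x - y) := by
        have := sc_eq (sinv x) y
        rw [sc_sinv] at this
        rw [sub_eq_iff_eq_add, add_comm]; exact this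
      rw [e]
      calc ‖Lc (sinv x - y)‖ ≤ ‖sinv x - y‖ / 2 := Lc_norm _
        _ ≤ 40 * (1 / 2) ^ n / 2 := by linarith
        _ = _ := by ring
    rintro x (hx | hx)
    · exact key x hx
    · obtain ⟨y, hy, hxy⟩ := key (tau x) hx
      refine ⟨tau y, tau_YY.2 hy, ?_⟩
      have : x - tau y = tau (tau x - y) := by
        unfold tau; ext <;> simp <;> ring
      rw [this, tau_norm]; exact hxy

theorem XX_cases {x : R3} (hx : x ∈ XX) : x ∈ KK ∨ sinv x ∈ XX ∨ sinv (tau x) ∈ XX := by
  by_contra hcon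
  push Not at hcon
  obtain ⟨h1, h2, h3⟩ := hcon
  unfold XX at h2 h3
  simp only [mem_iInter, not_forall] at h2 h3
  obtain ⟨n, hn⟩ := h2
  obtain ⟨m, hm⟩ := h3
  rcases mem_iInter.1 hx (max n m + 1) with (h | h) | h
  · exact h1 h
  · exact hn (NN_anti (le_max_left n m) h)
  · exact hm (NN_anti (le_max_right n m) h)

theorem good_aux (n : ℕ) : ∀ x ∈ XX, x ∉ YY → x ∉ CU n → Good x := by
  induction n with
  | zero => intro x hx _ h; exact absurd (XX_sub_BB hx) h
  | succ n ih =>
    have key : ∀ x, sinv x ∈ XX → x ∉ YY → x ∉ CU (n + 1) → Good x := by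
      intro x hx hxY hxC
      have h1 : sinv x ∉ YY := fun h => hxY (by have := sc_YY h; rwa [sc_sinv] at this)
      have h2 : sinv x ∉ CU n := fun h => hxC (Or.inl h)
      rcases ih _ hx h1 h2 with h | ⟨y, hy, h⟩ | ⟨y, hy, h⟩
      · left
        have : sinv ⁻¹' XX ∈ 𝓝 x := sinv_cont.continuousAt.preimage_mem_nhds h
        exact mem_of_superset this (fun q hq => sinv_XX hq)
      · left
        have : x = sc (io y) := by rw [← h, sc_sinv]
        rw [this]; exact XX_site1 hy
      · left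
        have : x = sc (tau (io y)) := by rw [← h, tau_tau, sc_sinv]
        rw [this]; exact XX_site2 hy
    intro x hx hxY hxC
    rcases XX_cases hx with h | h | h
    · rcases h with h | h
      · exact KL_good h hxY
      · exact Good_tau (KL_good h (fun hY => hxY (tau_YY.1 hY)))
    · exact key x h hxY hxC
    · refine Good_tau (key (tau x) h (fun hY => hxY (tau_YY.1 hY)) ?_)
      intro hC
      apply hxC
      rcases hC with hC | hC
      · exact Or.inr hC
      · left
        have : sinv (tau (tau x)) ∈ CU n := hC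
        rwa [tau_tau] at this

/-- the boundary of the gadget set lies on the surface, up to the end faces -/
theorem XX_good {x : R3} (hx : x ∈ XX) (hxY : x ∉ YY) : Good x := by
  by_contra hcon
  have hall : ∀ n, x ∈ CU n := by
    intro n; by_contra h; exact hcon (good_aux n x hx hxY h)
  apply hxY
  rw [← YY_closed.closure_eq, Metric.mem_closure_iff]
  intro ε hε
  obtain ⟨n, hn⟩ := exists_pow_lt_of_lt_one (show 0 < ε / 40 by positivity)
    (show (1 / 2 : ℝ) < 1 by norm_num)
  obtain ⟨y, hy, hxy⟩ := CU_near n x (hall n)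
  refine ⟨y, hy, ?_⟩
  rw [dist_eq_norm]
  linarith

/-! ### connectedness -/

theorem KT_preconn : IsPreconnected KT := by
  have : KT = (fun q : ℝ × R2 => ΨT q.1 q.2) '' (Icc 0 1 ×ˢ Metric.closedBall 0 1) := by
    ext p
    constructor
    · intro hp
      obtain ⟨θ, y, h0, h1, hy, rfl⟩ := KT_surj hp
      exact ⟨(θ, y), ⟨⟨h0, h1⟩, by simpa using hy⟩, rfl⟩
    · rintro ⟨⟨θ, y⟩, ⟨⟨h0, h1⟩, hy⟩, rfl⟩
      exact ΨT_mem h0 h1 (by simpa using hy)
  rw [this]
  exact (isPreconnected_Icc.prod (convex_closedBall _ _).isPreconnected).image _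
    ΨT_cont.continuousOn

theorem KU_preconn : IsPreconnected KU := by
  have : KU = (fun q : ℝ × R2 => ΨU q.1 q.2) '' (Icc 0 1 ×ˢ Metric.closedBall 0 1) := by
    ext p
    constructor
    · intro hp
      obtain ⟨θ, y, h0, h1, hy, rfl⟩ := KU_surj hp
      exact ⟨(θ, y), ⟨⟨h0, h1⟩, by simpa using hy⟩, rfl⟩
    · rintro ⟨⟨θ, y⟩, ⟨⟨h0, h1⟩, hy⟩, rfl⟩
      exact ΨU_mem h0 h1 (by simpa using hy)
  rw [this]
  exact (isPreconnected_Icc.prod (convex_closedBall _ _).isPreconnected).image _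
    ΨU_cont.continuousOn

theorem KL_preconn : IsPreconnected KL := by
  refine IsPreconnected.union (-16, -13, 0) ?_ ?_ KT_preconn KU_preconn
  · refine ⟨?_, ?_, ?_, ?_⟩ <;> norm_num
  · refine ⟨Or.inl ⟨?_, ?_, ?_, ?_⟩, ?_⟩ <;> norm_num

theorem tau_KL_preconn : IsPreconnected (tau ⁻¹' KL) := by
  have : tau ⁻¹' KL = tau '' KL := by
    ext p
    constructor
    · intro hp; exact ⟨tau p, hp, tau_tau p⟩
    · rintro ⟨q, hq, rfl⟩; show tau (tau q) ∈ KL; rw [tau_tau]; exact hq
  rw [this]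
  exact KL_preconn.image _ tau_cont.continuousOn

theorem NN_preconn (n : ℕ) : ∀ C : Set R3, IsPreconnected C → (-20, 0, 0) ∈ C → (20, 0, 0) ∈ C →
    IsPreconnected (C ∪ NN n) := by
  induction n with
  | zero =>
    intro C hC h1 h2
    refine hC.union (-20, 0, 0) h1 ?_ ?_
    · show _ ∈ BB
      simp [BB]
    · have : (NN 0) = Metric.closedBall (0 : R3) 20 := by
        ext p; rw [mem_closedBall_zero_iff, ← mem_BB]; rfl
      rw [this]
      exact (convex_closedBall _ _).isPreconnected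
  | succ n ih =>
    -- adding a child
    have key : ∀ (s si : R3 → R3), Continuous s → Continuous si → (∀ p, s (si p) = p) →
        (∀ p, si (s p) = p) → ∀ C : Set R3, IsPreconnected C → s (-20, 0, 0) ∈ C →
        s (20, 0, 0) ∈ C → IsPreconnected (C ∪ si ⁻¹' (NN n)) := by
      intro s si hs hsi h12 h21 C hC h1 h2
      have hC' : IsPreconnected (si '' C) := hC.image _ hsi.continuousOn
      have := (ih (si '' C) hC' ⟨_, h1, h21 _⟩ ⟨_, h2, h21 _⟩).image s hs.continuousOn
      have e : s '' (si '' C ∪ NN n) = C ∪ si ⁻¹' (NN n) := by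
        ext p
        constructor
        · rintro ⟨q, hq | hq, rfl⟩
          · obtain ⟨r, hr, rfl⟩ := hq
            left; rw [h12]; exact hr
          · right; show si (s q) ∈ NN n; rw [h21]; exact hq
        · rintro (hp | hp)
          · exact ⟨si p, Or.inl ⟨p, hp, rfl⟩, h12 p⟩
          · exact ⟨si p, Or.inr hp, h12 p⟩
      rwa [e] at this
    intro C hC h1 h2
    have hKL1 : ((-20, 0, 0) : R3) ∈ KL := by
      left; refine ⟨?_, ?_, ?_, ?_⟩ <;> norm_num
    have hKL2 : ((20, 0, 0) : R3) ∈ tau ⁻¹' KL := by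
      show tau (20, 0, 0) ∈ KL
      left; refine ⟨?_, ?_, ?_, ?_⟩ <;> simp only [tau] <;> norm_num
    have c1 : IsPreconnected (C ∪ KL) := hC.union _ h1 hKL1 KL_preconn
    have c2 : IsPreconnected (C ∪ KL ∪ tau ⁻¹' KL) :=
      c1.union _ (Or.inl h2) hKL2 tau_KL_preconn
    have m1 : sc (-20, 0, 0) ∈ KL := by
      left; refine ⟨?_, ?_, ?_, ?_⟩ <;> simp only [sc] <;> norm_num
    have m2 : sc (20, 0, 0) ∈ KL := by
      right; refine ⟨Or.inr (Or.inr ⟨?_, ?_, ?_, ?_⟩), ?_⟩ <;> simp only [sc] <;> norm_num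
    have c3 := key sc sinv sc_cont sinv_cont sc_sinv sinv_sc _ c2 (Or.inl (Or.inr m1))
      (Or.inl (Or.inr m2))
    have c4 := key (fun p => tau (sc p)) (fun p => sinv (tau p)) (tau_cont.comp sc_cont) st_cont
      (fun p => by simp [sc_sinv, tau_tau]) (fun p => by simp [sinv_sc, tau_tau]) _ c3
      (Or.inl (Or.inr (by show tau (tau (sc _)) ∈ KL; rw [tau_tau]; exact m1)))
      (Or.inl (Or.inr (by show tau (tau (sc _)) ∈ KL; rw [tau_tau]; exact m2)))
    have e : C ∪ NN (n + 1) = C ∪ KL ∪ tau ⁻¹' KL ∪ sinv ⁻¹' (NN n) ∪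
        (fun p => sinv (tau p)) ⁻¹' (NN n) := by
      show C ∪ (KL ∪ tau ⁻¹' KL ∪ _ ∪ _) = _
      ext p; simp only [mem_union]; tauto
    rw [e]; exact c4

end Sph9fe
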