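import Mathlib

namespace Sph9fe

open Topology Filter Set

abbrev R3 := ℝ × ℝ × ℝ

/-- the symmetry exchanging the two horns -/
def tau (p : R3) : R3 := (-p.1, p.2.2, p.2.1)

/-- the similarity onto the first child box -/
noncomputable def sc (p : R3) : R3 := (-6 + p.1 / 2, 13 + p.2.2 / 4, p.2.1 / 4)

/-- its inverse -/
def sinv (p : R3) : R3 := (2 * (p.1 + 6), 4 * p.2.2, 4 * (p.2.1 - 13))

theorem tau_tau (p : R3) : tau (tau p) = p := by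
  simp [tau]

theorem sinv_sc (p : R3) : sinv (sc p) = p := by
  ext <;> simp [sinv, sc] <;> ring

theorem sc_sinv (p : R3) : sc (sinv p) = p := by
  ext <;> simp [sinv, sc] <;> ring

theorem tau_cont : Continuous tau := by unfold tau; fun_prop
theorem sc_cont : Continuous sc := by unfold sc; fun_prop
theorem sinv_cont : Continuous sinv := by unfold sinv; fun_prop

/-- the frustum -/
def KT : Set R3 := {p | -20 ≤ p.1 ∧ p.1 ≤ -16 ∧ |p.2.1| ≤ 4 + 11 * ((p.1 + 20) / 4) ∧ |p.2.2| ≤ 4}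

/-- the planar strip of the tube -/
def Strip (x y : ℝ) : Prop :=
  (-16 ≤ x ∧ x ≤ 7 ∧ -14 ≤ y ∧ y ≤ -12) ∨ (5 ≤ x ∧ x ≤ 7 ∧ -14 ≤ y ∧ y ≤ 14) ∨
    (4 ≤ x ∧ x ≤ 7 ∧ 12 ≤ y ∧ y ≤ 14)

/-- the tube -/
def KU : Set R3 := {p | Strip p.1 p.2.1 ∧ |p.2.2| ≤ 1}

def KL : Set R3 := KT ∪ KU

/-- the solid of the first stage -/
def KK : Set R3 := KL ∪ tau ⁻¹' KL

/-- the box -/
def BB : Set R3 := {p | |p.1| ≤ 20 ∧ |p.2.1| ≤ 20 ∧ |p.2.2| ≤ 20}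

/-- the interior of the box -/
def BBo : Set R3 := {p | |p.1| < 20 ∧ |p.2.1| < 20 ∧ |p.2.2| < 20}

/-- the stages -/
def NN : ℕ → Set R3
  | 0 => BB
  | (n + 1) => KK ∪ sinv ⁻¹' (NN n) ∪ (fun p => sinv (tau p)) ⁻¹' (NN n)

theorem KK_sub_NN (n : ℕ) : KK ⊆ NN (n + 1) := fun _ hp => Or.inl (Or.inl hp)

end Sph9fe
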