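import Pool.Agent.Work.MP_9fe036_gt.Core
import Pool.Agent.Work.MP_9fe036_gt.Geo

namespace Sph9fe

open Topology Filter Set

section
variable {G : Type*} [Group G]

open Classical in
/-- step function -/
noncomputable def step (l : G) (a : ℝ) : G := if a < 0 then 1 else l

/-- the cocycle given by the labels `Y` of the plane `y = 0` and `Z` of the plane `z = 0` -/
noncomputable def wall (Y Z : ℝ → ℝ → G) (u v : R3) : G :=
  (step (Y u.1 u.2.2) u.2.1)⁻¹ * step (Y u.1 u.2.2) v.2.1 *
    ((step (Z v.1 v.2.1) u.2.2)⁻¹ * step (Z v.1 v.2.1) v.2.2)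

/-- local triviality at a point -/
def LTat {X : Type*} [TopologicalSpace X] (h : X → X → G) (p : X) : Prop :=
  ∃ σ : X → G, ∀ᶠ q in 𝓝 (p, p), h q.1 q.2 = (σ q.1)⁻¹ * σ q.2

theorem LTat.congr {X : Type*} [TopologicalSpace X] {h h' : X → X → G} {p : X} (hp : LTat h p)
    (he : ∀ᶠ q in 𝓝 (p, p), h' q.1 q.2 = h q.1 q.2) : LTat h' p := by
  obtain ⟨σ, hσ⟩ := hp
  exact ⟨σ, by filter_upwards [hσ, he] with q h1 h2; rw [h2, h1]⟩

theorem LTat.comp {X Y : Type*} [TopologicalSpace X] [TopologicalSpace Y] {h : X → X → G}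
    {F : Y → X} (hF : Continuous F) {p : Y} (hp : LTat h (F p)) :
    LTat (fun a b => h (F a) (F b)) p := by
  obtain ⟨σ, hσ⟩ := hp
  refine ⟨fun a => σ (F a), ?_⟩
  have hc : Continuous (fun q : Y × Y => (F q.1, F q.2)) := by fun_prop
  exact (hc.tendsto (p, p)).eventually hσ

theorem step_same {l : G} {a b : ℝ} (h : a < 0 ↔ b < 0) : (step l a)⁻¹ * step l b = 1 := by
  unfold step
  by_cases ha : a < 0
  · rw [if_pos ha, if_pos (h.1 ha)]; simp
  · rw [if_neg ha, if_neg (fun hb => ha (h.2 hb))]; simp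

/-- eventually, pairs have both coordinates near -/
theorem ev_pair {X : Type*} [TopologicalSpace X] {p : X} {P : X → Prop} (h : ∀ᶠ x in 𝓝 p, P x) :
    ∀ᶠ q in 𝓝 (p, p), P q.1 ∧ P q.2 := by
  rw [nhds_prod_eq]
  exact Filter.Eventually.and (Filter.tendsto_fst.eventually h) (Filter.tendsto_snd.eventually h)

theorem ev_y_sign {p : R3} (hp : p.2.1 ≠ 0) : ∀ᶠ u in 𝓝 p, (u.2.1 < 0 ↔ p.2.1 < 0) := by
  have c : Continuous (fun u : R3 => u.2.1) := by fun_prop
  rcases lt_or_gt_of_ne hp with h | h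
  · filter_upwards [(isOpen_lt c continuous_const).mem_nhds h] with u hu
    exact ⟨fun _ => h, fun _ => hu⟩
  · filter_upwards [(isOpen_lt continuous_const c).mem_nhds h] with u hu
    exact ⟨fun h' => absurd h' (not_lt.2 (le_of_lt hu)), fun h' => absurd h' (not_lt.2 h.le)⟩

theorem ev_z_sign {p : R3} (hp : p.2.2 ≠ 0) : ∀ᶠ u in 𝓝 p, (u.2.2 < 0 ↔ p.2.2 < 0) := by
  have c : Continuous (fun u : R3 => u.2.2) := by fun_prop
  rcases lt_or_gt_of_ne hp with h | h
  · filter_upwards [(isOpen_lt c continuous_const).mem_nhds h] with u hu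
    exact ⟨fun _ => h, fun _ => hu⟩
  · filter_upwards [(isOpen_lt continuous_const c).mem_nhds h] with u hu
    exact ⟨fun h' => absurd h' (not_lt.2 (le_of_lt hu)), fun h' => absurd h' (not_lt.2 h.le)⟩

/-- away from the plane `z = 0`, with locally constant `Y` -/
theorem wall_z (Y Z : ℝ → ℝ → G) {p : R3} (hz : p.2.2 ≠ 0) (l : G)
    (hY : p.2.1 = 0 → ∀ᶠ u : R3 in 𝓝 p, Y u.1 u.2.2 = l) :
    ∀ᶠ q in 𝓝 (p, p), wall Y Z q.1 q.2 = (step l q.1.2.1)⁻¹ * step l q.2.2.1 := by
  have h1 := ev_pair (ev_z_sign hz)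
  by_cases hy : p.2.1 = 0
  · filter_upwards [h1, ev_pair (hY hy)] with q hq hq2
    unfold wall
    rw [step_same (a := q.1.2.2) (b := q.2.2.2) (hq.1.trans hq.2.symm), hq2.1, mul_one]
  · filter_upwards [h1, ev_pair (ev_y_sign hy)] with q hq hq2
    unfold wall
    rw [step_same (a := q.1.2.2) (b := q.2.2.2) (hq.1.trans hq.2.symm),
      step_same (a := q.1.2.1) (b := q.2.2.1) (hq2.1.trans hq2.2.symm),
      step_same (a := q.1.2.1) (b := q.2.2.1) (hq2.1.trans hq2.2.symm), mul_one]

/-- away from the plane `y = 0`, with locally constant `Z` -/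
theorem wall_y (Y Z : ℝ → ℝ → G) {p : R3} (hy : p.2.1 ≠ 0) (l : G)
    (hZ : p.2.2 = 0 → ∀ᶠ u : R3 in 𝓝 p, Z u.1 u.2.1 = l) :
    ∀ᶠ q in 𝓝 (p, p), wall Y Z q.1 q.2 = (step l q.1.2.2)⁻¹ * step l q.2.2.2 := by
  have h1 := ev_pair (ev_y_sign hy)
  by_cases hz : p.2.2 = 0
  · filter_upwards [h1, ev_pair (hZ hz)] with q hq hq2
    unfold wall
    rw [step_same (a := q.1.2.1) (b := q.2.2.1) (hq.1.trans hq.2.symm), hq2.2, one_mul]
  · filter_upwards [h1, ev_pair (ev_z_sign hz)] with q hq hq2
    unfold wall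
    rw [step_same (a := q.1.2.1) (b := q.2.2.1) (hq.1.trans hq.2.symm),
      step_same (a := q.1.2.2) (b := q.2.2.2) (hq2.1.trans hq2.2.symm),
      step_same (a := q.1.2.2) (b := q.2.2.2) (hq2.1.trans hq2.2.symm), mul_one]

/-- on the axis -/
theorem wall_axis (Y Z : ℝ → ℝ → G) {p : R3} (ym yp zm zp : G)
    (hY : ∀ᶠ u : R3 in 𝓝 p, Y u.1 u.2.2 = if u.2.2 < 0 then ym else yp)
    (hZ : ∀ᶠ u : R3 in 𝓝 p, Z u.1 u.2.1 = if u.2.1 < 0 then zm else zp)
    (hrel : ym * zp = zm * yp) : LTat (wall Y Z) p := by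
  have hzp : zp = ym⁻¹ * zm * yp := by rw [mul_assoc, ← hrel]; group
  subst hzp
  refine ⟨fun u => if u.2.1 < 0 then (if u.2.2 < 0 then 1 else zm) else
    (if u.2.2 < 0 then ym else zm * yp), ?_⟩
  filter_upwards [ev_pair hY, ev_pair hZ] with q hq hq2
  unfold wall step
  rw [hq.1, hq2.2]
  by_cases a1 : q.1.2.1 < 0 <;> by_cases a2 : q.1.2.2 < 0 <;> by_cases b1 : q.2.2.1 < 0 <;>
    by_cases b2 : q.2.2.2 < 0 <;> simp only [a1, a2, b1, b2, if_true, if_false] <;> group

open Classical in
/-- labels of the standard rod -/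
noncomputable def Ystd (g : G) (_x z : ℝ) : G := if z < 0 then g else 1

/-- standard cocycle around a rod with label `g` -/
noncomputable def std (g : G) (u v : R3) : G :=
  (step (Ystd g u.1 u.2.2) u.2.1)⁻¹ * step (Ystd g u.1 u.2.2) v.2.1

theorem std_eq_wall (g : G) (u v : R3) : std g u v = wall (Ystd g) (fun _ _ => 1) u v := by
  unfold std wall step
  simp

open Classical in
noncomputable def Y1 (g b : G) (x z : ℝ) : G :=
  if x ≤ -6 ∨ 16 ≤ x then (if z < 0 then g else 1) else
    (if z < -13 then g else if z < 13 then b else 1)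

open Classical in
noncomputable def Z1 (a b : G) (x y : ℝ) : G :=
  if -16 < x ∧ x < 6 then (if y < -13 then 1 else if y < 0 then a else if y < 13 then b else 1)
  else 1

/-- eventually near `p`, inequalities are preserved -/
theorem ev_lt_x {p : R3} {c : ℝ} (h : p.1 < c) : ∀ᶠ u : R3 in 𝓝 p, u.1 < c :=
  (isOpen_lt (by fun_prop : Continuous (fun u : R3 => u.1)) continuous_const).mem_nhds h
theorem ev_gt_x {p : R3} {c : ℝ} (h : c < p.1) : ∀ᶠ u : R3 in 𝓝 p, c < u.1 :=
  (isOpen_lt continuous_const (by fun_prop : Continuous (fun u : R3 => u.1))).mem_nhds h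
theorem ev_lt_y {p : R3} {c : ℝ} (h : p.2.1 < c) : ∀ᶠ u : R3 in 𝓝 p, u.2.1 < c :=
  (isOpen_lt (by fun_prop : Continuous (fun u : R3 => u.2.1)) continuous_const).mem_nhds h
theorem ev_gt_y {p : R3} {c : ℝ} (h : c < p.2.1) : ∀ᶠ u : R3 in 𝓝 p, c < u.2.1 :=
  (isOpen_lt continuous_const (by fun_prop : Continuous (fun u : R3 => u.2.1))).mem_nhds h
theorem ev_lt_z {p : R3} {c : ℝ} (h : p.2.2 < c) : ∀ᶠ u : R3 in 𝓝 p, u.2.2 < c :=
  (isOpen_lt (by fun_prop : Continuous (fun u : R3 => u.2.2)) continuous_const).mem_nhds h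
theorem ev_gt_z {p : R3} {c : ℝ} (h : c < p.2.2) : ∀ᶠ u : R3 in 𝓝 p, c < u.2.2 :=
  (isOpen_lt continuous_const (by fun_prop : Continuous (fun u : R3 => u.2.2))).mem_nhds h

theorem tau_mem_KT {p : R3} : tau p ∈ KT ↔ (16 ≤ p.1 ∧ p.1 ≤ 20 ∧
    |p.2.2| ≤ 4 + 11 * ((20 - p.1) / 4) ∧ |p.2.1| ≤ 4) := by
  simp only [KT, tau, mem_ofPred_eq]
  constructor
  · rintro ⟨h1, h2, h3, h4⟩
    refine ⟨by linarith, by linarith, ?_, h4⟩
    convert h3 using 3; ring
  · rintro ⟨h1, h2, h3, h4⟩
    refine ⟨by linarith, by linarith, ?_, h4⟩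
    convert h3 using 3; ring

theorem tau_mem_KU {p : R3} : tau p ∈ KU ↔ Strip (-p.1) p.2.2 ∧ |p.2.1| ≤ 1 := Iff.rfl

/-- the child box condition -/
def C1 (p : R3) : Prop := -16 ≤ p.1 ∧ p.1 ≤ 4 ∧ 8 ≤ p.2.1 ∧ p.2.1 ≤ 18 ∧ -5 ≤ p.2.2 ∧ p.2.2 ≤ 5
def C2 (p : R3) : Prop := -4 ≤ p.1 ∧ p.1 ≤ 16 ∧ 8 ≤ p.2.2 ∧ p.2.2 ≤ 18 ∧ -5 ≤ p.2.1 ∧ p.2.1 ≤ 5

theorem Y1_const (g b : G) {p : R3} (hpK : p ∉ KK) (hC2 : ¬ C2 p) (hy : p.2.1 = 0)
    (hz : p.2.2 ≠ 0) : ∃ l, ∀ᶠ u : R3 in 𝓝 p, Y1 g b u.1 u.2.2 = l := by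
  classical
  simp only [KK, KL, mem_union, mem_preimage, not_or] at hpK
  obtain ⟨⟨hK1, hK2⟩, hK3, hK4⟩ := hpK
  rw [tau_mem_KT] at hK3
  rw [tau_mem_KU] at hK4
  simp only [hy, abs_zero] at hK3 hK4
  unfold C2 at hC2
  rw [hy] at hC2
  unfold Strip at hK4
  rcases lt_trichotomy p.1 (-6) with hx | hx | hx
  · -- left
    rcases lt_or_gt_of_ne hz with h | h
    · refine ⟨g, ?_⟩
      filter_upwards [ev_lt_x hx, ev_lt_z h] with u h1 h2
      unfold Y1; rw [if_pos (Or.inl h1.le), if_pos h2]
    · refine ⟨1, ?_⟩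
      filter_upwards [ev_lt_x hx, ev_gt_z h] with u h1 h2
      unfold Y1; rw [if_pos (Or.inl h1.le), if_neg (not_lt.2 h2.le)]
  · -- on the line x = -6
    have : p.2.2 < -14 ∨ 14 < p.2.2 := by
      by_contra hcon
      push Not at hcon
      apply hK4
      refine ⟨Or.inr (Or.inl ⟨by linarith, by linarith, hcon.1, hcon.2⟩), by norm_num⟩
    rcases this with h | h
    · refine ⟨g, ?_⟩
      filter_upwards [ev_lt_z h] with u h2
      unfold Y1
      split_ifs <;> first | rfl | (exfalso; linarith)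
    · refine ⟨1, ?_⟩
      filter_upwards [ev_gt_z h] with u h2
      unfold Y1
      split_ifs <;> first | rfl | (exfalso; linarith)
  · rcases lt_trichotomy p.1 16 with hx' | hx' | hx'
    · -- middle
      rcases lt_trichotomy p.2.2 (-13) with h | h | h
      · refine ⟨g, ?_⟩
        filter_upwards [ev_lt_x hx', ev_gt_x hx, ev_lt_z h] with u h1 h2 h3
        unfold Y1
        rw [if_neg (by push Not; exact ⟨h2, h1⟩), if_pos h3]
      · exfalso
        apply hK4
        refine ⟨Or.inl ⟨by linarith, by linarith, by linarith, by linarith⟩, by norm_num⟩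
      · rcases lt_trichotomy p.2.2 13 with h' | h' | h'
        · refine ⟨b, ?_⟩
          filter_upwards [ev_lt_x hx', ev_gt_x hx, ev_gt_z h, ev_lt_z h'] with u h1 h2 h3 h4
          unfold Y1
          rw [if_neg (by push Not; exact ⟨h2, h1⟩), if_neg (not_lt.2 h3.le), if_pos h4]
        · exfalso
          rcases le_or_gt p.1 (-4) with h5 | h5
          · apply hK4
            refine ⟨Or.inr (Or.inr ⟨by linarith, by linarith, by linarith, by linarith⟩),
              by norm_num⟩
          · apply hC2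
            refine ⟨h5.le, hx'.le, by linarith, by linarith, by norm_num, by norm_num⟩
        · refine ⟨1, ?_⟩
          filter_upwards [ev_lt_x hx', ev_gt_x hx, ev_gt_z h'] with u h1 h2 h3
          unfold Y1
          rw [if_neg (by push Not; exact ⟨h2, h1⟩), if_neg (by linarith),
            if_neg (not_lt.2 h3.le)]
    · -- x = 16
      have : p.2.2 < -15 ∨ 15 < p.2.2 := by
        by_contra hcon
        push Not at hcon
        apply hK3
        refine ⟨by linarith, by linarith, ?_, by norm_num⟩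
        rw [abs_le, hx']
        constructor <;> linarith
      rcases this with h | h
      · refine ⟨g, ?_⟩
        filter_upwards [ev_lt_z h] with u h2
        unfold Y1
        split_ifs <;> first | rfl | (exfalso; linarith)
      · refine ⟨1, ?_⟩
        filter_upwards [ev_gt_z h] with u h2
        unfold Y1
        split_ifs <;> first | rfl | (exfalso; linarith)
    · rcases lt_or_gt_of_ne hz with h | h
      · refine ⟨g, ?_⟩
        filter_upwards [ev_gt_x hx', ev_lt_z h] with u h1 h2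
        unfold Y1; rw [if_pos (Or.inr h1.le), if_pos h2]
      · refine ⟨1, ?_⟩
        filter_upwards [ev_gt_x hx', ev_gt_z h] with u h1 h2
        unfold Y1; rw [if_pos (Or.inr h1.le), if_neg (not_lt.2 h2.le)]

theorem Z1_const (a b : G) {p : R3} (hpK : p ∉ KK) (hC1 : ¬ C1 p) (hz : p.2.2 = 0)
    (hy : p.2.1 ≠ 0) : ∃ l, ∀ᶠ u : R3 in 𝓝 p, Z1 a b u.1 u.2.1 = l := by
  classical
  simp only [KK, KL, mem_union, mem_preimage, not_or] at hpK
  obtain ⟨⟨hK1, hK2⟩, hK3, hK4⟩ := hpK
  simp only [KT, KU, mem_ofPred_eq, hz, abs_zero] at hK1 hK2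
  unfold C1 at hC1
  rw [hz] at hC1
  unfold Strip at hK2
  rcases lt_trichotomy p.1 (-16) with hx | hx | hx
  · refine ⟨1, ?_⟩
    filter_upwards [ev_lt_x hx] with u h1
    unfold Z1; rw [if_neg (by push Not; intro h; linarith)]
  · have : p.2.1 < -15 ∨ 15 < p.2.1 := by
      by_contra hcon
      push Not at hcon
      apply hK1
      refine ⟨by linarith, by linarith, ?_, by norm_num⟩
      rw [abs_le, hx]
      constructor <;> linarith
    rcases this with h | h
    · refine ⟨1, ?_⟩
      filter_upwards [ev_lt_y h] with u h2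
      unfold Z1
      split_ifs <;> first | rfl | (exfalso; linarith)
    · refine ⟨1, ?_⟩
      filter_upwards [ev_gt_y h] with u h2
      unfold Z1
      split_ifs <;> first | rfl | (exfalso; linarith)
  · rcases lt_trichotomy p.1 6 with hx' | hx' | hx'
    · rcases lt_trichotomy p.2.1 (-13) with h | h | h
      · refine ⟨1, ?_⟩
        filter_upwards [ev_lt_x hx', ev_gt_x hx, ev_lt_y h] with u h1 h2 h3
        unfold Z1
        rw [if_pos ⟨h2, h1⟩, if_pos h3]
      · exfalso
        apply hK2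
        refine ⟨Or.inl ⟨by linarith, by linarith, by linarith, by linarith⟩, by norm_num⟩
      · rcases lt_or_gt_of_ne hy with h0 | h0
        · refine ⟨a, ?_⟩
          filter_upwards [ev_lt_x hx', ev_gt_x hx, ev_gt_y h, ev_lt_y h0] with u h1 h2 h3 h4
          unfold Z1
          rw [if_pos ⟨h2, h1⟩, if_neg (not_lt.2 h3.le), if_pos h4]
        · rcases lt_trichotomy p.2.1 13 with h' | h' | h'
          · refine ⟨b, ?_⟩
            filter_upwards [ev_lt_x hx', ev_gt_x hx, ev_gt_y h0, ev_lt_y h'] with u h1 h2 h3 h4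
            unfold Z1
            rw [if_pos ⟨h2, h1⟩, if_neg (by linarith), if_neg (not_lt.2 h3.le), if_pos h4]
          · exfalso
            rcases le_or_gt p.1 4 with h5 | h5
            · apply hC1
              refine ⟨hx.le, h5, by linarith, by linarith, by norm_num, by norm_num⟩
            · apply hK2
              refine ⟨Or.inr (Or.inr ⟨by linarith, by linarith, by linarith, by linarith⟩),
                by norm_num⟩
          · refine ⟨1, ?_⟩
            filter_upwards [ev_lt_x hx', ev_gt_x hx, ev_gt_y h'] with u h1 h2 h3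
            unfold Z1
            rw [if_pos ⟨h2, h1⟩, if_neg (by linarith), if_neg (by linarith),
              if_neg (not_lt.2 h3.le)]
    · have : p.2.1 < -14 ∨ 14 < p.2.1 := by
        by_contra hcon
        push Not at hcon
        apply hK2
        refine ⟨Or.inr (Or.inl ⟨by linarith, by linarith, hcon.1, hcon.2⟩), by norm_num⟩
      rcases this with h | h
      · refine ⟨1, ?_⟩
        filter_upwards [ev_lt_y h] with u h2
        unfold Z1
        split_ifs <;> first | rfl | (exfalso; linarith)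
      · refine ⟨1, ?_⟩
        filter_upwards [ev_gt_y h] with u h2
        unfold Z1
        split_ifs <;> first | rfl | (exfalso; linarith)
    · refine ⟨1, ?_⟩
      filter_upwards [ev_gt_x hx'] with u h1
      unfold Z1; rw [if_neg (by push Not; intro h; linarith)]

/-- the first stage wall cocycle is locally trivial off the solid, the child boxes -/
theorem wall1_LT (g a b c : G) (hg : g * b = a) (ha : c * b = a * c) {p : R3} (hp : p ∈ BB)
    (hpK : p ∉ KK) (hC1 : ¬ C1 p) (hC2 : ¬ C2 p) : LTat (wall (Y1 g c) (Z1 a b)) p := by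
  classical
  by_cases hz : p.2.2 = 0
  · by_cases hy : p.2.1 = 0
    · -- on the axis
      have hK := hpK
      simp only [KK, KL, mem_union, mem_preimage, not_or] at hpK
      obtain ⟨⟨hK1, hK2⟩, hK3, hK4⟩ := hpK
      rw [tau_mem_KT] at hK3
      rw [tau_mem_KU] at hK4
      simp only [KT, KU, mem_ofPred_eq, hz, hy, abs_zero] at hK1 hK2 hK3 hK4
      unfold Strip at hK2 hK4
      simp only [BB, mem_ofPred_eq, abs_le] at hp
      obtain ⟨⟨hp1, hp2⟩, -, -⟩ := hp
      have e1 : -16 < p.1 := by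
        by_contra hcon; push Not at hcon
        exact hK1 ⟨hp1, hcon, by nlinarith, by norm_num⟩
      have e2 : p.1 < 16 := by
        by_contra hcon; push Not at hcon
        exact hK3 ⟨hcon, hp2, by nlinarith, by norm_num⟩
      have e3 : p.1 < 5 ∨ 7 < p.1 := by
        by_contra hcon; push Not at hcon
        exact hK2 ⟨Or.inr (Or.inl ⟨hcon.1, hcon.2, by norm_num, by norm_num⟩), by norm_num⟩
      have e4 : p.1 < -7 ∨ -5 < p.1 := by
        by_contra hcon; push Not at hcon
        exact hK4 ⟨Or.inr (Or.inl ⟨by linarith, by linarith, by norm_num, by norm_num⟩), by norm_num⟩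
      have hzm : -13 < p.2.2 := by rw [hz]; norm_num
      have hzp : p.2.2 < 13 := by rw [hz]; norm_num
      have hym : -13 < p.2.1 := by rw [hy]; norm_num
      have hyp : p.2.1 < 13 := by rw [hy]; norm_num
      rcases e4 with h4 | h4
      · refine wall_axis _ _ g 1 a b ?_ ?_ (by rw [mul_one, hg])
        · filter_upwards [ev_lt_x h4] with u h1
          unfold Y1; rw [if_pos (Or.inl (by linarith))]
        · filter_upwards [ev_lt_x h4, ev_gt_x e1, ev_gt_y hym, ev_lt_y hyp] with u h1 h2 h3 h5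
          unfold Z1; rw [if_pos ⟨h2, by linarith⟩, if_neg (not_lt.2 h3.le)]
          split_ifs <;> rfl
      · rcases e3 with h3 | h3
        · refine wall_axis _ _ c c a b ?_ ?_ ha
          · filter_upwards [ev_gt_x h4, ev_lt_x h3, ev_gt_z hzm, ev_lt_z hzp] with u h1 h2 h5 h6
            unfold Y1
            rw [if_neg (by push Not; exact ⟨by linarith, by linarith⟩), if_neg (not_lt.2 h5.le),
              if_pos h6, ite_self]
          · filter_upwards [ev_lt_x h3, ev_gt_x e1, ev_gt_y hym, ev_lt_y hyp] with u h1 h2 h3 h5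
            unfold Z1; rw [if_pos ⟨h2, by linarith⟩, if_neg (not_lt.2 h3.le)]
            split_ifs <;> rfl
        · refine wall_axis _ _ c c 1 1 ?_ ?_ (by simp)
          · filter_upwards [ev_gt_x h3, ev_lt_x e2, ev_gt_z hzm, ev_lt_z hzp] with u h1 h2 h5 h6
            unfold Y1
            rw [if_neg (by push Not; exact ⟨by linarith, by linarith⟩), if_neg (not_lt.2 h5.le),
              if_pos h6, ite_self]
          · filter_upwards [ev_gt_x h3] with u h1
            unfold Z1; rw [if_neg (by push Not; intro h; linarith), ite_self]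
    · obtain ⟨l, hl⟩ := Z1_const a b hpK hC1 hz hy
      refine ⟨fun u => step l u.2.2, ?_⟩
      exact wall_y _ _ hy l (fun _ => hl)
  · by_cases hy : p.2.1 = 0
    · obtain ⟨l, hl⟩ := Y1_const g c hpK hC2 hy hz
      refine ⟨fun u => step l u.2.1, ?_⟩
      exact wall_z _ _ hz l (fun _ => hl)
    · refine ⟨fun u => step 1 u.2.1, ?_⟩
      exact wall_z _ _ hz 1 (fun h => absurd h hy)

/-- the standard cocycle is locally trivial off the axis -/
theorem std_LT (g : G) {p : R3} (hp : ¬ (p.2.1 = 0 ∧ p.2.2 = 0)) : LTat (std g) p := by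
  classical
  by_cases hz : p.2.2 = 0
  · have hy : p.2.1 ≠ 0 := fun h => hp ⟨h, hz⟩
    refine ⟨fun _ => 1, ?_⟩
    filter_upwards [ev_pair (ev_y_sign hy)] with q hq
    unfold std
    rw [step_same (hq.1.trans hq.2.symm)]; simp
  · rcases lt_or_gt_of_ne hz with h | h
    · refine ⟨fun u => step g u.2.1, ?_⟩
      filter_upwards [ev_pair (ev_lt_z h)] with q hq
      unfold std Ystd
      rw [if_pos hq.1]
    · refine ⟨fun u => step 1 u.2.1, ?_⟩
      filter_upwards [ev_pair (ev_gt_z h)] with q hq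
      unfold std Ystd
      rw [if_neg (not_lt.2 hq.1.le)]

/-- the smaller box -/
def Bin (p : R3) : Prop := |p.1| ≤ 16 ∧ |p.2.1| ≤ 18 ∧ |p.2.2| ≤ 18

theorem C1_Bin {p : R3} (h : C1 p) : Bin p := by
  unfold C1 at h; unfold Bin
  simp only [abs_le]
  refine ⟨⟨?_, ?_⟩, ⟨?_, ?_⟩, ?_, ?_⟩ <;> linarith [h.1, h.2.1, h.2.2.1, h.2.2.2.1, h.2.2.2.2.1, h.2.2.2.2.2]

theorem C2_Bin {p : R3} (h : C2 p) : Bin p := by
  unfold C2 at h; unfold Bin
  simp only [abs_le]
  refine ⟨⟨?_, ?_⟩, ⟨?_, ?_⟩, ?_, ?_⟩ <;> linarith [h.1, h.2.1, h.2.2.1, h.2.2.2.1, h.2.2.2.2.1, h.2.2.2.2.2]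

theorem Bin_closed : IsClosed {p : R3 | Bin p} := by
  have c1 : Continuous (fun u : R3 => |u.1|) := by fun_prop
  have c2 : Continuous (fun u : R3 => |u.2.1|) := by fun_prop
  have c3 : Continuous (fun u : R3 => |u.2.2|) := by fun_prop
  exact (isClosed_le c1 continuous_const).inter
    ((isClosed_le c2 continuous_const).inter (isClosed_le c3 continuous_const))

/-- outside the smaller box, the first stage cocycle is the standard one -/
theorem wall1_std (g a b c : G) {p : R3} (hp : ¬ Bin p) :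
    ∀ᶠ q in 𝓝 (p, p), wall (Y1 g c) (Z1 a b) q.1 q.2 = std g q.1 q.2 := by
  classical
  have hcases : (16 < |p.1|) ∨ (18 < |p.2.1|) ∨ (18 < |p.2.2|) := by
    unfold Bin at hp; by_contra hcon; push Not at hcon; exact hp hcon
  have key : ∀ᶠ u : R3 in 𝓝 p, (u.1 < -16 ∨ 16 < u.1) ∨
      (u.2.1 < -18 ∨ 18 < u.2.1) ∨ (u.2.2 < -18 ∨ 18 < u.2.2) := by
    rcases hcases with h | h | h <;> rcases lt_abs.1 h with h' | h'
    · filter_upwards [ev_gt_x h'] with u hu; exact Or.inl (Or.inr hu)
    · filter_upwards [ev_lt_x (show p.1 < -16 by linarith)] with u hu; exact Or.inl (Or.inl hu)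
    · filter_upwards [ev_gt_y h'] with u hu; exact Or.inr (Or.inl (Or.inr hu))
    · filter_upwards [ev_lt_y (show p.2.1 < -18 by linarith)] with u hu
      exact Or.inr (Or.inl (Or.inl hu))
    · filter_upwards [ev_gt_z h'] with u hu; exact Or.inr (Or.inr (Or.inr hu))
    · filter_upwards [ev_lt_z (show p.2.2 < -18 by linarith)] with u hu
      exact Or.inr (Or.inr (Or.inl hu))
  rcases hcases with h | h | h
  · -- large x
    have : ∀ᶠ u : R3 in 𝓝 p, (u.1 < -16 ∨ 16 < u.1) := by
      rcases lt_abs.1 h with h' | h'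
      · filter_upwards [ev_gt_x h'] with u hu; exact Or.inr hu
      · filter_upwards [ev_lt_x (show p.1 < -16 by linarith)] with u hu; exact Or.inl hu
    filter_upwards [ev_pair this] with q hq
    unfold wall std
    have e1 : Y1 g c q.1.1 q.1.2.2 = Ystd g q.1.1 q.1.2.2 := by
      unfold Y1 Ystd
      rw [if_pos (by rcases hq.1 with h | h; exact Or.inl (by linarith); exact Or.inr h.le)]
    have e2 : Z1 a b q.2.1 q.2.2.1 = 1 := by
      unfold Z1
      rw [if_neg (by rintro ⟨h1, h2⟩; rcases hq.2 with h | h <;> linarith)]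
    rw [e1, e2]
    unfold step
    simp
  · -- large y
    have hy : p.2.1 ≠ 0 := by intro h0; rw [h0, abs_zero] at h; linarith
    have h3 : ∀ᶠ u : R3 in 𝓝 p, Z1 a b u.1 u.2.1 = 1 := by
      rcases lt_abs.1 h with h' | h'
      · filter_upwards [ev_gt_y h'] with u hu
        unfold Z1
        split_ifs <;> first | rfl | (exfalso; linarith)
      · filter_upwards [ev_lt_y (show p.2.1 < -18 by linarith)] with u hu
        unfold Z1
        split_ifs <;> first | rfl | (exfalso; linarith)
    filter_upwards [wall_y (Y1 g c) (Z1 a b) hy 1 (fun _ => h3), ev_pair (ev_y_sign hy)] with q h1 h2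
    rw [h1]
    unfold std
    rw [step_same (h2.1.trans h2.2.symm)]
    unfold step; simp
  · -- large z
    have hz : p.2.2 ≠ 0 := by intro h0; rw [h0, abs_zero] at h; linarith
    rcases lt_abs.1 h with h' | h'
    · have h3 : ∀ᶠ u : R3 in 𝓝 p, Y1 g c u.1 u.2.2 = 1 := by
        filter_upwards [ev_gt_z h'] with u hu
        unfold Y1
        split_ifs <;> first | rfl | (exfalso; linarith)
      filter_upwards [wall_z (Y1 g c) (Z1 a b) hz 1 (fun _ => h3), ev_pair (ev_gt_z h')] with q h1 h2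
      rw [h1]
      unfold std Ystd
      rw [if_neg (by linarith [h2.1])]
    · have hzl : p.2.2 < -18 := by linarith
      have h3 : ∀ᶠ u : R3 in 𝓝 p, Y1 g c u.1 u.2.2 = g := by
        filter_upwards [ev_lt_z hzl] with u hu
        unfold Y1
        split_ifs <;> first | rfl | (exfalso; linarith)
      filter_upwards [wall_z (Y1 g c) (Z1 a b) hz g (fun _ => h3), ev_pair (ev_lt_z hzl)] with q h1 h2
      rw [h1]
      unfold std Ystd
      rw [if_pos (by linarith [h2.1])]

theorem C1_iff {p : R3} : C1 p ↔ sinv p ∈ BB := by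
  simp only [C1, BB, sinv, mem_ofPred_eq, abs_le]
  constructor
  · rintro ⟨h1, h2, h3, h4, h5, h6⟩
    refine ⟨⟨?_, ?_⟩, ⟨?_, ?_⟩, ?_, ?_⟩ <;> linarith
  · rintro ⟨⟨h1, h2⟩, ⟨h3, h4⟩, h5, h6⟩
    refine ⟨?_, ?_, ?_, ?_, ?_, ?_⟩ <;> linarith

theorem C2_iff {p : R3} : C2 p ↔ sinv (tau p) ∈ BB := by
  simp only [C2, BB, sinv, tau, mem_ofPred_eq, abs_le]
  constructor
  · rintro ⟨h1, h2, h3, h4, h5, h6⟩
    refine ⟨⟨?_, ?_⟩, ⟨?_, ?_⟩, ?_, ?_⟩ <;> linarith
  · rintro ⟨⟨h1, h2⟩, ⟨h3, h4⟩, h5, h6⟩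
    refine ⟨?_, ?_, ?_, ?_, ?_, ?_⟩ <;> linarith

theorem four_neg (a : ℝ) : 4 * a < 0 ↔ a < 0 := by constructor <;> intro h <;> linarith

/-- near boundary points of the first child box -/
theorem wall1_C1 (g a b c : G) {p : R3} (hpK : p ∉ KK) (hC : C1 p) (hb : sinv p ∉ BBo) :
    ∀ᶠ q in 𝓝 (p, p), wall (Y1 g c) (Z1 a b) q.1 q.2 = std b (sinv q.1) (sinv q.2) := by
  classical
  have hC' := hC
  unfold C1 at hC
  obtain ⟨h1, h2, h3, h4, h5, h6⟩ := hC
  have hy : p.2.1 ≠ 0 := by linarith
  by_cases hz : p.2.2 = 0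
  · -- on the plane z = 0
    simp only [KK, KL, mem_union, mem_preimage, not_or] at hpK
    obtain ⟨⟨hK1, hK2⟩, -, -⟩ := hpK
    simp only [KT, KU, mem_ofPred_eq, hz, abs_zero] at hK1 hK2
    unfold Strip at hK2
    simp only [BBo, sinv, mem_ofPred_eq, hz, abs_lt, not_and_or, not_lt] at hb
    -- locate p
    have hne : p.2.1 ≠ 13 := by
      intro h13
      rw [h13] at hb
      norm_num at hb
      rcases hb with hb | hb
      · apply hK1
        refine ⟨by linarith, by linarith, ?_, by norm_num⟩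
        rw [abs_le, h13]; constructor <;> linarith
      · apply hK2
        exact ⟨Or.inr (Or.inr ⟨by linarith, by linarith, by linarith, by linarith⟩), by norm_num⟩
    have hx : p.1 ≠ -16 ∨ 15 < p.2.1 := by
      by_contra hcon
      push Not at hcon
      apply hK1
      refine ⟨by linarith [hcon.1], by linarith [hcon.1], ?_, by norm_num⟩
      rw [abs_le, hcon.1]; constructor <;> linarith [hcon.2]
    rcases lt_or_gt_of_ne hne with h13 | h13
    · have hx' : -16 < p.1 := lt_of_le_of_ne h1 (fun h => by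
        rcases hx with h' | h'
        · exact h' h.symm
        · linarith)
      have h8 : (7 : ℝ) < p.2.1 := by linarith
      have h3' : ∀ᶠ u : R3 in 𝓝 p, Z1 a b u.1 u.2.1 = b := by
        filter_upwards [ev_gt_x hx', ev_lt_x (show p.1 < 6 by linarith), ev_lt_y h13, ev_gt_y h8]
          with u e1 e2 e3 e4
        unfold Z1
        rw [if_pos ⟨e1, e2⟩, if_neg (by linarith), if_neg (by linarith), if_pos e3]
      filter_upwards [wall_y (Y1 g c) (Z1 a b) hy b (fun _ => h3'), ev_pair (ev_lt_y h13)] with q k1 k2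
      rw [k1]
      unfold std Ystd sinv step
      simp only
      rw [if_pos (show 4 * (q.1.2.1 - 13) < 0 by linarith [k2.1])]
      simp only [four_neg]
    · have h3' : ∀ᶠ u : R3 in 𝓝 p, Z1 a b u.1 u.2.1 = 1 := by
        filter_upwards [ev_gt_y h13] with u e3
        unfold Z1
        split_ifs <;> first | rfl | (exfalso; linarith)
      filter_upwards [wall_y (Y1 g c) (Z1 a b) hy 1 (fun _ => h3'), ev_pair (ev_gt_y h13)] with q k1 k2
      rw [k1]
      unfold std Ystd sinv step
      simp only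
      rw [if_neg (show ¬ 4 * (q.1.2.1 - 13) < 0 by linarith [k2.1])]
      simp
  · filter_upwards [wall_y (Y1 g c) (Z1 a b) hy 1 (fun h => absurd h hz), ev_pair (ev_z_sign hz)]
      with q k1 k2
    rw [k1, step_same (k2.1.trans k2.2.symm)]
    unfold std
    rw [step_same]
    simp only [sinv, four_neg]
    exact k2.1.trans k2.2.symm

/-- near boundary points of the second child box -/
theorem wall1_C2 (g a b c : G) {p : R3} (hpK : p ∉ KK) (hC : C2 p) (hb : sinv (tau p) ∉ BBo) :
    ∀ᶠ q in 𝓝 (p, p), wall (Y1 g c) (Z1 a b) q.1 q.2 =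
      std c (sinv (tau q.1)) (sinv (tau q.2)) := by
  classical
  have hC' := hC
  unfold C2 at hC
  obtain ⟨h1, h2, h3, h4, h5, h6⟩ := hC
  have hz : p.2.2 ≠ 0 := by linarith
  by_cases hy : p.2.1 = 0
  · simp only [KK, KL, mem_union, mem_preimage, not_or] at hpK
    obtain ⟨-, hK3, hK4⟩ := hpK
    rw [tau_mem_KT] at hK3
    rw [tau_mem_KU] at hK4
    simp only [hy, abs_zero] at hK3 hK4
    unfold Strip at hK4
    simp only [BBo, sinv, tau, mem_ofPred_eq, hy, abs_lt, not_and_or, not_lt] at hb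
    have hne : p.2.2 ≠ 13 := by
      intro h13
      rw [h13] at hb
      norm_num at hb
      rcases hb with hb | hb
      · apply hK3
        refine ⟨by linarith, by linarith, ?_, by norm_num⟩
        rw [abs_le, h13]; constructor <;> linarith
      · apply hK4
        exact ⟨Or.inr (Or.inr ⟨by linarith, by linarith, by linarith, by linarith⟩), by norm_num⟩
    have hx : p.1 ≠ 16 ∨ 15 < p.2.2 := by
      by_contra hcon
      push Not at hcon
      apply hK3
      refine ⟨by linarith [hcon.1], by linarith [hcon.1], ?_, by norm_num⟩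
      rw [abs_le, hcon.1]; constructor <;> linarith [hcon.2]
    rcases lt_or_gt_of_ne hne with h13 | h13
    · have hx' : p.1 < 16 := lt_of_le_of_ne h2 (fun h => by
        rcases hx with h' | h'
        · exact h' h
        · linarith)
      have h8 : (7 : ℝ) < p.2.2 := by linarith
      have h3' : ∀ᶠ u : R3 in 𝓝 p, Y1 g c u.1 u.2.2 = c := by
        filter_upwards [ev_lt_x hx', ev_gt_x (show -6 < p.1 by linarith), ev_lt_z h13, ev_gt_z h8]
          with u e1 e2 e3 e4
        unfold Y1
        rw [if_neg (by push Not; exact ⟨by linarith, e1⟩), if_neg (by linarith), if_pos e3]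
      filter_upwards [wall_z (Y1 g c) (Z1 a b) hz c (fun _ => h3'), ev_pair (ev_lt_z h13)] with q k1 k2
      rw [k1]
      unfold std Ystd sinv tau step
      simp only
      rw [if_pos (show 4 * (q.1.2.2 - 13) < 0 by linarith [k2.1])]
      simp only [four_neg]
    · have h3' : ∀ᶠ u : R3 in 𝓝 p, Y1 g c u.1 u.2.2 = 1 := by
        filter_upwards [ev_gt_z h13] with u e3
        unfold Y1
        split_ifs <;> first | rfl | (exfalso; linarith)
      filter_upwards [wall_z (Y1 g c) (Z1 a b) hz 1 (fun _ => h3'), ev_pair (ev_gt_z h13)] with q k1 k2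
      rw [k1]
      unfold std Ystd sinv tau step
      simp only
      rw [if_neg (show ¬ 4 * (q.1.2.2 - 13) < 0 by linarith [k2.1])]
      simp
  · filter_upwards [wall_z (Y1 g c) (Z1 a b) hz 1 (fun h => absurd h hy), ev_pair (ev_y_sign hy)]
      with q k1 k2
    rw [k1, step_same (k2.1.trans k2.2.symm)]
    unfold std
    rw [step_same]
    simp only [sinv, tau, four_neg]
    exact k2.1.trans k2.2.symm

theorem BBo_open : IsOpen BBo := by
  have c1 : Continuous (fun u : R3 => |u.1|) := by fun_prop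
  have c2 : Continuous (fun u : R3 => |u.2.1|) := by fun_prop
  have c3 : Continuous (fun u : R3 => |u.2.2|) := by fun_prop
  exact (isOpen_lt c1 continuous_const).inter
    ((isOpen_lt c2 continuous_const).inter (isOpen_lt c3 continuous_const))

theorem BB_closed : IsClosed BB := by
  have c1 : Continuous (fun u : R3 => |u.1|) := by fun_prop
  have c2 : Continuous (fun u : R3 => |u.2.1|) := by fun_prop
  have c3 : Continuous (fun u : R3 => |u.2.2|) := by fun_prop
  exact (isClosed_le c1 continuous_const).inter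
    ((isClosed_le c2 continuous_const).inter (isClosed_le c3 continuous_const))

theorem BBo_sub_BB : BBo ⊆ BB := fun _ h => ⟨h.1.le, h.2.1.le, h.2.2.le⟩

theorem Bin_BBo {p : R3} (h : Bin p) : p ∈ BBo :=
  ⟨by linarith [h.1], by linarith [h.2.1], by linarith [h.2.2]⟩

theorem not_C1_C2 {p : R3} (h1 : C1 p) (h2 : C2 p) : False := by
  unfold C1 at h1; unfold C2 at h2
  linarith [h1.2.2.1, h2.2.2.2.2.2]

theorem ev_not_C1 {p : R3} (h : ¬ C1 p) : ∀ᶠ u in 𝓝 p, ¬ C1 u := by
  rw [C1_iff] at h
  have := (BB_closed.preimage sinv_cont).isOpen_compl.mem_nhds h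
  filter_upwards [this] with u hu
  rw [C1_iff]; exact hu

theorem ev_not_C2 {p : R3} (h : ¬ C2 p) : ∀ᶠ u in 𝓝 p, ¬ C2 u := by
  rw [C2_iff] at h
  have := (BB_closed.preimage (sinv_cont.comp tau_cont)).isOpen_compl.mem_nhds h
  filter_upwards [this] with u hu
  rw [C2_iff]; exact hu

theorem axis_KK1 {p : R3} (hC : sinv p ∈ BB) (hb : sinv p ∉ BBo)
    (ha : (sinv p).2.1 = 0 ∧ (sinv p).2.2 = 0) : p ∈ KK := by
  simp only [sinv] at ha
  have hz : p.2.2 = 0 := by linarith [ha.1]
  have hy : p.2.1 = 13 := by linarith [ha.2]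
  simp only [BBo, BB, sinv, mem_ofPred_eq, hz, hy, abs_lt, abs_le, not_and_or, not_lt] at hb hC
  norm_num at hb hC
  left
  rcases hb with hb | hb
  · left
    refine ⟨by linarith, by linarith, ?_, ?_⟩
    · rw [abs_le, hy]; constructor <;> linarith
    · rw [hz]; norm_num
  · right
    refine ⟨Or.inr (Or.inr ⟨by linarith, by linarith, by linarith, by linarith⟩), ?_⟩
    rw [hz]; norm_num

theorem axis_KK2 {p : R3} (hC : sinv (tau p) ∈ BB) (hb : sinv (tau p) ∉ BBo)
    (ha : (sinv (tau p)).2.1 = 0 ∧ (sinv (tau p)).2.2 = 0) : p ∈ KK := by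
  have := axis_KK1 hC hb ha
  simp only [KK, mem_union, mem_preimage, tau_tau] at this ⊢
  exact this.symm

theorem gadget_coc {L : Set G} (hL : ∀ g ∈ L, ∃ b ∈ L, ∃ c ∈ L, g = c * b * c⁻¹ * b⁻¹) (n : ℕ) :
    ∀ g ∈ L, ∃ h : R3 → R3 → G, (∀ p ∈ BB, p ∉ NN n → LTat h p) ∧
      (∀ p, ¬ Bin p → ∀ᶠ q in 𝓝 (p, p), h q.1 q.2 = std g q.1 q.2) := by
  classical
  induction n with
  | zero =>
    intro g _
    exact ⟨std g, fun p hp hp' => absurd hp hp', fun p _ => Eventually.of_forall fun _ => rfl⟩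
  | succ n ih =>
    intro g hg
    obtain ⟨b, hb, c, hc, hgbc⟩ := hL g hg
    obtain ⟨h1, h1a, h1b⟩ := ih b hb
    obtain ⟨h2, h2a, h2b⟩ := ih c hc
    set a := c * b * c⁻¹ with ha
    have hrel1 : g * b = a := by rw [hgbc]; group
    have hrel2 : c * b = a * c := by rw [ha]; group
    let h : R3 → R3 → G := fun u v => if sinv u ∈ BBo ∧ sinv v ∈ BBo then h1 (sinv u) (sinv v) else
      if sinv (tau u) ∈ BBo ∧ sinv (tau v) ∈ BBo then h2 (sinv (tau u)) (sinv (tau v)) else
        wall (Y1 g c) (Z1 a b) u v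
    have hwall : ∀ u v : R3, ¬ C1 u → ¬ C2 u → h u v = wall (Y1 g c) (Z1 a b) u v := by
      intro u v hu1 hu2
      rw [C1_iff] at hu1
      rw [C2_iff] at hu2
      show (if _ then _ else if _ then _ else _) = _
      rw [if_neg (fun hc => hu1 (BBo_sub_BB hc.1)), if_neg (fun hc => hu2 (BBo_sub_BB hc.1))]
    refine ⟨h, ?_, ?_⟩
    · intro p hp hpN
      have hpK : p ∉ KK := fun hK => hpN (KK_sub_NN n hK)
      have hpN1 : sinv p ∉ NN n := fun hN => hpN (Or.inl (Or.inr hN))
      have hpN2 : sinv (tau p) ∉ NN n := fun hN => hpN (Or.inr hN)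
      by_cases hC1 : C1 p
      · have hC2 : ¬ C2 p := fun h => not_C1_C2 hC1 h
        have hBB := C1_iff.1 hC1
        by_cases hbo : sinv p ∈ BBo
        · refine (LTat.comp sinv_cont (h1a _ hBB hpN1)).congr ?_
          have : ∀ᶠ u in 𝓝 p, sinv u ∈ BBo := (BBo_open.preimage sinv_cont).mem_nhds hbo
          filter_upwards [ev_pair this] with q hq
          show (if _ then _ else _) = _
          rw [if_pos hq]
        · have hax : ¬ ((sinv p).2.1 = 0 ∧ (sinv p).2.2 = 0) := fun h => hpK (axis_KK1 hBB hbo h)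
          refine (LTat.comp sinv_cont (std_LT b hax)).congr ?_
          have e1 := h1b (sinv p) (fun h => hbo (Bin_BBo h))
          have hc : Continuous (fun q : R3 × R3 => (sinv q.1, sinv q.2)) := by
            have := sinv_cont; fun_prop
          have e1' := (hc.tendsto (p, p)).eventually e1
          filter_upwards [e1', wall1_C1 g a b c hpK hC1 hbo, ev_pair (ev_not_C2 hC2)] with q k1 k2 k3
          show (if _ then _ else if _ then _ else _) = _
          split_ifs with hh1 hh2
          · exact k1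
          · exact absurd (C2_iff.2 (BBo_sub_BB hh2.1)) k3.1
          · exact k2
      · by_cases hC2 : C2 p
        · have hBB := C2_iff.1 hC2
          have hst : Continuous (fun u => sinv (tau u)) := sinv_cont.comp tau_cont
          by_cases hbo : sinv (tau p) ∈ BBo
          · refine (LTat.comp hst (h2a _ hBB hpN2)).congr ?_
            have : ∀ᶠ u in 𝓝 p, sinv (tau u) ∈ BBo := (BBo_open.preimage hst).mem_nhds hbo
            filter_upwards [ev_pair this, ev_pair (ev_not_C1 hC1)] with q hq hq1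
            show (if _ then _ else if _ then _ else _) = _
            rw [if_neg (fun hc => hq1.1 (C1_iff.2 (BBo_sub_BB hc.1))), if_pos hq]
          · have hax : ¬ ((sinv (tau p)).2.1 = 0 ∧ (sinv (tau p)).2.2 = 0) :=
              fun h => hpK (axis_KK2 hBB hbo h)
            refine (LTat.comp hst (std_LT c hax)).congr ?_
            have e1 := h2b (sinv (tau p)) (fun h => hbo (Bin_BBo h))
            have hc : Continuous (fun q : R3 × R3 => (sinv (tau q.1), sinv (tau q.2))) :=
              (hst.comp continuous_fst).prodMk (hst.comp continuous_snd)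
            have e1' := (hc.tendsto (p, p)).eventually e1
            filter_upwards [e1', wall1_C2 g a b c hpK hC2 hbo, ev_pair (ev_not_C1 hC1)]
              with q k1 k2 k3
            show (if _ then _ else if _ then _ else _) = _
            split_ifs with hh1 hh2
            · exact absurd (C1_iff.2 (BBo_sub_BB hh1.1)) k3.1
            · exact k1
            · exact k2
        · refine (wall1_LT g a b c hrel1 hrel2 hp hpK hC1 hC2).congr ?_
          filter_upwards [ev_pair (ev_not_C1 hC1), ev_pair (ev_not_C2 hC2)] with q hq1 hq2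
          exact hwall _ _ hq1.1 hq2.1
    · intro p hp
      have h3 : ∀ᶠ u in 𝓝 p, ¬ Bin u := Bin_closed.isOpen_compl.mem_nhds hp
      filter_upwards [ev_pair h3, wall1_std g a b c hp] with q hq k
      rw [hwall _ _ (fun h => hq.1 (C1_Bin h)) (fun h => hq.1 (C2_Bin h)), k]

end

end Sph9fe
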