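import Pool.Agent.Work.MP_9fe036_gt.Hosts
import Pool.Agent.Work.MP_9fe036_gt.GCoc

namespace Sph9fe

open Topology Filter Set

section
variable {G : Type*} [Group G]

open Classical in
noncomputable def Tl (t : G) (x z : ℝ) : G := if |x| < 60 ∧ |z| < 60 then t else 1

open Classical in
noncomputable def Sl (s : G) (z : ℝ) : G := if z < 0 then s else 1

noncomputable def cc1 (t : G) (u v : R3) : G :=
  (step (Tl t u.1 u.2.2) u.2.1)⁻¹ * step (Tl t u.1 u.2.2) v.2.1

noncomputable def cc2 (s : G) (u v : R3) : G :=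
  (step (Sl s u.2.2) u.1)⁻¹ * step (Sl s u.2.2) v.1

noncomputable def hh0 (s t : G) (u v : R3) : G := cc1 t u v * cc2 s u v

theorem ev_x_sign {p : R3} (hp : p.1 ≠ 0) : ∀ᶠ u in 𝓝 p, (u.1 < 0 ↔ p.1 < 0) := by
  rcases lt_or_gt_of_ne hp with h | h
  · filter_upwards [ev_lt_x h] with u hu
    exact ⟨fun _ => h, fun _ => hu⟩
  · filter_upwards [ev_gt_x h] with u hu
    exact ⟨fun h' => absurd h' (not_lt.2 (le_of_lt hu)), fun h' => absurd h' (not_lt.2 h.le)⟩

theorem ev_Tl (t : G) {p : R3} (h : ¬ (max |p.1| |p.2.2| = 60)) :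
    ∃ l, (l = 1 ∨ l = t) ∧ ∀ᶠ u : R3 in 𝓝 p, Tl t u.1 u.2.2 = l := by
  classical
  have c : Continuous (fun u : R3 => max |u.1| |u.2.2|) := by fun_prop
  rcases lt_or_gt_of_ne h with h | h
  · refine ⟨t, Or.inr rfl, ?_⟩
    filter_upwards [(isOpen_lt c continuous_const).mem_nhds h] with u hu
    have hu' := max_lt_iff.1 (show max |u.1| |u.2.2| < 60 from hu)
    unfold Tl
    rw [if_pos hu']
  · refine ⟨1, Or.inl rfl, ?_⟩
    filter_upwards [(isOpen_lt continuous_const c).mem_nhds h] with u hu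
    unfold Tl
    rw [if_neg]
    intro h'
    have := max_lt_iff.2 h'
    exact lt_asymm this hu

theorem ev_cc1 (t : G) {p : R3} (h : p.2.1 = 0 → ¬ (max |p.1| |p.2.2| = 60)) :
    ∃ l, (l = 1 ∨ l = t) ∧ ∀ᶠ q in 𝓝 (p, p), cc1 t q.1 q.2 =
      (step l q.1.2.1)⁻¹ * step l q.2.2.1 := by
  by_cases hy : p.2.1 = 0
  · obtain ⟨l, hl, hev⟩ := ev_Tl t (h hy)
    refine ⟨l, hl, ?_⟩
    filter_upwards [ev_pair hev] with q hq
    unfold cc1; rw [hq.1]
  · refine ⟨1, Or.inl rfl, ?_⟩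
    filter_upwards [ev_pair (ev_y_sign hy)] with q hq
    unfold cc1
    rw [step_same (hq.1.trans hq.2.symm), step_same (hq.1.trans hq.2.symm)]

theorem ev_cc2 (s : G) {p : R3} (h : p.1 = 0 → p.2.2 ≠ 0) :
    ∃ l, (l = 1 ∨ l = s) ∧ ∀ᶠ q in 𝓝 (p, p), cc2 s q.1 q.2 =
      (step l q.1.1)⁻¹ * step l q.2.1 := by
  classical
  by_cases hx : p.1 = 0
  · rcases lt_or_gt_of_ne (h hx) with hz | hz
    · refine ⟨s, Or.inr rfl, ?_⟩
      filter_upwards [ev_pair (ev_lt_z hz)] with q hq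
      unfold cc2 Sl; rw [if_pos hq.1]
    · refine ⟨1, Or.inl rfl, ?_⟩
      filter_upwards [ev_pair (ev_gt_z hz)] with q hq
      unfold cc2 Sl; rw [if_neg (not_lt.2 hq.1.le)]
  · refine ⟨1, Or.inl rfl, ?_⟩
    filter_upwards [ev_pair (ev_x_sign hx)] with q hq
    unfold cc2
    rw [step_same (hq.1.trans hq.2.symm), step_same (hq.1.trans hq.2.symm)]

theorem step_mem (l : G) (a : ℝ) : step l a = 1 ∨ step l a = l := by
  unfold step; split_ifs
  · exact Or.inl rfl
  · exact Or.inr rfl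

theorem hh0_LT {s t : G} (hst : s * t = t * s) {p : R3}
    (h1 : p.2.1 = 0 → ¬ (max |p.1| |p.2.2| = 60)) (h2 : p.1 = 0 → p.2.2 ≠ 0) :
    LTat (hh0 s t) p := by
  obtain ⟨l, hl, he1⟩ := ev_cc1 t h1
  obtain ⟨m, hm, he2⟩ := ev_cc2 s h2
  refine ⟨fun u => step l u.2.1 * step m u.1, ?_⟩
  filter_upwards [he1, he2] with q k1 k2
  unfold hh0
  rw [k1, k2]
  have hcomm : ∀ a b : ℝ, Commute (step l a) (step m b) := by
    intro a b
    have h3 : step l a = 1 ∨ step l a = t := by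
      rcases step_mem l a with h | h
      · exact Or.inl h
      · rcases hl with hl | hl
        · left; rw [h, hl]
        · right; rw [h, hl]
    have h4 : step m b = 1 ∨ step m b = s := by
      rcases step_mem m b with h | h
      · exact Or.inl h
      · rcases hm with hm | hm
        · left; rw [h, hm]
        · right; rw [h, hm]
    rcases h3 with h3 | h3 <;> rcases h4 with h4 | h4 <;> rw [h3, h4]
    · exact Commute.one_left _
    · exact Commute.one_right _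
    · exact hst.symm
  have e1 := (hcomm q.1.2.1 q.1.1).eq
  have e2 : step l q.2.2.1 * (step m q.1.1)⁻¹ = (step m q.1.1)⁻¹ * step l q.2.2.1 :=
    (hcomm q.2.2.1 q.1.1).inv_right.eq
  calc (step l q.1.2.1)⁻¹ * step l q.2.2.1 * ((step m q.1.1)⁻¹ * step m q.2.1)
      = (step l q.1.2.1)⁻¹ * (step l q.2.2.1 * (step m q.1.1)⁻¹) * step m q.2.1 := by group
    _ = (step l q.1.2.1)⁻¹ * ((step m q.1.1)⁻¹ * step l q.2.2.1) * step m q.2.1 := by rw [e2]
    _ = (step m q.1.1 * step l q.1.2.1)⁻¹ * (step l q.2.2.1 * step m q.2.1) := by group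
    _ = _ := by rw [← e1]

def N1 (n : ℕ) : Set R3 := R1s ∪ sg1i ⁻¹' (NN n)
def N2 (n : ℕ) : Set R3 := R2s ∪ sg2i ⁻¹' (NN n)

theorem KK_sub_NN' (n : ℕ) : KK ⊆ NN n := by
  cases n with
  | zero => exact fun _ h => KK_BB h
  | succ n => exact KK_sub_NN n

theorem end_KK {p : R3} (h1 : p ∈ BB) (h2 : p ∉ BBo) (h3 : p.2.1 = 0 ∧ p.2.2 = 0) : p ∈ KK := by
  simp only [BB, BBo, mem_ofPred_eq, h3.1, h3.2, abs_zero, abs_le] at h1 h2
  have h4 : ¬ |p.1| < 20 := fun h => h2 ⟨h, by norm_num, by norm_num⟩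
  rw [abs_lt, not_and_or, not_lt, not_lt] at h4
  rcases h4 with h4 | h4
  · left; left
    refine ⟨h1.1.1, by linarith, ?_, ?_⟩
    · rw [h3.1, abs_zero]; linarith [h1.1.1]
    · rw [h3.2, abs_zero]; norm_num
  · right
    show tau p ∈ KL
    left
    refine ⟨?_, ?_, ?_, ?_⟩ <;> simp only [tau]
    · linarith [h1.1.2]
    · linarith
    · rw [h3.2, abs_zero]; linarith [h1.1.2]
    · rw [h3.1, abs_zero]; norm_num

/-- near the second box -/
theorem hh0_box2 (s t : G) {p : R3} (h : sg2i p ∈ BB) :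
    ∀ᶠ q in 𝓝 (p, p), hh0 s t q.1 q.2 = std t (sg2i q.1) (sg2i q.2) := by
  classical
  simp only [BB, sg2i, mem_ofPred_eq, abs_le] at h
  have a1 : -60 < p.1 := by linarith [h.1.1]
  have a2 : p.1 < 60 := by linarith [h.1.2]
  have a3 : 10 < p.2.2 := by linarith [h.2.2.1]
  filter_upwards [ev_pair (ev_gt_x a1), ev_pair (ev_lt_x a2), ev_pair (ev_gt_z a3)] with q k1 k2 k3
  have e2 : cc2 s q.1 q.2 = 1 := by
    unfold cc2 Sl
    rw [if_neg (by linarith [k3.1])]
    unfold step; simp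
  unfold hh0
  rw [e2, mul_one]
  unfold cc1 std Ystd Tl sg2i
  have : (|q.1.1| < 60 ∧ |q.1.2.2| < 60) ↔ q.1.2.2 - 60 < 0 := by
    rw [abs_lt, abs_lt]
    constructor
    · rintro ⟨-, -, h⟩; linarith
    · intro h; exact ⟨⟨k1.1, k2.1⟩, by linarith [k3.1], by linarith⟩
  simp only [this]

/-- near the first box -/
theorem hh0_box1 (s t : G) {p : R3} (h : sg1i p ∈ BB) :
    ∀ᶠ q in 𝓝 (p, p), hh0 s t q.1 q.2 = std s (sg1i q.1) (sg1i q.2) := by
  classical
  simp only [BB, sg1i, mem_ofPred_eq, abs_le] at h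
  have a1 : 10 < p.2.1 := by linarith [h.1.1]
  filter_upwards [ev_pair (ev_gt_y a1)] with q k1
  have e1 : cc1 t q.1 q.2 = 1 := by
    unfold cc1
    rw [step_same]
    exact ⟨fun h => by linarith [k1.1], fun h => by linarith [k1.2]⟩
  unfold hh0
  rw [e1, one_mul]
  unfold cc2 std Ystd Sl sg1i
  rfl

theorem box_far {p : R3} (h1 : sg1i p ∈ BB) (h2 : sg2i p ∈ BB) : False := by
  simp only [BB, sg1i, sg2i, mem_ofPred_eq, abs_le] at h1 h2
  linarith [h1.1.1, h2.2.1.2]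

theorem ring_mem {p : R3} (hy : p.2.1 = 0) (h : max |p.1| |p.2.2| = 60) :
    p ∈ R2s ∨ sg2i p ∈ BB := by
  have h1 : |p.1| ≤ 60 := by rw [← h]; exact le_max_left _ _
  have h2 : |p.2.2| ≤ 60 := by rw [← h]; exact le_max_right _ _
  rw [abs_le] at h1 h2
  rcases le_total p.2.2 (-40) with hz | hz
  · left; left; left
    simp only [Bar, mem_ofPred_eq, abs_le, hy]
    refine ⟨⟨?_, ?_⟩, ⟨?_, ?_⟩, ?_, ?_⟩ <;> linarith
  · rcases le_total p.1 (-40) with hx | hx
    · left; left; right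
      simp only [PL, mem_ofPred_eq, abs_le, hy]
      refine ⟨⟨?_, ?_⟩, ⟨?_, ?_⟩, ?_, ?_⟩ <;> linarith
    · rcases le_total 40 p.1 with hx' | hx'
      · left; right
        simp only [PR, mem_ofPred_eq, abs_le, hy]
        refine ⟨⟨?_, ?_⟩, ⟨?_, ?_⟩, ?_, ?_⟩ <;> linarith
      · right
        have h3 : |p.1| ≤ 40 := abs_le.2 ⟨hx, hx'⟩
        have h4 : |p.2.2| = 60 := by
          rcases max_choice |p.1| |p.2.2| with h5 | h5
          · rw [h5] at h; linarith
          · rw [h5] at h; exact h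
        have h5 : p.2.2 = 60 := by
          rcases abs_choice p.2.2 with h6 | h6
          · rw [← h6]; exact h4
          · rw [h6] at h4; linarith
        simp only [BB, sg2i, mem_ofPred_eq, abs_le, hy, h5]
        refine ⟨⟨?_, ?_⟩, ⟨?_, ?_⟩, ?_, ?_⟩ <;> linarith

theorem rod_mem {p : R3} (hx : p.1 = 0) (hz : p.2.2 = 0) : p ∈ R1s ∨ sg1i p ∈ BB := by
  by_cases h : 200 ≤ ‖p‖
  · exact Or.inl (Or.inl h)
  · push Not at h
    rw [norm3_lt_iff] at h
    have h1 := abs_lt.1 h.2.1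
    rcases le_total p.2.1 160 with h2 | h2
    · left; right
      simp only [Rod, mem_ofPred_eq, hx, hz, abs_zero]
      exact ⟨by norm_num, ⟨by linarith, h2⟩, by norm_num⟩
    · right
      simp only [BB, sg1i, mem_ofPred_eq, abs_le, hx, hz]
      refine ⟨⟨?_, ?_⟩, ⟨?_, ?_⟩, ?_, ?_⟩ <;> linarith

/-- the global cocycle of stage `n` -/
theorem global_coc {L : Set G} (hL : ∀ g ∈ L, ∃ b ∈ L, ∃ c ∈ L, g = c * b * c⁻¹ * b⁻¹)
    {s t : G} (hs : s ∈ L) (ht : t ∈ L) (hst : s * t = t * s) (n : ℕ) :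
    ∃ h : R3 → R3 → G, (∀ p, p ∉ N1 n ∪ N2 n → LTat h p) ∧
      (∀ u v : R3, sg1i u ∉ BB → sg2i u ∉ BB → h u v = hh0 s t u v) := by
  classical
  obtain ⟨h1, h1a, h1b⟩ := gadget_coc hL n s hs
  obtain ⟨h2, h2a, h2b⟩ := gadget_coc hL n t ht
  let h : R3 → R3 → G := fun u v => if sg2i u ∈ BBo ∧ sg2i v ∈ BBo then h2 (sg2i u) (sg2i v) else
    if sg1i u ∈ BBo ∧ sg1i v ∈ BBo then h1 (sg1i u) (sg1i v) else hh0 s t u v
  have hev1 : ∀ {p : R3}, sg1i p ∉ BB → ∀ᶠ u in 𝓝 p, sg1i u ∉ BB := fun {p} hp =>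
    (BB_closed.preimage sg1i_cont).isOpen_compl.mem_nhds hp
  have hev2 : ∀ {p : R3}, sg2i p ∉ BB → ∀ᶠ u in 𝓝 p, sg2i u ∉ BB := fun {p} hp =>
    (BB_closed.preimage sg2i_cont).isOpen_compl.mem_nhds hp
  have hout : ∀ u v : R3, sg1i u ∉ BB → sg2i u ∉ BB → h u v = hh0 s t u v := by
    intro u v k1 k2
    show (if _ then _ else if _ then _ else _) = _
    rw [if_neg (fun hc => k2 (BBo_sub_BB hc.1)), if_neg (fun hc => k1 (BBo_sub_BB hc.1))]
  refine ⟨h, ?_, hout⟩
  intro p hp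
  have hp1 : sg1i p ∉ NN n := fun hc => hp (Or.inl (Or.inr hc))
  have hp2 : sg2i p ∉ NN n := fun hc => hp (Or.inr (Or.inr hc))
  have hR1 : p ∉ R1s := fun hc => hp (Or.inl (Or.inl hc))
  have hR2 : p ∉ R2s := fun hc => hp (Or.inr (Or.inl hc))
  by_cases hb2 : sg2i p ∈ BB
  · have hb1 : sg1i p ∉ BB := fun hc => box_far hc hb2
    by_cases ho : sg2i p ∈ BBo
    · refine (LTat.comp sg2i_cont (h2a _ hb2 hp2)).congr ?_
      have : ∀ᶠ u in 𝓝 p, sg2i u ∈ BBo := (BBo_open.preimage sg2i_cont).mem_nhds ho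
      filter_upwards [ev_pair this] with q hq
      show (if _ then _ else _) = _
      rw [if_pos hq]
    · have hax : ¬ ((sg2i p).2.1 = 0 ∧ (sg2i p).2.2 = 0) :=
        fun h => hp2 (KK_sub_NN' n (end_KK hb2 ho h))
      refine (LTat.comp sg2i_cont (std_LT t hax)).congr ?_
      have e1 := h2b (sg2i p) (fun h => ho (Bin_BBo h))
      have hc : Continuous (fun q : R3 × R3 => (sg2i q.1, sg2i q.2)) :=
        (sg2i_cont.comp continuous_fst).prodMk (sg2i_cont.comp continuous_snd)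
      have e1' := (hc.tendsto (p, p)).eventually e1
      filter_upwards [e1', hh0_box2 s t hb2, ev_pair (hev1 hb1)] with q k1 k2 k3
      show (if _ then _ else if _ then _ else _) = _
      split_ifs with hh1 hh2
      · exact k1
      · exact absurd (BBo_sub_BB hh2.1) k3.1
      · exact k2
  · by_cases hb1 : sg1i p ∈ BB
    · by_cases ho : sg1i p ∈ BBo
      · refine (LTat.comp sg1i_cont (h1a _ hb1 hp1)).congr ?_
        have : ∀ᶠ u in 𝓝 p, sg1i u ∈ BBo := (BBo_open.preimage sg1i_cont).mem_nhds ho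
        filter_upwards [ev_pair this, ev_pair (hev2 hb2)] with q hq hq2
        show (if _ then _ else if _ then _ else _) = _
        rw [if_neg (fun hc => hq2.1 (BBo_sub_BB hc.1)), if_pos hq]
      · have hax : ¬ ((sg1i p).2.1 = 0 ∧ (sg1i p).2.2 = 0) :=
          fun h => hp1 (KK_sub_NN' n (end_KK hb1 ho h))
        refine (LTat.comp sg1i_cont (std_LT s hax)).congr ?_
        have e1 := h1b (sg1i p) (fun h => ho (Bin_BBo h))
        have hc : Continuous (fun q : R3 × R3 => (sg1i q.1, sg1i q.2)) :=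
          (sg1i_cont.comp continuous_fst).prodMk (sg1i_cont.comp continuous_snd)
        have e1' := (hc.tendsto (p, p)).eventually e1
        filter_upwards [e1', hh0_box1 s t hb1, ev_pair (hev2 hb2)] with q k1 k2 k3
        show (if _ then _ else if _ then _ else _) = _
        split_ifs with hh1 hh2
        · exact absurd (BBo_sub_BB hh1.1) k3.1
        · exact k1
        · exact k2
    · refine (hh0_LT hst ?_ ?_).congr ?_
      · intro hy hm
        rcases ring_mem hy hm with h | h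
        · exact hR2 h
        · exact hb2 h
      · intro hx hz
        rcases rod_mem hx hz with h | h
        · exact hR1 h
        · exact hb1 h
      · filter_upwards [ev_pair (hev1 hb1), ev_pair (hev2 hb2)] with q k1 k2
        exact hout _ _ k1.1 k2.1

end

end Sph9fe
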