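import Pool.Agent.Work.MP_9fe036_gt.Core

namespace Sph9fe

open Topology Filter Set

section glue

variable {X G : Type*} [TopologicalSpace X] [Group G]

theorem TrivOn.mul_left {A : Set X} {k : X → X → G} {ψ : X → G} (h : TrivOn A k ψ) (c : G) :
    TrivOn A k (fun a => c * ψ a) := by
  intro a ha
  filter_upwards [h a ha] with b hb
  rw [hb]; group

theorem glue_closed {k : X → X → G} (hk : LocTriv univ k) {A B : Set X} (hA : IsClosed A)
    (hB : IsClosed B) (hAB : A ∪ B = univ) (hpre : IsPreconnected (A ∩ B)) {φ ψ : X → G}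
    (hφ : TrivOn A k φ) (hψ : TrivOn B k ψ) : ∃ χ : X → G, TrivOn univ k χ := by
  classical
  -- normalise
  obtain ⟨ψ', hψ', heq⟩ : ∃ ψ' : X → G, TrivOn B k ψ' ∧ ∀ x ∈ A ∩ B, ψ' x = φ x := by
    rcases (A ∩ B).eq_empty_or_nonempty with he | ⟨o, ho⟩
    · exact ⟨ψ, hψ, fun x hx => by rw [he] at hx; exact absurd hx (by simp)⟩
    · refine ⟨fun x => (φ o * (ψ o)⁻¹) * ψ x, hψ.mul_left _, fun x hx => ?_⟩
      have := TrivOn.unique hpre (hψ.mono inter_subset_right) (hφ.mono inter_subset_left) ho hx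
      show φ o * (ψ o)⁻¹ * ψ x = φ x
      rw [this]; group
  refine ⟨fun x => if x ∈ A then φ x else ψ' x, ?_⟩
  intro a _
  rw [nhdsWithin_univ]
  obtain ⟨σ, hσ⟩ := hk a (mem_univ a)
  have hσ1 : ∀ᶠ b in 𝓝 a, k a b = (σ a)⁻¹ * σ b := by
    have : Tendsto (fun b : X => (a, b)) (𝓝 a) (𝓝 (a, a)) := by
      have : Continuous (fun b : X => (a, b)) := by fun_prop
      exact this.tendsto a
    exact this.eventually hσ
  have hAe : a ∈ A → ∀ᶠ b in 𝓝 a, b ∈ A → φ b = φ a * (σ a)⁻¹ * σ b := by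
    intro haA
    have h1 := hφ a haA
    rw [eventually_nhdsWithin_iff] at h1
    filter_upwards [h1, hσ1] with b h1 h2 hb
    have := (h1 hb).symm.trans h2
    calc φ b = φ a * ((φ a)⁻¹ * φ b) := by group
      _ = φ a * (σ a)⁻¹ * σ b := by rw [this]; group
  have hBe : a ∈ B → ∀ᶠ b in 𝓝 a, b ∈ B → ψ' b = ψ' a * (σ a)⁻¹ * σ b := by
    intro haB
    have h1 := hψ' a haB
    rw [eventually_nhdsWithin_iff] at h1
    filter_upwards [h1, hσ1] with b h1 h2 hb
    have := (h1 hb).symm.trans h2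
    calc ψ' b = ψ' a * ((ψ' a)⁻¹ * ψ' b) := by group
      _ = ψ' a * (σ a)⁻¹ * σ b := by rw [this]; group
  by_cases haA : a ∈ A
  · by_cases haB : a ∈ B
    · filter_upwards [hAe haA, hBe haB, hσ1] with b h1 h2 h3
      simp only [haA, if_true]
      rw [h3]
      by_cases hb : b ∈ A
      · simp only [hb, if_true]; rw [h1 hb]; group
      · have hbB : b ∈ B := by
          have := mem_univ b; rw [← hAB] at this; exact this.resolve_left hb
        simp only [hb, if_false]; rw [h2 hbB, heq a ⟨haA, haB⟩]; group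
    · have : ∀ᶠ b in 𝓝 a, b ∉ B := hB.isOpen_compl.mem_nhds haB
      filter_upwards [hAe haA, this, hσ1] with b h1 h2 h3
      have hb : b ∈ A := by
        have := mem_univ b; rw [← hAB] at this; exact this.resolve_right h2
      simp only [haA, hb, if_true]; rw [h3, h1 hb]; group
  · have haB : a ∈ B := by
      have := mem_univ a; rw [← hAB] at this; exact this.resolve_left haA
    have : ∀ᶠ b in 𝓝 a, b ∉ A := hA.isOpen_compl.mem_nhds haA
    filter_upwards [hBe haB, this, hσ1] with b h1 h2 h3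
    have hb : b ∈ B := by
      have := mem_univ b; rw [← hAB] at this; exact this.resolve_left h2
    simp only [haA, h2, if_false]; rw [h3, h1 hb]; group

end glue

abbrev E2 := EuclideanSpace ℝ (Fin 2)
abbrev E3 := EuclideanSpace ℝ (Fin 3)
abbrev S2 := Metric.sphere (0 : E3) 1

theorem mem_S2 (p : E3) : p ∈ Metric.sphere (0 : E3) 1 ↔ p 0 ^ 2 + p 1 ^ 2 + p 2 ^ 2 = 1 := by
  rw [mem_sphere_zero_iff_norm, EuclideanSpace.norm_eq, Fin.sum_univ_three]
  simp only [Real.norm_eq_abs, sq_abs]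
  rw [Real.sqrt_eq_one]

/-- hemisphere parametrisation -/
noncomputable def hemi (ε : ℝ) (x : E2) : E3 :=
  !₂[2 * x 0 / (1 + (x 0 ^ 2 + x 1 ^ 2)), 2 * x 1 / (1 + (x 0 ^ 2 + x 1 ^ 2)),
    ε * ((1 - (x 0 ^ 2 + x 1 ^ 2)) / (1 + (x 0 ^ 2 + x 1 ^ 2)))]

theorem hemi_mem (ε : ℝ) (hε : ε ^ 2 = 1) (x : E2) : hemi ε x ∈ Metric.sphere (0 : E3) 1 := by
  rw [mem_S2]
  have : (0 : ℝ) < 1 + (x 0 ^ 2 + x 1 ^ 2) := by positivity
  simp only [hemi]
  simp
  field_simp
  rw [hε]
  ring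

noncomputable def hemiS (ε : ℝ) (hε : ε ^ 2 = 1) (x : E2) : S2 := ⟨hemi ε x, hemi_mem ε hε x⟩

theorem hemiS_cont (ε : ℝ) (hε : ε ^ 2 = 1) : Continuous (hemiS ε hε) := by
  refine Continuous.subtype_mk ?_ _
  unfold hemi
  have h0 : ∀ x : E2, (1 + (x 0 ^ 2 + x 1 ^ 2)) ≠ 0 := fun x => by positivity
  have c0 : Continuous (fun x : E2 => x 0) := by fun_prop
  have c1 : Continuous (fun x : E2 => x 1) := by fun_prop
  refine (PiLp.continuous_toLp 2 _).comp ?_
  refine continuous_pi fun i => ?_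
  fin_cases i
  · exact (by fun_prop : Continuous fun x : E2 => 2 * x 0).div (by fun_prop) h0
  · exact (by fun_prop : Continuous fun x : E2 => 2 * x 1).div (by fun_prop) h0
  · exact continuous_const.mul ((by fun_prop : Continuous fun x : E2 => (1 - (x 0 ^ 2 + x 1 ^ 2))).div (by fun_prop) h0)

/-- inverse of the hemisphere parametrisation -/
noncomputable def hproj (ε : ℝ) (p : S2) : E2 :=
  !₂[p.1 0 / (1 + ε * p.1 2), p.1 1 / (1 + ε * p.1 2)]

theorem hproj_cont (ε : ℝ) : ContinuousOn (hproj ε) {p : S2 | 0 ≤ ε * p.1 2} := by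
  unfold hproj
  refine (PiLp.continuous_toLp 2 _).comp_continuousOn ?_
  refine continuousOn_pi.2 fun i => ?_
  have c : ∀ i : Fin 3, Continuous (fun p : S2 => p.1 i) := fun i => by fun_prop
  have hne : ∀ p ∈ {p : S2 | 0 ≤ ε * p.1 2}, (1 + ε * p.1 2) ≠ 0 := by
    intro p hp; have : 0 ≤ ε * p.1 2 := hp; positivity
  fin_cases i
  · exact ContinuousOn.div (c 0).continuousOn (by fun_prop) hne
  · exact ContinuousOn.div (c 1).continuousOn (by fun_prop) hne

theorem hproj_mem (ε : ℝ) (hε : ε ^ 2 = 1) (p : S2) (hp : 0 ≤ ε * p.1 2) :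
    hproj ε p ∈ Metric.closedBall (0 : E2) 1 := by
  rw [mem_closedBall_zero_iff, EuclideanSpace.norm_eq, Fin.sum_univ_two, Real.sqrt_le_one]
  simp only [hproj, Real.norm_eq_abs, sq_abs]
  simp
  have h1 : (0:ℝ) < 1 + ε * p.1 2 := by positivity
  have h2 := (mem_S2 p.1).1 p.2
  rw [div_pow, div_pow, ← add_div, div_le_one (by positivity)]
  nlinarith

theorem hemi_hproj (ε : ℝ) (hε : ε ^ 2 = 1) (p : S2) (hp : 0 ≤ ε * p.1 2) :
    hemiS ε hε (hproj ε p) = p := by
  apply Subtype.ext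
  have h1 : (0:ℝ) < 1 + ε * p.1 2 := by positivity
  have h2 := (mem_S2 p.1).1 p.2
  have h3 : (p.1 0 / (1 + ε * p.1 2)) ^ 2 + (p.1 1 / (1 + ε * p.1 2)) ^ 2 =
      (1 - ε * p.1 2) / (1 + ε * p.1 2) := by
    rw [div_pow, div_pow, ← add_div, div_eq_div_iff (by positivity) (by positivity)]
    have : p.1 0 ^ 2 + p.1 1 ^ 2 = (1 - ε * p.1 2) * (1 + ε * p.1 2) := by
      have : (ε * p.1 2) ^ 2 = p.1 2 ^ 2 := by rw [mul_pow, hε, one_mul]
      nlinarith
    rw [this]; ring
  ext i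
  simp only [hemiS, hemi, hproj]
  fin_cases i
  · simp
    rw [h3]; field_simp; ring
  · simp
    rw [h3]; field_simp; ring
  · simp
    rw [h3]; field_simp; rw [show ε * (1 + ε * p.1 2 - (1 - ε * p.1 2)) = 2 * (ε ^ 2 * p.1 2) by ring, hε]; ring


theorem equator_preconnected :
    IsPreconnected ({p : S2 | 0 ≤ p.1 2} ∩ {p : S2 | p.1 2 ≤ 0}) := by
  have hmem : ∀ t : ℝ, (!₂[Real.cos t, Real.sin t, 0] : E3) ∈ Metric.sphere (0 : E3) 1 := by
    intro t; rw [mem_S2]; simp
  let c : ℝ → S2 := fun t => ⟨!₂[Real.cos t, Real.sin t, 0], hmem t⟩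
  have hc : Continuous c := by
    refine Continuous.subtype_mk ?_ _
    refine (PiLp.continuous_toLp 2 _).comp ?_
    refine continuous_pi fun i => ?_
    fin_cases i
    · exact Real.continuous_cos
    · exact Real.continuous_sin
    · exact continuous_const
  have himg : ({p : S2 | 0 ≤ p.1 2} ∩ {p : S2 | p.1 2 ≤ 0}) = c '' univ := by
    ext p
    simp only [mem_inter_iff, mem_ofPred_eq, image_univ, mem_range]
    constructor
    · rintro ⟨h1, h2⟩
      have h0 : p.1 2 = 0 := le_antisymm h2 h1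
      have h3 := (mem_S2 p.1).1 p.2
      rw [h0] at h3
      have h4 : (⟨p.1 0, p.1 1⟩ : ℂ) ≠ 0 := by
        intro h
        have ha := congrArg Complex.re h
        have hb := congrArg Complex.im h
        simp at ha hb
        rw [ha, hb] at h3; norm_num at h3
      have hn : ‖(⟨p.1 0, p.1 1⟩ : ℂ)‖ = 1 := by
        have : ‖(⟨p.1 0, p.1 1⟩ : ℂ)‖ ^ 2 = 1 := by
          rw [Complex.sq_norm, Complex.normSq_mk]; nlinarith
        nlinarith [norm_nonneg (⟨p.1 0, p.1 1⟩ : ℂ)]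
      refine ⟨Complex.arg ⟨p.1 0, p.1 1⟩, ?_⟩
      apply Subtype.ext
      ext i
      fin_cases i
      · show Real.cos _ = p.1 0
        rw [Complex.cos_arg h4, hn]; simp
      · show Real.sin _ = p.1 1
        rw [Complex.sin_arg, hn]; simp
      · show (0 : ℝ) = p.1 2
        rw [h0]
    · rintro ⟨t, rfl⟩
      simp [c]
  rw [himg]
  exact isPreconnected_univ.image _ hc.continuousOn

theorem hemisphere_triv {G : Type*} [Group G] {k : S2 → S2 → G} (hk : LocTriv univ k)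
    (ε : ℝ) (hε : ε ^ 2 = 1) : ∃ φ : S2 → G, TrivOn {p : S2 | 0 ≤ ε * p.1 2} k φ := by
  have h1 := hk.comp (hemiS_cont ε hε)
  obtain ⟨ψ, hψ⟩ := exists_trivOn_convex (D := Metric.closedBall (0 : E2) 1)
    (isCompact_closedBall _ _) (convex_closedBall _ _) (U := hemiS ε hε ⁻¹' univ) (by simp) h1
  refine ⟨fun p => ψ (hproj ε p), ?_⟩
  have h2 := hψ.comp (hproj_cont ε) (fun p hp => hproj_mem ε hε p hp)
  refine h2.congr ?_
  intro a ha
  filter_upwards [self_mem_nhdsWithin] with b hb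
  rw [hemi_hproj ε hε a ha, hemi_hproj ε hε b hb]

theorem sphere_triv {G : Type*} [Group G] {k : S2 → S2 → G} (hk : LocTriv univ k) :
    ∃ φ : S2 → G, TrivOn univ k φ := by
  obtain ⟨φ, hφ⟩ := hemisphere_triv hk 1 (by norm_num)
  obtain ⟨ψ, hψ⟩ := hemisphere_triv hk (-1) (by norm_num)
  have e1 : {p : S2 | 0 ≤ (1 : ℝ) * p.1 2} = {p : S2 | 0 ≤ p.1 2} := by ext p; simp
  have e2 : {p : S2 | 0 ≤ (-1 : ℝ) * p.1 2} = {p : S2 | p.1 2 ≤ 0} := by ext p; simp
  rw [e1] at hφ
  rw [e2] at hψ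
  have c : Continuous (fun p : S2 => p.1 2) := by fun_prop
  refine glue_closed hk (isClosed_le continuous_const c) (isClosed_le c continuous_const) ?_
    equator_preconnected hφ hψ
  ext p; simp [le_total]

/-- If a set `S` homeomorphic to the sphere lies in `U`, a locally trivial `h` on `U` is trivial near `S`. -/
theorem triv_near_sphere {X G : Type*} [MetricSpace X] [Group G] {S U : Set X}
    (e : S2 ≃ₜ S) (hSU : S ⊆ U) {h : X → X → G} (hh : LocTriv U h) :
    ∃ φ : X → G, ∀ p ∈ S, ∀ᶠ q in 𝓝 (p, p), h q.1 q.2 = (φ q.1)⁻¹ * φ q.2 := by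
  classical
  have hcont : Continuous (fun a : S2 => (e a : X)) := continuous_subtype_val.comp e.continuous
  have hk : LocTriv (univ : Set S2) (fun a b => h (e a) (e b)) :=
    (hh.comp hcont).mono (fun a _ => hSU (e a).2)
  obtain ⟨φ0, hφ0⟩ := sphere_triv hk
  -- function on S
  have hScomp : IsCompact S := by
    have : S = range (fun a : S2 => (e a : X)) := by
      ext x; constructor
      · intro hx; exact ⟨e.symm ⟨x, hx⟩, by simp⟩
      · rintro ⟨a, rfl⟩; exact (e a).2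
    rw [this]; exact isCompact_range hcont
  have hSne : S.Nonempty := by
    have hp : (!₂[1, 0, 0] : E3) ∈ Metric.sphere (0 : E3) 1 := by rw [mem_S2]; simp
    exact ⟨e ⟨_, hp⟩, (e ⟨_, hp⟩).2⟩
  let φ1 : X → G := fun x => if hx : x ∈ S then φ0 (e.symm ⟨x, hx⟩) else 1
  have hφ1 : TrivOn S h φ1 := by
    intro p hp
    have h1 := hφ0 (e.symm ⟨p, hp⟩) (mem_univ _)
    rw [nhdsWithin_univ] at h1
    have h2 : ∀ᶠ x : S in 𝓝 (⟨p, hp⟩ : S), h p x = (φ1 p)⁻¹ * φ1 x := by
      have ht : Tendsto e.symm (𝓝 (⟨p, hp⟩ : S)) (𝓝 (e.symm ⟨p, hp⟩)) :=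
        e.symm.continuous.tendsto _
      filter_upwards [ht.eventually h1] with x hx
      simp only [Homeomorph.apply_symm_apply] at hx
      simp only [φ1, hp, x.2, dif_pos, hx]
    rw [nhds_subtype_eq_comap, eventually_comap] at h2
    rw [eventually_nhdsWithin_iff]
    filter_upwards [h2] with x hx hxS
    exact hx ⟨x, hxS⟩ rfl
  -- nearest point
  choose π hπS hπ using fun x : X => hScomp.exists_infDist_eq_dist hSne x
  refine ⟨fun x => φ1 (π x) * h (π x) x, ?_⟩
  intro p hp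
  obtain ⟨σ, hσ⟩ := hh p (hSU hp)
  rw [nhds_prod_eq, Filter.Eventually, Metric.nhds_basis_ball.prod_self.mem_iff] at hσ
  obtain ⟨ε, hε, hsub⟩ := hσ
  have hloc : ∀ a b, dist a p < ε → dist b p < ε → h a b = (σ a)⁻¹ * σ b :=
    fun a b ha hb => hsub (Set.mk_mem_prod (Metric.mem_ball.2 ha) (Metric.mem_ball.2 hb))
  have h1 := hφ1 p hp
  rw [eventually_nhdsWithin_iff, Filter.Eventually, Metric.mem_nhds_iff] at h1
  obtain ⟨η, hη, hsub1⟩ := h1
  have key : ∀ x, dist x p < min ε η / 2 → φ1 (π x) * h (π x) x = φ1 p * (σ p)⁻¹ * σ x := by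
    intro x hx
    have hd : dist (π x) p < min ε η := by
      have : dist x (π x) ≤ dist x p := by rw [← hπ x]; exact Metric.infDist_le_dist_of_mem hp
      calc dist (π x) p ≤ dist (π x) x + dist x p := dist_triangle _ _ _
        _ < min ε η := by rw [dist_comm (π x) x]; linarith
    have hxε : dist x p < ε := by
      have := min_le_left ε η; have h0 : 0 < min ε η := lt_min hε hη; linarith
    have hdε : dist (π x) p < ε := lt_of_lt_of_le hd (min_le_left _ _)
    have e1 := hloc (π x) x hdε hxε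
    have e2 := hloc p (π x) (by simpa using hε) hdε
    have e3 : h p (π x) = (φ1 p)⁻¹ * φ1 (π x) :=
      hsub1 (Metric.mem_ball.2 (lt_of_lt_of_le hd (min_le_right _ _))) (hπS x)
    have e4 : φ1 (π x) = φ1 p * ((σ p)⁻¹ * σ (π x)) := by
      rw [← e2, e3]; group
    rw [e1, e4]; group
  have hb : ∀ᶠ q : X × X in 𝓝 (p, p), dist q.1 p < min ε η / 2 ∧ dist q.2 p < min ε η / 2 := by
    have h0 : 0 < min ε η / 2 := half_pos (lt_min hε hη)
    rw [nhds_prod_eq]
    exact Filter.prod_mem_prod (Metric.ball_mem_nhds p h0) (Metric.ball_mem_nhds p h0)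
  filter_upwards [hb] with q hq
  have hlt : min ε η / 2 < ε := by
    have := min_le_left ε η; have h0 : 0 < min ε η := lt_min hε hη; linarith
  rw [key _ hq.1, key _ hq.2, hloc q.1 q.2 (hq.1.trans hlt) (hq.2.trans hlt)]
  group

end Sph9fe
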