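import Pool.Agent.Work.MP_9fe036_gt.Front2
import Pool.Agent.Work.MP_9fe036_gt.Sphere

namespace Sph9fe

open Topology Filter Set

/-- topological spheres in `R3` -/
def IsSph (T : Set R3) : Prop := Nonempty (S2 ≃ₜ T)

theorem IsSph.isCompact {T : Set R3} (h : IsSph T) : IsCompact T := by
  obtain ⟨e⟩ := h
  have : CompactSpace T := e.compactSpace
  exact isCompact_iff_compactSpace.2 this

theorem IsSph.isClosed {T : Set R3} (h : IsSph T) : IsClosed T := h.isCompact.isClosed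

theorem IsSph.image {T : Set R3} (h : IsSph T) {F : R3 → R3} (hF : ContinuousOn F T)
    (hinj : InjOn F T) : IsSph (F '' T) := by
  have hc := h.isCompact
  obtain ⟨e⟩ := h
  have : CompactSpace T := e.compactSpace
  have h1 : Continuous (T.domRestrict F) := continuousOn_iff_continuous_domRestrict.1 hF
  have h2 : Function.Injective (T.domRestrict F) := (injOn_iff_injective).1 hinj
  have h3 := (h1.isClosedEmbedding h2).isEmbedding.toHomeomorph
  have h4 : range (T.domRestrict F) = F '' T := range_domRestrict _ _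
  exact ⟨e.trans (h3.trans (Homeomorph.setCongr h4))⟩

/-- the identification of `E3` and `R3` -/
noncomputable def Lin : E3 ≃ₜ R3 where
  toFun p := (p 0, p 1, p 2)
  invFun q := !₂[q.1, q.2.1, q.2.2]
  left_inv p := by
    ext i; fin_cases i <;> rfl
  right_inv q := rfl
  continuous_toFun := by fun_prop
  continuous_invFun := by
    refine (PiLp.continuous_toLp 2 _).comp ?_
    refine continuous_pi fun i => ?_
    fin_cases i
    · exact continuous_fst
    · exact continuous_fst.comp continuous_snd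
    · exact continuous_snd.comp continuous_snd

theorem isSph_unit : IsSph {p : R3 | ‖p‖ = 1} := by
  -- the cube in E3
  let s : Set E3 := {p | |p 0| ≤ 1 ∧ |p 1| ≤ 1 ∧ |p 2| ≤ 1}
  have hconv : Convex ℝ s := by
    intro x hx y hy a b ha hb hab
    obtain ⟨x0, x1, x2⟩ := hx
    obtain ⟨y0, y1, y2⟩ := hy
    have key : ∀ u v : ℝ, |u| ≤ 1 → |v| ≤ 1 → |a * u + b * v| ≤ 1 := by
      intro u v hu hv
      calc |a * u + b * v| ≤ |a * u| + |b * v| := abs_add_le _ _
        _ = a * |u| + b * |v| := by rw [abs_mul, abs_mul, abs_of_nonneg ha, abs_of_nonneg hb]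
        _ ≤ a * 1 + b * 1 := by gcongr
        _ = 1 := by linarith
    refine ⟨?_, ?_, ?_⟩
    · have := key _ _ x0 y0; simpa using this
    · have := key _ _ x1 y1; simpa using this
    · have := key _ _ x2 y2; simpa using this
  have hs : s = Lin ⁻¹' (Metric.closedBall (0 : R3) 1) := by
    ext p
    rw [mem_preimage, mem_closedBall_zero_iff, norm3_le_iff]
    rfl
  have hint : interior s = Lin ⁻¹' (Metric.ball (0 : R3) 1) := by
    rw [hs, ← Lin.preimage_interior, interior_closedBall _ one_ne_zero]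
  have hfr : frontier s = Lin ⁻¹' (Metric.sphere (0 : R3) 1) := by
    rw [hs, ← Lin.preimage_frontier, frontier_closedBall _ one_ne_zero]
  have hne : (interior s).Nonempty := by
    rw [hint]; exact ⟨Lin.symm 0, by simp⟩
  have hcomp : IsCompact s := by
    rw [hs]; exact Lin.isClosedEmbedding.isCompact_preimage (isCompact_closedBall _ _)
  obtain ⟨h, -, -, h3⟩ := exists_homeomorph_image_interior_closure_frontier_eq_unitBall hconv hne
    hcomp.isBounded
  have e1 : (frontier s) ≃ₜ S2 := (h.image (frontier s)).trans (Homeomorph.setCongr h3)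
  have e2 : (frontier s) ≃ₜ (Lin '' frontier s) := Lin.image (frontier s)
  have e3 : Lin '' frontier s = {p : R3 | ‖p‖ = 1} := by
    rw [hfr, Lin.image_preimage]
    ext p; simp
  exact ⟨e1.symm.trans (e2.trans (Homeomorph.setCongr e3))⟩

/-- grafting a disc -/
theorem graft {T : Set R3} (hT : IsSph T) {κ φ : R2 → R3} (hκ : Continuous κ) (hφ : Continuous φ)
    (hκi : ∀ x y, ‖x‖ ≤ 1 → ‖y‖ ≤ 1 → κ x = κ y → x = y)
    (hφi : ∀ x y, ‖x‖ ≤ 1 → ‖y‖ ≤ 1 → φ x = φ y → x = y)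
    (hκT : ∀ x, ‖x‖ ≤ 1 → κ x ∈ T) (hcl : IsClosed (T \ κ '' Metric.ball 0 1))
    (hbd : ∀ x, ‖x‖ = 1 → φ x = κ x)
    (hdisj : ∀ x, ‖x‖ < 1 → φ x ∉ T \ κ '' Metric.ball 0 1) :
    IsSph ((T \ κ '' Metric.ball 0 1) ∪ φ '' Metric.closedBall 0 1) := by
  classical
  set D : Set R2 := Metric.closedBall 0 1 with hD
  have hDc : IsCompact D := isCompact_closedBall _ _
  have hmem : ∀ x : R2, x ∈ D ↔ ‖x‖ ≤ 1 := fun x => by rw [hD]; simp
  have hκinj : InjOn κ D := fun x hx y hy h => hκi x y ((hmem x).1 hx) ((hmem y).1 hy) h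
  let inv : R3 → R2 := Function.invFunOn κ D
  have hinv : ∀ x ∈ D, inv (κ x) = x := fun x hx => hκinj.leftInvOn_invFunOn hx
  have hPcl : IsClosed (κ '' D) := (hDc.image hκ).isClosed
  have hinvc : ContinuousOn inv (κ '' D) := by
    rw [continuousOn_iff_isClosed]
    intro t ht
    refine ⟨κ '' (t ∩ D), ((hDc.inter_left ht).image hκ).isClosed, ?_⟩
    ext p
    constructor
    · rintro ⟨hp1, x, hx, rfl⟩
      refine ⟨⟨x, ⟨?_, hx⟩, rfl⟩, ⟨x, hx, rfl⟩⟩
      have : inv (κ x) ∈ t := hp1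
      rwa [hinv x hx] at this
    · rintro ⟨⟨x, ⟨hxt, hx⟩, rfl⟩, -⟩
      refine ⟨?_, ⟨x, hx, rfl⟩⟩
      show inv (κ x) ∈ t
      rwa [hinv x hx]
  let F : R3 → R3 := fun p => if p ∈ κ '' D then φ (inv p) else p
  have hF1 : ∀ x ∈ D, F (κ x) = φ x := by
    intro x hx
    show (if _ then _ else _) = _
    rw [if_pos ⟨x, hx, rfl⟩, hinv x hx]
  have hF2 : ∀ p ∈ T \ κ '' Metric.ball 0 1, F p = p := by
    intro p hp
    by_cases hpD : p ∈ κ '' D
    · obtain ⟨x, hx, rfl⟩ := hpD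
      rw [hF1 x hx]
      apply hbd
      refine le_antisymm ((hmem x).1 hx) ?_
      by_contra hcon
      push Not at hcon
      exact hp.2 ⟨x, by simpa using hcon, rfl⟩
    · show (if _ then _ else _) = _
      rw [if_neg hpD]
  have hTeq : T = κ '' D ∪ (T \ κ '' Metric.ball 0 1) := by
    ext p
    constructor
    · intro hp
      by_cases h : p ∈ κ '' Metric.ball 0 1
      · obtain ⟨x, hx, rfl⟩ := h
        left; exact ⟨x, Metric.ball_subset_closedBall hx, rfl⟩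
      · exact Or.inr ⟨hp, h⟩
    · rintro (⟨x, hx, rfl⟩ | hp)
      · exact hκT x ((hmem x).1 hx)
      · exact hp.1
  have hFc : ContinuousOn F T := by
    rw [hTeq]
    refine ContinuousOn.union_of_isClosed ?_ ?_ hPcl hcl
    · refine (hφ.comp_continuousOn hinvc).congr ?_
      rintro p ⟨x, hx, rfl⟩
      rw [hF1 x hx]; simp only [Function.comp, hinv x hx]
    · exact continuousOn_id.congr (fun p hp => hF2 p hp)
  have hFi : InjOn F T := by
    intro p hp q hq hpq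
    rw [hTeq] at hp hq
    have mix : ∀ x ∈ D, ∀ q ∈ T \ κ '' Metric.ball 0 1, F (κ x) = F q → κ x = q := by
      intro x hx q hq h
      rw [hF1 x hx, hF2 q hq] at h
      rcases ((hmem x).1 hx).lt_or_eq with h1 | h1
      · exact absurd (h ▸ hq) (hdisj x h1)
      · rw [← hbd x h1]; exact h
    rcases hp with ⟨x, hx, rfl⟩ | hp
    · rcases hq with ⟨y, hy, rfl⟩ | hq
      · rw [hF1 x hx, hF1 y hy] at hpq
        rw [hφi x y ((hmem x).1 hx) ((hmem y).1 hy) hpq]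
      · exact mix x hx q hq hpq
    · rcases hq with ⟨y, hy, rfl⟩ | hq
      · exact (mix y hy p hp hpq.symm).symm
      · rw [hF2 p hp, hF2 q hq] at hpq; exact hpq
  have himg : F '' T = (T \ κ '' Metric.ball 0 1) ∪ φ '' D := by
    ext p
    constructor
    · rintro ⟨q, hq, rfl⟩
      rw [hTeq] at hq
      rcases hq with ⟨x, hx, rfl⟩ | hq
      · right; exact ⟨x, hx, (hF1 x hx).symm⟩
      · left; rw [hF2 q hq]; exact hq
    · rintro (hp | ⟨x, hx, rfl⟩)
      · exact ⟨p, hp.1, hF2 p hp⟩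
      · exact ⟨κ x, hκT x ((hmem x).1 hx), hF1 x hx⟩
  rw [← himg]
  exact hT.image hFc hFi

/-- frontier condition -/
def Fr (R T : Set R3) : Prop := ∀ p ∈ R, p ∉ T → R ∈ 𝓝 p

theorem lathe_form (Ψ : ℝ → R2 → R3) {x : R2} (hx : ‖x‖ ≤ 1) :
    ∃ θ y, 0 ≤ θ ∧ θ ≤ 1 ∧ ‖y‖ ≤ 1 ∧ (θ = 1 ∨ ‖y‖ = 1) ∧ lathe Ψ x = Ψ θ y ∧ (‖x‖ < 1 → 0 < θ) := by
  refine ⟨2 * (1 - mm x), (mm x)⁻¹ • x, by linarith [mm_le x], by linarith [mm_ge x], norm_y hx,
    ?_, rfl, fun h => by linarith [mm_lt h]⟩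
  by_cases h : mm x = 1 / 2
  · left; rw [h]; norm_num
  · right; exact norm_y_eq hx h

/-- grafting a prism -/
theorem graft_lathe {T : Set R3} (hT : IsSph T) {Ψ : ℝ → R2 → R3}
    (hΨ : Continuous (fun q : ℝ × R2 => Ψ q.1 q.2))
    (hinj : ∀ θ θ' y y', 0 ≤ θ → θ ≤ 1 → 0 ≤ θ' → θ' ≤ 1 → ‖y‖ ≤ 1 → ‖y'‖ ≤ 1 →
      Ψ θ y = Ψ θ' y' → θ = θ' ∧ y = y')
    (hκT : ∀ x, ‖x‖ ≤ 1 → Ψ 0 x ∈ T) (hcl : IsClosed (T \ Ψ 0 '' Metric.ball 0 1))
    (hdisj : ∀ θ y, 0 < θ → θ ≤ 1 → ‖y‖ ≤ 1 → Ψ θ y ∉ T) :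
    IsSph ((T \ Ψ 0 '' Metric.ball 0 1) ∪ lathe Ψ '' Metric.closedBall 0 1) := by
  refine graft hT ?_ (lathe_cont hΨ) ?_ ?_ hκT hcl ?_ ?_
  · have : Continuous (fun x : R2 => ((0 : ℝ), x)) := by fun_prop
    exact hΨ.comp this
  · intro x y hx hy h
    exact (hinj 0 0 x y le_rfl zero_le_one le_rfl zero_le_one hx hy h).2
  · intro x y hx hy h
    exact lathe_inj hinj hx hy h
  · intro x hx; exact lathe_ge _ hx.ge
  · intro x hx h
    obtain ⟨θ, y, h0, h1, hy, -, he, hpos⟩ := lathe_form Ψ hx.le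
    rw [he] at h
    exact hdisj θ y (hpos hx) h1 hy h.1

theorem Fr_lathe {R T : Set R3} (h : Fr R T) {Ψ : ℝ → R2 → R3} {Q : Set R3}
    (hQ : ∀ p ∈ Q, ∃ θ y, 0 ≤ θ ∧ θ ≤ 1 ∧ ‖y‖ ≤ 1 ∧ Ψ θ y = p)
    (hO : ∀ θ y, 0 < θ → θ < 1 → ‖y‖ < 1 → Q ∈ 𝓝 (Ψ θ y))
    (hB : ∀ y, ‖y‖ < 1 → R ∪ Q ∈ 𝓝 (Ψ 0 y)) :
    Fr (R ∪ Q) ((T \ Ψ 0 '' Metric.ball 0 1) ∪ lathe Ψ '' Metric.closedBall 0 1) := by
  rintro p (hp | hp) hpT
  · by_cases hT : p ∈ T
    · by_cases hb : p ∈ Ψ 0 '' Metric.ball 0 1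
      · obtain ⟨y, hy, rfl⟩ := hb
        exact hB y (by simpa using hy)
      · exact absurd (Or.inl ⟨hT, hb⟩) hpT
    · exact mem_of_superset (h p hp hT) subset_union_left
  · obtain ⟨θ, y, h0, h1, hy, rfl⟩ := hQ p hp
    by_cases hsurf : θ = 1 ∨ ‖y‖ = 1
    · obtain ⟨hx, hxe⟩ := lathe_surj Ψ h0 h1 hy hsurf
      exact absurd (Or.inr ⟨_, by simpa using hx, hxe⟩) hpT
    · push Not at hsurf
      have hy1 : ‖y‖ < 1 := lt_of_le_of_ne hy hsurf.2
      have h11 : θ < 1 := lt_of_le_of_ne h1 hsurf.1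
      rcases h0.eq_or_lt with h00 | h00
      · rw [← h00]; exact hB y hy1
      · exact mem_of_superset (hO θ y h00 h11 hy1) subset_union_right

/-- the final surface for a host -/
def surf (T : Set R3) (σ : R3 → R3) : Set R3 :=
  ((T \ ((fun y => σ (io y)) '' Metric.ball 0 1)) \ ((fun y => σ (tau (io y))) '' Metric.ball 0 1)) ∪
    σ '' YY

theorem io_inj {x y : R2} (h : io x = io y) : x = y := by
  simp only [io, Prod.mk.injEq] at h
  exact Prod.ext (by linarith [h.2.1]) (by linarith [h.2.2])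

theorem mem_YL_x {p : R3} (h : p ∈ YL) : p.1 ≤ 7 := by
  obtain ⟨x, hx, rfl⟩ := mem_YL.1 h
  exact ff_x_le hx

theorem host_sph {T : Set R3} (hT : IsSph T) {σ : R3 → R3} (hσ : Continuous σ)
    (hσi : Function.Injective σ)
    (h1 : ∀ y, ‖y‖ ≤ 1 → σ (io y) ∈ T) (h2 : ∀ y, ‖y‖ ≤ 1 → σ (tau (io y)) ∈ T)
    (hc1 : IsClosed (T \ (fun y => σ (io y)) '' Metric.ball 0 1))
    (hc2 : IsClosed (T \ (fun y => σ (tau (io y))) '' Metric.ball 0 1))
    (hD : ∀ p ∈ BB, |p.1| < 20 → σ p ∉ T) : IsSph (surf T σ) := by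
  have g1 : IsSph ((T \ (fun y => σ (io y)) '' Metric.ball 0 1) ∪
      (fun y => σ (ff y)) '' Metric.closedBall 0 1) := by
    refine graft hT (hσ.comp io_cont) (hσ.comp ff_cont) ?_ ?_ h1 hc1 ?_ ?_
    · intro x y _ _ h; exact io_inj (hσi h)
    · intro x y hx hy h; exact ff_inj hx hy (hσi h)
    · intro x hx; show σ (ff x) = σ (io x); rw [ff_bd hx.ge]
    · intro x hx h
      refine hD (ff x) (ff_BB hx.le) ?_ h.1
      rw [abs_lt]
      exact ⟨ff_x_gt hx, by linarith [ff_x_le hx.le]⟩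
  have e1 : (fun y => σ (ff y)) '' Metric.closedBall 0 1 = σ '' YL := by
    unfold YL; rw [image_image]
  rw [e1] at g1
  have hnoR : ∀ y : R2, σ (tau (io y)) ∉ σ '' YL := by
    rintro y ⟨q, hq, h⟩
    have := mem_YL_x hq
    rw [hσi h] at this
    simp only [tau, io] at this; linarith
  have hnoL : ∀ y : R2, σ (tau (io y)) ∉ (fun y => σ (io y)) '' Metric.ball 0 1 := by
    rintro y ⟨z, hz, h⟩
    have := congrArg Prod.fst (hσi h)
    simp only [tau, io] at this; linarith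
  have hcl : IsClosed (((T \ (fun y => σ (io y)) '' Metric.ball 0 1) ∪ σ '' YL) \
      (fun y => σ (tau (io y))) '' Metric.ball 0 1) := by
    have e : ((T \ (fun y => σ (io y)) '' Metric.ball 0 1) ∪ σ '' YL) \
      (fun y => σ (tau (io y))) '' Metric.ball 0 1 =
      ((T \ (fun y => σ (io y)) '' Metric.ball 0 1) ∩
        (T \ (fun y => σ (tau (io y))) '' Metric.ball 0 1)) ∪ σ '' YL := by
      ext p
      constructor
      · rintro ⟨hp | hp, hp'⟩
        · exact Or.inl ⟨hp, hp.1, hp'⟩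
        · exact Or.inr hp
      · rintro (⟨hp, hp'⟩ | hp)
        · exact ⟨Or.inl hp, hp'.2⟩
        · refine ⟨Or.inr hp, ?_⟩
          rintro ⟨y, -, rfl⟩
          exact hnoR y hp
    rw [e]
    exact (hc1.inter hc2).union (YL_compact.image hσ).isClosed
  have g2 := graft g1 (hσ.comp (tau_cont.comp io_cont)) (hσ.comp (tau_cont.comp ff_cont)) ?_ ?_ ?_
    hcl ?_ ?_
  · have e2 : (σ ∘ (tau ∘ ff)) '' Metric.closedBall 0 1 = σ '' (tau ⁻¹' YL) := by
      ext p
      constructor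
      · rintro ⟨x, hx, rfl⟩
        refine ⟨tau (ff x), ?_, rfl⟩
        show tau (tau (ff x)) ∈ YL
        rw [tau_tau]; exact ⟨x, hx, rfl⟩
      · rintro ⟨q, hq, rfl⟩
        obtain ⟨x, hx, hxq⟩ := hq
        exact ⟨x, hx, by show σ (tau (ff x)) = σ q; rw [hxq, tau_tau]⟩
    rw [e2] at g2
    have e3 : (((T \ (fun y => σ (io y)) '' Metric.ball 0 1) ∪ σ '' YL) \
      (fun y => σ (tau (io y))) '' Metric.ball 0 1) ∪ σ '' (tau ⁻¹' YL) = surf T σ := by
      unfold surf YY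
      rw [image_union]
      ext p
      constructor
      · rintro (⟨hp | hp, hp'⟩ | hp)
        · exact Or.inl ⟨hp, hp'⟩
        · exact Or.inr (Or.inl hp)
        · exact Or.inr (Or.inr hp)
      · rintro (hp | hp | hp)
        · exact Or.inl ⟨Or.inl hp.1, hp.2⟩
        · refine Or.inl ⟨Or.inr hp, ?_⟩
          rintro ⟨y, -, rfl⟩
          exact hnoR y hp
        · exact Or.inr hp
    rw [← e3]; exact g2
  · intro x y _ _ h; exact io_inj (tau_inj (hσi h))
  · intro x y hx hy h; exact ff_inj hx hy (tau_inj (hσi h))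
  · intro y hy; exact Or.inl ⟨h2 y hy, hnoL y⟩
  · intro x hx; show σ (tau (ff x)) = σ (tau (io x)); rw [ff_bd hx.ge]
  · intro x hx h
    have hx' : σ (tau (ff x)) ∈ T ∨ σ (tau (ff x)) ∈ σ '' YL := by
      rcases h.1 with h | h
      · exact Or.inl h.1
      · exact Or.inr h
    rcases hx' with h | h
    · refine hD (tau (ff x)) (tau_BB.2 (ff_BB hx.le)) ?_ h
      have a1 := ff_x_gt hx
      have a2 := ff_x_le hx.le
      simp only [tau]
      rw [abs_lt]; constructor <;> linarith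
    · obtain ⟨q, hq, hqe⟩ := h
      obtain ⟨z, hz, rfl⟩ := mem_YL.1 hq
      exact ff_ne_tau hz hx.le (hσi hqe)

theorem host_Fr {R T : Set R3} (h : Fr R T) {σ σi : R3 → R3} (hσi : Continuous σi)
    (h12 : ∀ p, σ (σi p) = p) (h21 : ∀ p, σi (σ p) = p)
    (hS1 : ∀ y, ‖y‖ < 1 → R ∪ σi ⁻¹' XX ∈ 𝓝 (σ (io y)))
    (hS2 : ∀ y, ‖y‖ < 1 → R ∪ σi ⁻¹' XX ∈ 𝓝 (σ (tau (io y)))) :
    Fr (R ∪ σi ⁻¹' XX) (surf T σ) := by
  rintro p (hp | hp) hpS
  · by_cases hT : p ∈ T
    · by_cases hb : p ∈ (fun y => σ (io y)) '' Metric.ball 0 1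
      · obtain ⟨y, hy, rfl⟩ := hb
        exact hS1 y (by simpa using hy)
      · by_cases hb' : p ∈ (fun y => σ (tau (io y))) '' Metric.ball 0 1
        · obtain ⟨y, hy, rfl⟩ := hb'
          exact hS2 y (by simpa using hy)
        · exact absurd (Or.inl ⟨⟨hT, hb⟩, hb'⟩) hpS
    · exact mem_of_superset (h p hp hT) subset_union_left
  · have hxY : σi p ∉ YY := fun hY => hpS (Or.inr ⟨_, hY, h12 p⟩)
    rcases XX_good hp hxY with hg | ⟨y, hy, hg⟩ | ⟨y, hy, hg⟩
    · have := hσi.continuousAt.preimage_mem_nhds hg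
      exact mem_of_superset this subset_union_right
    · have : p = σ (io y) := by rw [← hg, h12]
      rw [this]; exact hS1 y hy
    · have : p = σ (tau (io y)) := by rw [← hg, tau_tau, h12]
      rw [this]; exact hS2 y hy

end Sph9fe
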