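import Pool.Agent.Work.MP_9fe036_gt.Lathe

namespace Sph9fe

open Topology Filter Set

def q0 (x : R2) : R2 := (30 * x.1 + 13, 8 * x.2)
def q1 (x : R2) : R2 := (8 * x.2, 30 * x.1 - 13)
def q2 (x : R2) : R2 := (-2 * (30 * x.1 + 13), 16 * x.2)

theorem q0_cont : Continuous q0 := by unfold q0; fun_prop
theorem q1_cont : Continuous q1 := by unfold q1; fun_prop
theorem q2_cont : Continuous q2 := by unfold q2; fun_prop

noncomputable def G0 (x : R2) : R3 := (lathe ΨT x - io x) + (lathe ΨU (q0 x) - ΨU 0 (q0 x))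

theorem io_cont : Continuous io := by unfold io; fun_prop

theorem G0_cont : Continuous G0 := by
  have h1 := lathe_cont ΨT_cont
  have h2 := (lathe_cont ΨU_cont).comp q0_cont
  have h3 : Continuous (fun x => ΨU 0 (q0 x)) := by
    have : Continuous (fun x : R2 => ((0 : ℝ), q0 x)) := by
      have := q0_cont; fun_prop
    exact ΨU_cont.comp this
  have h4 := io_cont
  exact (h1.sub h4).add (h2.sub h3)

/-- linear part of `sc` -/
noncomputable def Lc : R3 →L[ℝ] R3 :=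
  ((1 / 2 : ℝ) • ContinuousLinearMap.fst ℝ ℝ (ℝ × ℝ)).prod
    (((1 / 4 : ℝ) • (ContinuousLinearMap.snd ℝ ℝ ℝ).comp (ContinuousLinearMap.snd ℝ ℝ (ℝ × ℝ))).prod
      ((1 / 4 : ℝ) • (ContinuousLinearMap.fst ℝ ℝ ℝ).comp (ContinuousLinearMap.snd ℝ ℝ (ℝ × ℝ))))

theorem Lc_apply (p : R3) : Lc p = (p.1 / 2, p.2.2 / 4, p.2.1 / 4) := by
  simp only [Lc]
  ext <;> simp <;> ring

/-- linear part of `sc ∘ tau` -/
noncomputable def Mc : R3 →L[ℝ] R3 :=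
  ((-1 / 2 : ℝ) • ContinuousLinearMap.fst ℝ ℝ (ℝ × ℝ)).prod
    (((1 / 4 : ℝ) • (ContinuousLinearMap.fst ℝ ℝ ℝ).comp (ContinuousLinearMap.snd ℝ ℝ (ℝ × ℝ))).prod
      ((1 / 4 : ℝ) • (ContinuousLinearMap.snd ℝ ℝ ℝ).comp (ContinuousLinearMap.snd ℝ ℝ (ℝ × ℝ))))

theorem Mc_apply (p : R3) : Mc p = (-p.1 / 2, p.2.1 / 4, p.2.2 / 4) := by
  simp only [Mc]
  ext <;> simp <;> ring

theorem norm3_le_iff (p : R3) {r : ℝ} : ‖p‖ ≤ r ↔ |p.1| ≤ r ∧ |p.2.1| ≤ r ∧ |p.2.2| ≤ r := by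
  rw [Prod.norm_def, max_le_iff, Prod.norm_def, max_le_iff, Real.norm_eq_abs, Real.norm_eq_abs,
    Real.norm_eq_abs]

theorem Lc_norm (p : R3) : ‖Lc p‖ ≤ ‖p‖ / 2 := by
  have h := (norm3_le_iff p).1 le_rfl
  have h0 := norm_nonneg p
  rw [norm3_le_iff, Lc_apply]
  simp only [abs_div, abs_two, show |(4:ℝ)| = 4 by norm_num]
  refine ⟨?_, ?_, ?_⟩ <;> linarith [h.1, h.2.1, h.2.2]

theorem Mc_norm (p : R3) : ‖Mc p‖ ≤ ‖p‖ / 2 := by
  have h := (norm3_le_iff p).1 le_rfl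
  have h0 := norm_nonneg p
  rw [norm3_le_iff, Mc_apply]
  simp only [abs_div, abs_neg, abs_two, show |(4:ℝ)| = 4 by norm_num]
  refine ⟨?_, ?_, ?_⟩ <;> linarith [h.1, h.2.1, h.2.2]

noncomputable def DD : ℕ → R2 → R3
  | 0 => G0
  | (n + 1) => fun x => Lc (DD n (q1 x)) + Mc (DD n (q2 x))

theorem DD_cont (n : ℕ) : Continuous (DD n) := by
  induction n with
  | zero => exact G0_cont
  | succ n ih =>
    exact (Lc.continuous.comp (ih.comp q1_cont)).add (Mc.continuous.comp (ih.comp q2_cont))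

theorem norm_q0 {x : R2} (h : 1 ≤ ‖x‖) : 1 ≤ ‖q0 x‖ := by
  by_contra hcon
  push Not at hcon
  rw [norm_lt_iff] at hcon
  simp only [q0, abs_lt] at hcon
  have : ‖x‖ < 1 := by
    rw [norm_lt_iff, abs_lt, abs_lt]
    refine ⟨⟨?_, ?_⟩, ?_, ?_⟩ <;> linarith [hcon.1.1, hcon.1.2, hcon.2.1, hcon.2.2]
  linarith

theorem norm_q1 {x : R2} (h : 1 ≤ ‖x‖) : 1 ≤ ‖q1 x‖ := by
  by_contra hcon
  push Not at hcon
  rw [norm_lt_iff] at hcon
  simp only [q1, abs_lt] at hcon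
  have : ‖x‖ < 1 := by
    rw [norm_lt_iff, abs_lt, abs_lt]
    refine ⟨⟨?_, ?_⟩, ?_, ?_⟩ <;> linarith [hcon.1.1, hcon.1.2, hcon.2.1, hcon.2.2]
  linarith

theorem norm_q2 {x : R2} (h : 1 ≤ ‖x‖) : 1 ≤ ‖q2 x‖ := by
  by_contra hcon
  push Not at hcon
  rw [norm_lt_iff] at hcon
  simp only [q2, abs_lt] at hcon
  have : ‖x‖ < 1 := by
    rw [norm_lt_iff, abs_lt, abs_lt]
    refine ⟨⟨?_, ?_⟩, ?_, ?_⟩ <;> linarith [hcon.1.1, hcon.1.2, hcon.2.1, hcon.2.2]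
  linarith

theorem norm_q12 (x : R2) : 1 ≤ ‖q1 x‖ ∨ 1 ≤ ‖q2 x‖ := by
  by_contra hcon
  push Not at hcon
  obtain ⟨h1, h2⟩ := hcon
  rw [norm_lt_iff] at h1 h2
  simp only [q1, q2, abs_lt] at h1 h2
  linarith [h1.2.1, h2.1.1]

theorem norm_q01 {x : R2} (h : ‖q1 x‖ ≤ 1) : 1 ≤ ‖q0 x‖ := by
  by_contra hcon
  push Not at hcon
  rw [norm_le_iff] at h
  rw [norm_lt_iff] at hcon
  simp only [q0, q1, abs_lt, abs_le] at h hcon
  linarith [h.2.1, hcon.1.2]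

theorem G0_zero {x : R2} (h : 1 ≤ ‖x‖) : G0 x = 0 := by
  unfold G0
  rw [lathe_ge _ h, ΨT_zero, lathe_ge _ (norm_q0 h)]; simp

theorem DD_zero (n : ℕ) : ∀ {x : R2}, 1 ≤ ‖x‖ → DD n x = 0 := by
  induction n with
  | zero => intro x h; exact G0_zero h
  | succ n ih =>
    intro x h
    show Lc (DD n (q1 x)) + Mc (DD n (q2 x)) = 0
    rw [ih (norm_q1 h), ih (norm_q2 h)]; simp

theorem G0_bdd : ∃ C, 0 ≤ C ∧ ∀ x, ‖G0 x‖ ≤ C := by
  obtain ⟨C, hC⟩ := (isCompact_closedBall (0 : R2) 1).exists_bound_of_continuousOn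
    G0_cont.continuousOn
  refine ⟨max C 0, le_max_right _ _, fun x => ?_⟩
  rcases le_or_gt ‖x‖ 1 with h | h
  · exact (hC x (by simpa using h)).trans (le_max_left _ _)
  · rw [G0_zero h.le]; simp

theorem DD_bdd : ∃ C, 0 ≤ C ∧ ∀ n x, ‖DD n x‖ ≤ C * (1 / 2) ^ n := by
  obtain ⟨C, hC0, hC⟩ := G0_bdd
  refine ⟨C, hC0, fun n => ?_⟩
  induction n with
  | zero => intro x; show ‖G0 x‖ ≤ _; simpa using hC x
  | succ n ih =>
    intro x
    show ‖Lc (DD n (q1 x)) + Mc (DD n (q2 x))‖ ≤ _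
    rcases norm_q12 x with h | h
    · rw [DD_zero n h]
      simp only [map_zero, zero_add]
      calc ‖Mc (DD n (q2 x))‖ ≤ ‖DD n (q2 x)‖ / 2 := Mc_norm _
        _ ≤ C * (1 / 2) ^ n / 2 := by linarith [ih (q2 x)]
        _ = _ := by ring
    · rw [DD_zero n h]
      simp only [map_zero, add_zero]
      calc ‖Lc (DD n (q1 x))‖ ≤ ‖DD n (q1 x)‖ / 2 := Lc_norm _
        _ ≤ C * (1 / 2) ^ n / 2 := by linarith [ih (q1 x)]
        _ = _ := by ring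

theorem DD_summable (x : R2) : Summable (fun n => DD n x) := by
  obtain ⟨C, hC0, hC⟩ := DD_bdd
  exact Summable.of_norm_bounded ((summable_geometric_two).mul_left C) (fun n => hC n x)

/-- the horn -/
noncomputable def ff (x : R2) : R3 := io x + ∑' n, DD n x

theorem ff_cont : Continuous ff := by
  obtain ⟨C, hC0, hC⟩ := DD_bdd
  exact io_cont.add (continuous_tsum DD_cont ((summable_geometric_two).mul_left C) hC)

theorem dd_eq (x : R2) : ∑' n, DD n x = G0 x + (Lc (∑' n, DD n (q1 x)) + Mc (∑' n, DD n (q2 x))) := by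
  rw [(DD_summable x).tsum_eq_zero_add]
  congr 1
  rw [Lc.map_tsum (DD_summable _), Mc.map_tsum (DD_summable _),
    ← ((DD_summable (q1 x)).mapL Lc).tsum_add ((DD_summable (q2 x)).mapL Mc)]
  rfl

theorem dd_zero {x : R2} (h : 1 ≤ ‖x‖) : ∑' n, DD n x = 0 := by
  have : (fun n => DD n x) = fun _ => 0 := by
    funext n; exact DD_zero n h
  rw [this]; simp

theorem ff_bd {x : R2} (h : 1 ≤ ‖x‖) : ff x = io x := by
  unfold ff; rw [dd_zero h, add_zero]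

theorem sc_eq (p q : R3) : sc p = sc q + Lc (p - q) := by
  rw [Lc_apply]; unfold sc; ext <;> simp <;> ring

theorem sct_eq (p q : R3) : sc (tau p) = sc (tau q) + Mc (p - q) := by
  rw [Mc_apply]; unfold sc tau; ext <;> simp <;> ring

theorem norm_of_q0 {x : R2} (h : ‖q0 x‖ ≤ 1) : ‖x‖ ≤ 1 / 2 := by
  rw [norm_le_iff] at h ⊢
  simp only [q0, abs_le] at h ⊢
  refine ⟨⟨?_, ?_⟩, ?_, ?_⟩ <;> linarith [h.1.1, h.1.2, h.2.1, h.2.2]

theorem norm_of_q1 {x : R2} (h : ‖q1 x‖ ≤ 1) : ‖x‖ ≤ 1 / 2 := by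
  rw [norm_le_iff] at h ⊢
  simp only [q1, abs_le] at h ⊢
  refine ⟨⟨?_, ?_⟩, ?_, ?_⟩ <;> linarith [h.1.1, h.1.2, h.2.1, h.2.2]

theorem q0_of_q2 {x : R2} (h : ‖q2 x‖ ≤ 1) : ‖q0 x‖ ≤ 1 / 2 := by
  rw [norm_le_iff] at h ⊢
  simp only [q0, q2, abs_le] at h ⊢
  refine ⟨⟨?_, ?_⟩, ?_, ?_⟩ <;> linarith [h.1.1, h.1.2, h.2.1, h.2.2]

theorem lathe_T_flat {x : R2} (h : ‖x‖ ≤ 1 / 2) : lathe ΨT x = (-16, 30 * x.1, 8 * x.2) := by
  rw [lathe_le _ h, ΨT_one]; ext <;> simp <;> ring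

/-- the value on the first child -/
theorem ff_q1 {x : R2} (h : ‖q1 x‖ ≤ 1) : ff x = sc (ff (q1 x)) := by
  have h2 : 1 ≤ ‖q2 x‖ := by
    by_contra hcon
    push Not at hcon
    rw [norm_le_iff] at h
    rw [norm_lt_iff] at hcon
    simp only [q1, q2, abs_lt, abs_le] at h hcon
    linarith [h.2.1, hcon.1.1]
  have hg : io x + G0 x = sc (io (q1 x)) := by
    unfold G0
    rw [lathe_ge _ (norm_q01 h), lathe_T_flat (norm_of_q1 h)]
    unfold sc io q1; ext <;> simp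
    norm_num
  rw [sc_eq (ff (q1 x)) (io (q1 x)), ← hg]
  have : ff (q1 x) - io (q1 x) = ∑' n, DD n (q1 x) := by unfold ff; simp
  rw [this]
  unfold ff
  rw [dd_eq x, dd_zero h2]; simp [add_assoc]

theorem ff_q2 {x : R2} (h : ‖q2 x‖ ≤ 1) : ff x = sc (tau (ff (q2 x))) := by
  have h2 : 1 ≤ ‖q1 x‖ := by
    by_contra hcon
    push Not at hcon
    rw [norm_le_iff] at h
    rw [norm_lt_iff] at hcon
    simp only [q1, q2, abs_lt, abs_le] at h hcon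
    linarith [h.1.1, hcon.2.1]
  have h0 := q0_of_q2 h
  have hx : ‖x‖ ≤ 1 / 2 := norm_of_q0 (by linarith)
  have hg : io x + G0 x = sc (tau (io (q2 x))) := by
    unfold G0
    rw [lathe_le _ h0, lathe_T_flat hx, ΨU_one, ΨU_zero]
    unfold sc tau io q2 q0; ext <;> simp
    · norm_num
    · ring
    · ring
  rw [sct_eq (ff (q2 x)) (io (q2 x)), ← hg]
  have : ff (q2 x) - io (q2 x) = ∑' n, DD n (q2 x) := by unfold ff; simp
  rw [this]
  unfold ff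
  rw [dd_eq x, dd_zero h2]; simp [add_assoc]

theorem ff_out {x : R2} (h1 : 1 ≤ ‖q1 x‖) (h2 : 1 ≤ ‖q2 x‖) : ff x = io x + G0 x := by
  unfold ff
  rw [dd_eq x, dd_zero h1, dd_zero h2]; simp

theorem ff_T {x : R2} (h0 : 1 ≤ ‖q0 x‖) (h1 : 1 ≤ ‖q1 x‖) : ff x = lathe ΨT x := by
  have h2 : 1 ≤ ‖q2 x‖ := by
    by_contra hcon
    push Not at hcon
    have := q0_of_q2 hcon.le
    linarith
  rw [ff_out h1 h2]
  unfold G0
  rw [lathe_ge _ h0]; simp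

theorem ff_U {x : R2} (h0 : ‖q0 x‖ ≤ 1) (h2 : 1 ≤ ‖q2 x‖) : ff x = lathe ΨU (q0 x) := by
  have h1 : 1 ≤ ‖q1 x‖ := by
    by_contra hcon
    push Not at hcon
    rw [norm_le_iff] at h0
    rw [norm_lt_iff] at hcon
    simp only [q0, q1, abs_lt, abs_le] at h0 hcon
    linarith [h0.1.2, hcon.2.1]
  rw [ff_out h1 h2]
  unfold G0
  rw [lathe_T_flat (norm_of_q0 h0), ΨU_zero]
  have : ((-16, 30 * x.1, 8 * x.2) : R3) = (-16, -13 + (q0 x).1, (q0 x).2) := by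
    unfold q0; ext <;> simp
  rw [this]; abel

end Sph9fe
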