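import Pool.Agent.Work.MP_9fe036_gt.Horn

namespace Sph9fe

open Topology Filter Set

theorem mem_BB {p : R3} : p ∈ BB ↔ ‖p‖ ≤ 20 := by
  rw [norm3_le_iff]; rfl

theorem ΨT_mem {θ : ℝ} {y : R2} (h0 : 0 ≤ θ) (h1 : θ ≤ 1) (hy : ‖y‖ ≤ 1) : ΨT θ y ∈ KT := by
  rw [norm_le_iff] at hy
  have a1 := abs_le.1 hy.1
  have a2 := abs_le.1 hy.2
  refine ⟨?_, ?_, ?_, ?_⟩
  · simp only [ΨT]; linarith
  · simp only [ΨT]; linarith
  · simp only [ΨT]
    rw [show -20 + 4 * θ + 20 = 4 * θ by ring, show 4 + 11 * (4 * θ / 4) = 4 + 11 * θ by ring,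
      abs_mul, abs_of_nonneg (show 0 ≤ 4 + 11 * θ by linarith)]
    nlinarith [hy.1, abs_nonneg y.1]
  · simp only [ΨT]
    rw [abs_mul, abs_of_nonneg (show (0:ℝ) ≤ 4 by norm_num)]
    linarith [hy.2]

theorem ΨU_mem {θ : ℝ} {y : R2} (h0 : 0 ≤ θ) (h1 : θ ≤ 1) (hy : ‖y‖ ≤ 1) : ΨU θ y ∈ KU := by
  rw [norm_le_iff] at hy
  have a1 := abs_le.1 hy.1
  refine ⟨?_, hy.2⟩
  unfold Strip
  simp only [ΨU]
  rcases le_total (3 * θ) 1 with ha | ha
  · left
    rw [cl_of_mem (show 0 ≤ 3 * θ by linarith) ha, cl_of_le (show 3 * θ - 1 ≤ 0 by linarith),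
      cl_of_le (show 3 * θ - 2 ≤ 0 by linarith)]
    refine ⟨?_, ?_, ?_, ?_⟩ <;> nlinarith
  · rcases le_total (3 * θ) 2 with hb | hb
    · right; left
      rw [cl_of_ge ha, cl_of_mem (show 0 ≤ 3 * θ - 1 by linarith) (by linarith),
        cl_of_le (show 3 * θ - 2 ≤ 0 by linarith)]
      refine ⟨?_, ?_, ?_, ?_⟩ <;> nlinarith
    · right; right
      rw [cl_of_ge ha, cl_of_ge (show 1 ≤ 3 * θ - 1 by linarith),
        cl_of_mem (show 0 ≤ 3 * θ - 2 by linarith) (by linarith)]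
      refine ⟨?_, ?_, ?_, ?_⟩ <;> nlinarith

theorem lathe_T_mem {x : R2} (h : ‖x‖ ≤ 1) : lathe ΨT x ∈ KT :=
  ΨT_mem (by linarith [mm_le x]) (by linarith [mm_ge x]) (norm_y h)

theorem lathe_U_mem {x : R2} (h : ‖x‖ ≤ 1) : lathe ΨU x ∈ KU :=
  ΨU_mem (by linarith [mm_le x]) (by linarith [mm_ge x]) (norm_y h)

theorem KT_BB {p : R3} (h : p ∈ KT) : p ∈ BB := by
  obtain ⟨h1, h2, h3, h4⟩ := h
  rw [abs_le] at h3 h4
  simp only [BB, mem_ofPred_eq, abs_le]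
  refine ⟨⟨?_, ?_⟩, ⟨?_, ?_⟩, ?_, ?_⟩ <;> linarith [h3.1, h3.2, h4.1, h4.2]

theorem KU_BB {p : R3} (h : p ∈ KU) : p ∈ BB := by
  obtain ⟨h1, h2⟩ := h
  rw [abs_le] at h2
  unfold Strip at h1
  simp only [BB, mem_ofPred_eq, abs_le]
  rcases h1 with h1 | h1 | h1 <;> obtain ⟨a1, a2, a3, a4⟩ := h1 <;>
    refine ⟨⟨?_, ?_⟩, ⟨?_, ?_⟩, ?_, ?_⟩ <;> linarith [h2.1, h2.2]

theorem C1_BB {p : R3} (h : sinv p ∈ BB) : p ∈ BB := by
  simp only [sinv, BB, mem_ofPred_eq, abs_le] at h ⊢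
  obtain ⟨⟨a1, a2⟩, ⟨a3, a4⟩, a5, a6⟩ := h
  refine ⟨⟨?_, ?_⟩, ⟨?_, ?_⟩, ?_, ?_⟩ <;> linarith

/-- cases for a point of the square -/
theorem cases4 (x : R2) : (1 ≤ ‖q0 x‖ ∧ 1 ≤ ‖q1 x‖) ∨ (‖q0 x‖ < 1 ∧ 1 ≤ ‖q2 x‖) ∨ ‖q1 x‖ < 1 ∨
    ‖q2 x‖ < 1 := by
  rcases lt_or_ge ‖q2 x‖ 1 with h | h
  · exact Or.inr (Or.inr (Or.inr h))
  rcases lt_or_ge ‖q1 x‖ 1 with h' | h'
  · exact Or.inr (Or.inr (Or.inl h'))
  rcases lt_or_ge ‖q0 x‖ 1 with h'' | h''
  · exact Or.inr (Or.inl ⟨h'', h⟩)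
  · exact Or.inl ⟨h'', h'⟩

theorem sc_norm_lt {p : R3} {M : ℝ} (hM : 20 < M) (hp : ‖p‖ ≤ M) : ‖sc p‖ < M := by
  have h := (norm3_le_iff p).1 hp
  simp only [abs_le] at h
  obtain ⟨⟨a1, a2⟩, ⟨a3, a4⟩, a5, a6⟩ := h
  have : ‖sc p‖ ≤ max (6 + M / 2) (13 + M / 4) := by
    rw [norm3_le_iff]
    unfold sc
    simp only
    refine ⟨le_max_of_le_left ?_, le_max_of_le_right ?_, le_max_of_le_right ?_⟩ <;>
      rw [abs_le] <;> constructor <;> linarith
  refine lt_of_le_of_lt this (max_lt ?_ ?_) <;> linarith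

theorem tau_norm (p : R3) : ‖tau p‖ = ‖p‖ := by
  have h : ∀ p : R3, ‖tau p‖ ≤ ‖p‖ := by
    intro p
    rw [norm3_le_iff]
    have := (norm3_le_iff p).1 le_rfl
    simp only [tau, abs_neg]
    exact ⟨this.1, this.2.2, this.2.1⟩
  refine le_antisymm (h p) ?_
  calc ‖p‖ = ‖tau (tau p)‖ := by rw [tau_tau]
    _ ≤ ‖tau p‖ := h _

theorem ff_BB {x : R2} (hx : ‖x‖ ≤ 1) : ff x ∈ BB := by
  obtain ⟨x0, hx0, hmax⟩ := (isCompact_closedBall (0 : R2) 1).exists_isMaxOn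
    ⟨0, by simp⟩ (f := fun x => ‖ff x‖) (ff_cont.norm.continuousOn)
  have hx0' : ‖x0‖ ≤ 1 := by simpa using hx0
  have hM : ∀ y : R2, ‖y‖ ≤ 1 → ‖ff y‖ ≤ ‖ff x0‖ := fun y hy => hmax (by simpa using hy)
  rw [mem_BB]
  refine (hM x hx).trans ?_
  by_contra hcon
  push Not at hcon
  rcases cases4 x0 with h | h | h | h
  · have := KT_BB (lathe_T_mem hx0')
    rw [← ff_T h.1 h.2, mem_BB] at this
    linarith
  · have := KU_BB (lathe_U_mem h.1.le)
    rw [← ff_U h.1.le h.2, mem_BB] at this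
    linarith
  · have := sc_norm_lt hcon (hM _ h.le)
    rw [← ff_q1 h.le] at this
    exact lt_irrefl _ this
  · have h1 : ‖tau (ff (q2 x0))‖ ≤ ‖ff x0‖ := by rw [tau_norm]; exact hM _ h.le
    have := sc_norm_lt hcon h1
    rw [← ff_q2 h.le] at this
    exact lt_irrefl _ this

theorem tau_BB {p : R3} : tau p ∈ BB ↔ p ∈ BB := by
  rw [mem_BB, mem_BB, tau_norm]

theorem ff_E {x : R2} (hx : ‖x‖ ≤ 1) : ff x ∈ KT ∨ ff x ∈ KU ∨ sinv (ff x) ∈ BB := by
  rcases cases4 x with h | h | h | h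
  · left; rw [ff_T h.1 h.2]; exact lathe_T_mem hx
  · right; left; rw [ff_U h.1.le h.2]; exact lathe_U_mem h.1.le
  · right; right; rw [ff_q1 h.le, sinv_sc]; exact ff_BB h.le
  · right; right; rw [ff_q2 h.le, sinv_sc, tau_BB]; exact ff_BB h.le

theorem KU_bounds {p : R3} (h : p ∈ KU) : -16 ≤ p.1 ∧ p.1 ≤ 7 ∧ |p.2.1| ≤ 14 ∧ |p.2.2| ≤ 1 := by
  obtain ⟨h1, h2⟩ := h
  unfold Strip at h1
  refine ⟨?_, ?_, ?_, h2⟩
  · rcases h1 with h1 | h1 | h1 <;> linarith [h1.1]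
  · rcases h1 with h1 | h1 | h1 <;> linarith [h1.2.1]
  · rw [abs_le]
    rcases h1 with h1 | h1 | h1 <;> constructor <;> linarith [h1.2.2.1, h1.2.2.2]

theorem C1_bounds {p : R3} (h : sinv p ∈ BB) : -16 ≤ p.1 ∧ p.1 ≤ 4 ∧ 8 ≤ p.2.1 ∧ p.2.1 ≤ 18 ∧
    |p.2.2| ≤ 5 := by
  have := C1_bounds_aux h
  exact this
where
  C1_bounds_aux {p : R3} (h : sinv p ∈ BB) : -16 ≤ p.1 ∧ p.1 ≤ 4 ∧ 8 ≤ p.2.1 ∧ p.2.1 ≤ 18 ∧
      |p.2.2| ≤ 5 := by
    simp only [sinv, BB, mem_ofPred_eq, abs_le] at h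
    obtain ⟨⟨a1, a2⟩, ⟨a3, a4⟩, a5, a6⟩ := h
    refine ⟨?_, ?_, ?_, ?_, ?_⟩
    all_goals (try rw [abs_le]; constructor)
    all_goals linarith

/-- the horn and its mirror image are disjoint -/
theorem E_disj {p : R3} (h : p ∈ KT ∨ p ∈ KU ∨ sinv p ∈ BB)
    (h' : tau p ∈ KT ∨ tau p ∈ KU ∨ sinv (tau p) ∈ BB) : False := by
  have hx : -16 ≤ p.1 ∨ p ∈ KT := by
    rcases h with h | h | h
    · exact Or.inr h
    · exact Or.inl (KU_bounds h).1
    · exact Or.inl (C1_bounds h).1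
  have b1 : p.1 ≤ 7 := by
    rcases h with h | h | h
    · linarith [h.2.1]
    · exact (KU_bounds h).2.1
    · linarith [(C1_bounds h).2.1]
  have b2 : -p.1 ≤ 7 := by
    rcases h' with h | h | h
    · have := h.2.1; simp only [tau] at this; linarith
    · exact (KU_bounds h).2.1
    · have := (C1_bounds h).2.1; simp only [tau] at this; linarith
  have hK : p ∉ KT := fun h => by linarith [h.2.1]
  have hK' : tau p ∉ KT := fun h => by have := h.2.1; simp only [tau] at this; linarith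
  rcases h with h | h | h
  · exact hK h
  · have hb := KU_bounds h
    rcases h' with h' | h' | h'
    · exact hK' h'
    · -- both tubes
      obtain ⟨hs, hz⟩ := h
      obtain ⟨hs', hz'⟩ := h'
      simp only [tau] at hs' hz'
      rw [abs_le] at hz hz'
      unfold Strip at hs hs'
      rcases hs with hs | hs | hs
      · linarith [hs.2.2.1, hs.2.2.2]
      · rcases hs' with hs' | hs' | hs'
        · linarith [hs'.2.2.1, hs'.2.2.2]
        · linarith [hs.1, hs'.1]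
        · linarith [hs'.2.2.1, hs'.2.2.2]
      · linarith [hs.2.2.1, hs.2.2.2]
    · have hc := C1_bounds h'
      simp only [tau] at hc
      have := abs_le.1 hb.2.2.2
      linarith [hc.2.2.1]
  · have hc := C1_bounds h
    rcases h' with h' | h' | h'
    · exact hK' h'
    · have hb := KU_bounds h'
      simp only [tau] at hb
      have := abs_le.1 hb.2.2.2
      linarith [hc.2.2.1]
    · have hc' := C1_bounds h'
      simp only [tau] at hc'
      have := abs_le.1 hc'.2.2.2.2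
      linarith [hc.2.2.1]

theorem ff_ne_tau {x y : R2} (hx : ‖x‖ ≤ 1) (hy : ‖y‖ ≤ 1) : ff x ≠ tau (ff y) := by
  intro h
  refine E_disj (ff_E hx) ?_
  rw [h, tau_tau]
  exact ff_E hy

theorem mm_lt {x : R2} (h : ‖x‖ < 1) : mm x < 1 :=
  lt_of_le_of_lt (min_le_right _ _) (max_lt h (by norm_num))

theorem ff_x_gt {x : R2} (hx : ‖x‖ < 1) : -20 < (ff x).1 := by
  rcases cases4 x with h | h | h | h
  · rw [ff_T h.1 h.2]
    have := mm_lt hx
    simp only [lathe, ΨT]; linarith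
  · rw [ff_U h.1.le h.2]
    have := (KU_bounds (lathe_U_mem h.1.le)).1
    linarith
  · have : sinv (ff x) ∈ BB := by rw [ff_q1 h.le, sinv_sc]; exact ff_BB h.le
    linarith [(C1_bounds this).1]
  · have : sinv (ff x) ∈ BB := by rw [ff_q2 h.le, sinv_sc, tau_BB]; exact ff_BB h.le
    linarith [(C1_bounds this).1]

theorem ff_x_le {x : R2} (hx : ‖x‖ ≤ 1) : (ff x).1 ≤ 7 := by
  rcases ff_E hx with h | h | h
  · linarith [h.2.1]
  · exact (KU_bounds h).2.1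
  · linarith [(C1_bounds h).2.1]

theorem ff_yz {x : R2} (hx : ‖x‖ ≤ 1) : |(ff x).2.1| < 20 ∧ |(ff x).2.2| < 20 := by
  rcases ff_E hx with h | h | h
  · obtain ⟨h1, h2, h3, h4⟩ := h
    constructor <;> linarith
  · have := KU_bounds h
    constructor <;> linarith [this.2.2.1, this.2.2.2]
  · have := C1_bounds h
    rw [abs_lt]
    refine ⟨⟨?_, ?_⟩, ?_⟩ <;> linarith [this.2.2.1, this.2.2.2.1, this.2.2.2.2]

/-- the tube minus its base lies in `x > -16` -/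
theorem lathe_U_gt {x : R2} (hx : ‖x‖ < 1) : -16 < (lathe ΨU x).1 := by
  have hm := mm_lt hx
  have hy := norm_y hx.le
  rw [norm_le_iff] at hy
  have a1 := abs_le.1 hy.1
  set y := (mm x)⁻¹ • x with hydef
  have hpos : 0 < cl (3 * (2 * (1 - mm x))) := by
    unfold cl
    exact lt_max_of_lt_right (lt_min (by norm_num) (by linarith))
  show -16 < -16 + cl (3 * (2 * (1 - mm x))) * (22 - y.1) -
    cl (3 * (2 * (1 - mm x)) - 2) * (2 - y.1)
  rcases le_total (3 * (2 * (1 - mm x)) - 2) 0 with h | h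
  · rw [cl_of_le h]
    have : 0 < cl (3 * (2 * (1 - mm x))) * (22 - y.1) := mul_pos hpos (by linarith)
    linarith
  · rw [cl_of_ge (show 1 ≤ 3 * (2 * (1 - mm x)) by linarith)]
    have h1 := cl_le (3 * (2 * (1 - mm x)) - 2)
    have h0 := cl_nonneg (3 * (2 * (1 - mm x)) - 2)
    nlinarith

theorem KU_C1 {p : R3} (h : p ∈ KU) (hx : p.1 < 4) (hy : 8 ≤ p.2.1) : False := by
  obtain ⟨h1, -⟩ := h
  unfold Strip at h1
  rcases h1 with h1 | h1 | h1
  · linarith [h1.2.2.2]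
  · linarith [h1.1]
  · linarith [h1.1]

theorem q1_expand (x y : R2) : 8 * ‖x - y‖ ≤ ‖q1 x - q1 y‖ := by
  have e : q1 x - q1 y = (8 * (x.2 - y.2), 30 * (x.1 - y.1)) := by
    unfold q1; ext <;> simp <;> ring
  rw [e, Prod.norm_def, Prod.norm_def]
  simp only [Real.norm_eq_abs, abs_mul, Prod.fst_sub, Prod.snd_sub]
  norm_num
  have h1 := abs_nonneg (x.1 - y.1)
  have h2 := abs_nonneg (x.2 - y.2)
  rcases le_total |x.1 - y.1| |x.2 - y.2| with h | h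
  · rw [max_eq_right h]; left; linarith
  · rw [max_eq_left h]; right; linarith

theorem q2_expand (x y : R2) : 8 * ‖x - y‖ ≤ ‖q2 x - q2 y‖ := by
  have e : q2 x - q2 y = (-60 * (x.1 - y.1), 16 * (x.2 - y.2)) := by
    unfold q2; ext <;> simp <;> ring
  rw [e, Prod.norm_def, Prod.norm_def]
  simp only [Real.norm_eq_abs, abs_mul, Prod.fst_sub, Prod.snd_sub]
  norm_num
  have h1 := abs_nonneg (x.1 - y.1)
  have h2 := abs_nonneg (x.2 - y.2)
  rcases le_total |x.1 - y.1| |x.2 - y.2| with h | h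
  · rw [max_eq_right h]; right; linarith
  · rw [max_eq_left h]; left; linarith

theorem sc_inj {p q : R3} (h : sc p = sc q) : p = q := by
  rw [← sinv_sc p, h, sinv_sc]

theorem tau_inj {p q : R3} (h : tau p = tau q) : p = q := by
  rw [← tau_tau p, h, tau_tau]

theorem q0_inj {x y : R2} (h : q0 x = q0 y) : x = y := by
  simp only [q0, Prod.mk.injEq] at h
  exact Prod.ext (by linarith [h.1]) (by linarith [h.2])

theorem ff_inj_aux (n : ℕ) : ∀ x y : R2, ‖x‖ ≤ 1 → ‖y‖ ≤ 1 → ff x = ff y →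
    ‖x - y‖ ≤ 2 * (1 / 8) ^ n := by
  induction n with
  | zero =>
    intro x y hx hy _
    calc ‖x - y‖ ≤ ‖x‖ + ‖y‖ := norm_sub_le _ _
      _ ≤ 2 * (1 / 8) ^ 0 := by norm_num; linarith
  | succ n ih =>
    intro x y hx hy hxy
    have hnn : (0 : ℝ) ≤ 2 * (1 / 8) ^ (n + 1) := by positivity
    -- classification of the first coordinate etc.
    have cA : ∀ z : R2, ‖z‖ ≤ 1 → (1 ≤ ‖q0 z‖ ∧ 1 ≤ ‖q1 z‖) → (ff z).1 ≤ -16 := by
      intro z hz h
      rw [ff_T h.1 h.2]; exact (lathe_T_mem hz).2.1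
    have cB : ∀ z : R2, (‖q0 z‖ < 1 ∧ 1 ≤ ‖q2 z‖) → -16 < (ff z).1 := by
      intro z h
      rw [ff_U h.1.le h.2]; exact lathe_U_gt h.1
    have cC : ∀ z : R2, ‖q1 z‖ < 1 → -16 < (ff z).1 ∧ (ff z).1 < 4 ∧ 8 ≤ (ff z).2.1 := by
      intro z h
      have hb : sinv (ff z) ∈ BB := by rw [ff_q1 h.le, sinv_sc]; exact ff_BB h.le
      have h1 := ff_x_gt h
      have h2 := ff_x_le h.le
      refine ⟨?_, ?_, (C1_bounds hb).2.2.1⟩
      · rw [ff_q1 h.le]; simp only [sc]; linarith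
      · rw [ff_q1 h.le]; simp only [sc]; linarith
    have cD : ∀ z : R2, ‖q2 z‖ < 1 → -16 < (ff z).1 ∧ (ff z).1 < 4 ∧ 8 ≤ (ff z).2.1 := by
      intro z h
      have hb : sinv (ff z) ∈ BB := by rw [ff_q2 h.le, sinv_sc, tau_BB]; exact ff_BB h.le
      have h1 := ff_x_gt h
      have h2 := ff_x_le h.le
      refine ⟨?_, ?_, (C1_bounds hb).2.2.1⟩
      · rw [ff_q2 h.le]; simp only [sc, tau]; linarith
      · rw [ff_q2 h.le]; simp only [sc, tau]; linarith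
    rcases cases4 x with h | h | h | h <;> rcases cases4 y with h' | h' | h' | h'
    · rw [ff_T h.1 h.2, ff_T h'.1 h'.2] at hxy
      rw [lathe_inj ΨT_inj hx hy hxy]; simp
    · exfalso; have := cA x hx h; have := cB y h'; rw [hxy] at *; linarith
    · exfalso; have := cA x hx h; have := (cC y h').1; rw [hxy] at *; linarith
    · exfalso; have := cA x hx h; have := (cD y h').1; rw [hxy] at *; linarith
    · exfalso; have := cA y hy h'; have := cB x h; rw [hxy] at *; linarith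
    · rw [ff_U h.1.le h.2, ff_U h'.1.le h'.2] at hxy
      rw [q0_inj (lathe_inj ΨU_inj h.1.le h'.1.le hxy)]; simp
    · exfalso
      have h1 := cC y h'
      have h2 : ff x ∈ KU := by rw [ff_U h.1.le h.2]; exact lathe_U_mem h.1.le
      rw [hxy] at h2
      exact KU_C1 h2 h1.2.1 h1.2.2
    · exfalso
      have h1 := cD y h'
      have h2 : ff x ∈ KU := by rw [ff_U h.1.le h.2]; exact lathe_U_mem h.1.le
      rw [hxy] at h2
      exact KU_C1 h2 h1.2.1 h1.2.2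
    · exfalso; have := cA y hy h'; have := (cC x h).1; rw [hxy] at *; linarith
    · exfalso
      have h1 := cC x h
      have h2 : ff y ∈ KU := by rw [ff_U h'.1.le h'.2]; exact lathe_U_mem h'.1.le
      rw [← hxy] at h2
      exact KU_C1 h2 h1.2.1 h1.2.2
    · rw [ff_q1 h.le, ff_q1 h'.le] at hxy
      have := ih _ _ h.le h'.le (sc_inj hxy)
      have h3 := q1_expand x y
      rw [pow_succ]; linarith
    · exfalso
      rw [ff_q1 h.le, ff_q2 h'.le] at hxy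
      exact ff_ne_tau h.le h'.le (sc_inj hxy)
    · exfalso; have := cA y hy h'; have := (cD x h).1; rw [hxy] at *; linarith
    · exfalso
      have h1 := cD x h
      have h2 : ff y ∈ KU := by rw [ff_U h'.1.le h'.2]; exact lathe_U_mem h'.1.le
      rw [← hxy] at h2
      exact KU_C1 h2 h1.2.1 h1.2.2
    · exfalso
      rw [ff_q2 h.le, ff_q1 h'.le] at hxy
      exact ff_ne_tau h'.le h.le (sc_inj hxy).symm
    · rw [ff_q2 h.le, ff_q2 h'.le] at hxy
      have := ih _ _ h.le h'.le (tau_inj (sc_inj hxy))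
      have h3 := q2_expand x y
      rw [pow_succ]; linarith

theorem ff_inj {x y : R2} (hx : ‖x‖ ≤ 1) (hy : ‖y‖ ≤ 1) (h : ff x = ff y) : x = y := by
  have h1 : ∀ n : ℕ, ‖x - y‖ ≤ 2 * (1 / 8) ^ n := fun n => ff_inj_aux n x y hx hy h
  have h2 : Tendsto (fun n : ℕ => (2 : ℝ) * (1 / 8) ^ n) atTop (𝓝 (2 * 0)) :=
    (tendsto_pow_atTop_nhds_zero_of_lt_one (by norm_num) (by norm_num)).const_mul _
  have h3 : ‖x - y‖ ≤ 2 * 0 := ge_of_tendsto' h2 h1
  have h4 : ‖x - y‖ = 0 := le_antisymm (by simpa using h3) (norm_nonneg _)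
  exact sub_eq_zero.1 (norm_eq_zero.1 h4)

end Sph9fe
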