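import Pool.Agent.Work.MP_9fe036_gt.Graft

namespace Sph9fe

open Topology Filter Set

theorem norm3_lt_iff (p : R3) {r : ℝ} : ‖p‖ < r ↔ |p.1| < r ∧ |p.2.1| < r ∧ |p.2.2| < r := by
  rw [Prod.norm_def, max_lt_iff, Prod.norm_def, max_lt_iff, Real.norm_eq_abs, Real.norm_eq_abs,
    Real.norm_eq_abs]

theorem norm3_eq_iff (p : R3) {r : ℝ} : ‖p‖ = r ↔ (|p.1| ≤ r ∧ |p.2.1| ≤ r ∧ |p.2.2| ≤ r) ∧
    ¬ (|p.1| < r ∧ |p.2.1| < r ∧ |p.2.2| < r) := by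
  rw [← norm3_le_iff, ← norm3_lt_iff, not_lt]
  exact ⟨fun h => ⟨h.le, h.ge⟩, fun h => le_antisymm h.1 h.2⟩

theorem diff_closed {T W B : Set R3} (hT : IsClosed T) (hW : IsOpen W)
    (h : ∀ p ∈ T, (p ∈ W ↔ p ∈ B)) : IsClosed (T \ B) := by
  have : T \ B = T ∩ Wᶜ := by
    ext p
    exact ⟨fun hp => ⟨hp.1, fun hW => hp.2 ((h p hp.1).1 hW)⟩,
      fun hp => ⟨hp.1, fun hB => hp.2 ((h p hp.1).2 hB)⟩⟩
  rw [this]
  exact hT.inter hW.isClosed_compl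

theorem box_open (a b c d e f : ℝ) :
    IsOpen {p : R3 | (a < p.1 ∧ p.1 < b) ∧ (c < p.2.1 ∧ p.2.1 < d) ∧ (e < p.2.2 ∧ p.2.2 < f)} := by
  have c1 : Continuous (fun p : R3 => p.1) := by fun_prop
  have c2 : Continuous (fun p : R3 => p.2.1) := by fun_prop
  have c3 : Continuous (fun p : R3 => p.2.2) := by fun_prop
  exact ((isOpen_lt continuous_const c1).inter (isOpen_lt c1 continuous_const)).inter
    (((isOpen_lt continuous_const c2).inter (isOpen_lt c2 continuous_const)).inter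
    ((isOpen_lt continuous_const c3).inter (isOpen_lt c3 continuous_const)))

theorem norm_one_cases {y : R2} (h : ‖y‖ = 1) : (y.1 = 1 ∨ y.1 = -1) ∨ (y.2 = 1 ∨ y.2 = -1) := by
  by_contra hcon
  push Not at hcon
  have h1 := (norm_le_iff y 1).1 h.le
  rw [abs_le, abs_le] at h1
  have : ‖y‖ < 1 := by
    rw [norm_lt_iff, abs_lt, abs_lt]
    exact ⟨⟨lt_of_le_of_ne h1.1.1 (Ne.symm hcon.1.2), lt_of_le_of_ne h1.1.2 hcon.1.1⟩,
      lt_of_le_of_ne h1.2.1 (Ne.symm hcon.2.2), lt_of_le_of_ne h1.2.2 hcon.2.1⟩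
  linarith

/-! ## The outer host -/

noncomputable def sg1 (p : R3) : R3 := (p.2.1, p.1 + 180, p.2.2)
noncomputable def sg1i (p : R3) : R3 := (p.2.1 - 180, p.1, p.2.2)

theorem sg1_sg1i (p : R3) : sg1 (sg1i p) = p := by unfold sg1 sg1i; ext <;> simp
theorem sg1i_sg1 (p : R3) : sg1i (sg1 p) = p := by unfold sg1 sg1i; ext <;> simp
theorem sg1_cont : Continuous sg1 := by unfold sg1; fun_prop
theorem sg1i_cont : Continuous sg1i := by unfold sg1i; fun_prop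
theorem sg1_inj : Function.Injective sg1 := fun p q h => by rw [← sg1i_sg1 p, h, sg1i_sg1]

noncomputable def Ψo (θ : ℝ) (y : R2) : R3 := (4 * y.1, -200 + 360 * θ, 4 * y.2)

theorem Ψo_cont : Continuous (fun q : ℝ × R2 => Ψo q.1 q.2) := by unfold Ψo; fun_prop

theorem Ψo_inj : ∀ θ θ' y y', 0 ≤ θ → θ ≤ 1 → 0 ≤ θ' → θ' ≤ 1 → ‖y‖ ≤ 1 → ‖y'‖ ≤ 1 →
      Ψo θ y = Ψo θ' y' → θ = θ' ∧ y = y' := by
  intro θ θ' y y' _ _ _ _ _ _ h
  simp only [Ψo, Prod.mk.injEq] at h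
  exact ⟨by linarith [h.2.1], Prod.ext (by linarith [h.1]) (by linarith [h.2.2])⟩

def T0 : Set R3 := {p | ‖p‖ = 200}
def Rod : Set R3 := {p | |p.1| ≤ 4 ∧ (-200 ≤ p.2.1 ∧ p.2.1 ≤ 160) ∧ |p.2.2| ≤ 4}
def R1s : Set R3 := {p | 200 ≤ ‖p‖} ∪ Rod
def T1s : Set R3 := (T0 \ Ψo 0 '' Metric.ball 0 1) ∪ lathe Ψo '' Metric.closedBall 0 1

theorem isSph_T0 : IsSph T0 := by
  have h := isSph_unit.image (F := fun p => (200 : ℝ) • p) (by fun_prop)
    (fun p _ q _ h => smul_right_injective R3 (show (200 : ℝ) ≠ 0 by norm_num) h)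
  have e : (fun p : R3 => (200 : ℝ) • p) '' {p : R3 | ‖p‖ = 1} = T0 := by
    ext p
    constructor
    · rintro ⟨q, hq, rfl⟩
      have hq' : ‖q‖ = 1 := hq
      show ‖(200 : ℝ) • q‖ = 200
      rw [norm_smul, hq']; norm_num
    · intro hp
      have hp' : ‖p‖ = 200 := hp
      refine ⟨(1 / 200 : ℝ) • p, ?_, ?_⟩
      · show ‖(1 / 200 : ℝ) • p‖ = 1
        rw [norm_smul, hp']; norm_num
      · show (200 : ℝ) • (1 / 200 : ℝ) • p = p
        rw [smul_smul]; norm_num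
  rwa [e] at h

theorem Fr_T0 : Fr {p | 200 ≤ ‖p‖} T0 := by
  intro p hp hpT
  have h1 : 200 < ‖p‖ := lt_of_le_of_ne hp (fun h => hpT h.symm)
  have : IsOpen {p : R3 | 200 < ‖p‖} := isOpen_lt continuous_const continuous_norm
  exact mem_of_superset (this.mem_nhds h1) (fun q hq => (show (200 : ℝ) < ‖q‖ from hq).le)

theorem T0_diff : IsClosed (T0 \ Ψo 0 '' Metric.ball 0 1) := by
  refine diff_closed isSph_T0.isClosed (box_open (-4) 4 (-201) (-199) (-4) 4) ?_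
  intro p hp
  have hp' := (norm3_eq_iff p).1 hp
  constructor
  · rintro ⟨⟨h1, h2⟩, ⟨h3, h4⟩, h5, h6⟩
    have hY : p.2.1 = -200 := by
      by_contra hne
      apply hp'.2
      have h7 := abs_le.1 hp'.1.2.1
      refine ⟨?_, ?_, ?_⟩ <;> rw [abs_lt] <;> constructor <;> try linarith
      exact lt_of_le_of_ne h7.1 (Ne.symm hne)
    refine ⟨(p.1 / 4, p.2.2 / 4), ?_, ?_⟩
    · rw [mem_ball_zero_iff, norm_lt_iff, abs_lt, abs_lt]
      refine ⟨⟨?_, ?_⟩, ?_, ?_⟩ <;> simp only <;> linarith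
    · unfold Ψo; ext <;> simp only <;> linarith
  · rintro ⟨y, hy, rfl⟩
    rw [mem_ball_zero_iff, norm_lt_iff, abs_lt, abs_lt] at hy
    simp only [Ψo, mem_ofPred_eq]
    refine ⟨⟨?_, ?_⟩, ⟨?_, ?_⟩, ?_, ?_⟩ <;> linarith [hy.1.1, hy.1.2, hy.2.1, hy.2.2]

theorem Ψo_0_T0 {y : R2} (hy : ‖y‖ ≤ 1) : Ψo 0 y ∈ T0 := by
  rw [norm_le_iff, abs_le, abs_le] at hy
  show ‖Ψo 0 y‖ = 200
  rw [norm3_eq_iff]
  simp only [Ψo, abs_le, abs_lt]
  refine ⟨⟨⟨?_, ?_⟩, ⟨?_, ?_⟩, ?_, ?_⟩, ?_⟩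
  any_goals linarith [hy.1.1, hy.1.2, hy.2.1, hy.2.2]
  intro h; linarith [h.2.1.1]

theorem Ψo_mem {θ : ℝ} {y : R2} (h0 : 0 ≤ θ) (h1 : θ ≤ 1) (hy : ‖y‖ ≤ 1) : Ψo θ y ∈ Rod := by
  rw [norm_le_iff, abs_le, abs_le] at hy
  simp only [Rod, Ψo, mem_ofPred_eq, abs_le]
  refine ⟨⟨?_, ?_⟩, ⟨?_, ?_⟩, ?_, ?_⟩ <;> linarith [hy.1.1, hy.1.2, hy.2.1, hy.2.2]

theorem isSph_T1s : IsSph T1s := by
  refine graft_lathe isSph_T0 Ψo_cont Ψo_inj (fun x hx => Ψo_0_T0 hx) T0_diff ?_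
  intro θ y h0 h1 hy h
  rw [norm_le_iff, abs_le, abs_le] at hy
  have := (norm3_eq_iff _).1 h
  apply this.2
  simp only [Ψo, abs_lt]
  refine ⟨⟨?_, ?_⟩, ⟨?_, ?_⟩, ?_, ?_⟩ <;> linarith [hy.1.1, hy.1.2, hy.2.1, hy.2.2]

theorem Fr_T1s : Fr R1s T1s := by
  refine Fr_lathe Fr_T0 ?_ ?_ ?_
  · rintro p ⟨h1, ⟨h2, h3⟩, h4⟩
    rw [abs_le] at h1 h4
    refine ⟨(p.2.1 + 200) / 360, (p.1 / 4, p.2.2 / 4), by linarith, by linarith, ?_, ?_⟩
    · rw [norm_le_iff, abs_le, abs_le]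
      refine ⟨⟨?_, ?_⟩, ?_, ?_⟩ <;> simp only <;> linarith [h1.1, h1.2, h4.1, h4.2]
    · unfold Ψo; ext <;> simp only <;> ring
  · intro θ y h0 h1 hy
    rw [norm_lt_iff, abs_lt, abs_lt] at hy
    refine mem_of_superset ((box_open (-4) 4 (-200) 160 (-4) 4).mem_nhds ?_) ?_
    · simp only [Ψo, mem_ofPred_eq]
      refine ⟨⟨?_, ?_⟩, ⟨?_, ?_⟩, ?_, ?_⟩ <;> linarith [hy.1.1, hy.1.2, hy.2.1, hy.2.2]
    · rintro p ⟨⟨h1, h2⟩, ⟨h3, h4⟩, h5, h6⟩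
      simp only [Rod, mem_ofPred_eq, abs_le]
      refine ⟨⟨?_, ?_⟩, ⟨?_, ?_⟩, ?_, ?_⟩ <;> linarith
  · intro y hy
    rw [norm_lt_iff, abs_lt, abs_lt] at hy
    refine mem_of_superset ((box_open (-4) 4 (-201) (-199) (-4) 4).mem_nhds ?_) ?_
    · simp only [Ψo, mem_ofPred_eq]
      refine ⟨⟨?_, ?_⟩, ⟨?_, ?_⟩, ?_, ?_⟩ <;> linarith [hy.1.1, hy.1.2, hy.2.1, hy.2.2]
    · rintro p ⟨⟨h1, h2⟩, ⟨h3, h4⟩, h5, h6⟩
      rcases le_total p.2.1 (-200) with h | h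
      · left
        show 200 ≤ ‖p‖
        have := ((norm3_le_iff p).1 le_rfl).2.1
        have h7 := (abs_le.1 this).1
        linarith
      · right
        simp only [Rod, mem_ofPred_eq, abs_le]
        refine ⟨⟨?_, ?_⟩, ⟨?_, ?_⟩, ?_, ?_⟩ <;> linarith

/-- points of the lathe of `Ψo` -/
theorem lathe_o_cases {p : R3} (hp : p ∈ lathe Ψo '' Metric.closedBall 0 1) :
    p ∈ Rod ∧ (p.2.1 = 160 ∨ (p.1 = 4 ∨ p.1 = -4) ∨ (p.2.2 = 4 ∨ p.2.2 = -4)) := by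
  obtain ⟨x, hx, rfl⟩ := hp
  obtain ⟨θ, y, h0, h1, hy, hs, he, -⟩ := lathe_form Ψo (by simpa using hx)
  rw [he]
  refine ⟨Ψo_mem h0 h1 hy, ?_⟩
  rcases hs with h | h
  · left; simp only [Ψo, h]; norm_num
  · right
    simp only [Ψo]
    rcases norm_one_cases h with (h | h) | (h | h)
    · left; left; rw [h]; norm_num
    · left; right; rw [h]; norm_num
    · right; left; rw [h]; norm_num
    · right; right; rw [h]; norm_num

theorem sg1_io (y : R2) : sg1 (io y) = (4 * y.1, 160, 4 * y.2) := by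
  unfold sg1 io; ext <;> simp; norm_num

theorem sg1_tio (y : R2) : sg1 (tau (io y)) = (4 * y.2, 200, 4 * y.1) := by
  unfold sg1 tau io; ext <;> simp; norm_num

theorem host1_h1 {y : R2} (hy : ‖y‖ ≤ 1) : sg1 (io y) ∈ T1s := by
  right
  obtain ⟨hx, hxe⟩ := lathe_surj Ψo (θ := 1) (by norm_num) le_rfl hy (Or.inl rfl)
  refine ⟨_, mem_closedBall_zero_iff.2 hx, hxe.trans ?_⟩
  rw [sg1_io]; unfold Ψo; ext <;> simp; norm_num

theorem host1_h2 {y : R2} (hy : ‖y‖ ≤ 1) : sg1 (tau (io y)) ∈ T1s := by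
  left
  rw [sg1_tio]
  rw [norm_le_iff, abs_le, abs_le] at hy
  refine ⟨?_, ?_⟩
  · show ‖_‖ = _
    rw [norm3_eq_iff]
    simp only [abs_le, abs_lt]
    refine ⟨⟨⟨?_, ?_⟩, ⟨?_, ?_⟩, ?_, ?_⟩, ?_⟩
    any_goals linarith [hy.1.1, hy.1.2, hy.2.1, hy.2.2]
    intro h; linarith [h.2.1.2]
  · rintro ⟨z, -, h⟩
    have := congrArg (fun p : R3 => p.2.1) h
    simp only [Ψo] at this; linarith

theorem host1_c1 : IsClosed (T1s \ (fun y => sg1 (io y)) '' Metric.ball 0 1) := by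
  refine diff_closed isSph_T1s.isClosed (box_open (-4) 4 159 161 (-4) 4) ?_
  intro p hp
  constructor
  · rintro ⟨⟨h1, h2⟩, ⟨h3, h4⟩, h5, h6⟩
    have hY : p.2.1 = 160 := by
      rcases hp with hp | hp
      · exfalso
        apply ((norm3_eq_iff p).1 hp.1).2
        refine ⟨?_, ?_, ?_⟩ <;> rw [abs_lt] <;> constructor <;> linarith
      · rcases (lathe_o_cases hp).2 with h | (h | h) | (h | h)
        · exact h
        all_goals exfalso; linarith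
    refine ⟨(p.1 / 4, p.2.2 / 4), ?_, ?_⟩
    · rw [mem_ball_zero_iff, norm_lt_iff, abs_lt, abs_lt]
      refine ⟨⟨?_, ?_⟩, ?_, ?_⟩ <;> simp only <;> linarith
    · simp only [sg1_io]; ext <;> simp only <;> linarith
  · rintro ⟨y, hy, rfl⟩
    rw [mem_ball_zero_iff, norm_lt_iff, abs_lt, abs_lt] at hy
    simp only [sg1_io, mem_ofPred_eq]
    refine ⟨⟨?_, ?_⟩, ⟨?_, ?_⟩, ?_, ?_⟩ <;> linarith [hy.1.1, hy.1.2, hy.2.1, hy.2.2]

theorem host1_c2 : IsClosed (T1s \ (fun y => sg1 (tau (io y))) '' Metric.ball 0 1) := by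
  refine diff_closed isSph_T1s.isClosed (box_open (-4) 4 199 201 (-4) 4) ?_
  intro p hp
  constructor
  · rintro ⟨⟨h1, h2⟩, ⟨h3, h4⟩, h5, h6⟩
    have hY : p.2.1 = 200 := by
      rcases hp with hp | hp
      · have hp' := (norm3_eq_iff p).1 hp.1
        by_contra hne
        apply hp'.2
        have h7 := abs_le.1 hp'.1.2.1
        refine ⟨?_, ?_, ?_⟩ <;> rw [abs_lt] <;> constructor <;> try linarith
        exact lt_of_le_of_ne h7.2 hne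
      · exfalso; linarith [(lathe_o_cases hp).1.2.1.2]
    refine ⟨(p.2.2 / 4, p.1 / 4), ?_, ?_⟩
    · rw [mem_ball_zero_iff, norm_lt_iff, abs_lt, abs_lt]
      refine ⟨⟨?_, ?_⟩, ?_, ?_⟩ <;> simp only <;> linarith
    · simp only [sg1_tio]; ext <;> simp only <;> linarith
  · rintro ⟨y, hy, rfl⟩
    rw [mem_ball_zero_iff, norm_lt_iff, abs_lt, abs_lt] at hy
    simp only [sg1_tio, mem_ofPred_eq]
    refine ⟨⟨?_, ?_⟩, ⟨?_, ?_⟩, ?_, ?_⟩ <;> linarith [hy.1.1, hy.1.2, hy.2.1, hy.2.2]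

theorem host1_D {p : R3} (hp : p ∈ BB) (hx : |p.1| < 20) : sg1 p ∉ T1s := by
  simp only [BB, mem_ofPred_eq, abs_le] at hp
  rw [abs_lt] at hx
  rintro (h | h)
  · apply ((norm3_eq_iff _).1 h.1).2
    simp only [sg1, abs_lt]
    refine ⟨⟨?_, ?_⟩, ⟨?_, ?_⟩, ?_, ?_⟩ <;>
      linarith [hp.2.1.1, hp.2.1.2, hp.2.2.1, hp.2.2.2]
  · have := (lathe_o_cases h).1.2.1.2
    simp only [sg1] at this; linarith

/-- the outer wild sphere -/
noncomputable def Sone : Set R3 := surf T1s sg1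

theorem isSph_Sone : IsSph Sone :=
  host_sph isSph_T1s sg1_cont sg1_inj (fun _ h => host1_h1 h) (fun _ h => host1_h2 h) host1_c1
    host1_c2 (fun _ h => host1_D h)

/-- the outer closed set -/
def Hone : Set R3 := R1s ∪ sg1i ⁻¹' XX

theorem abs_close {a b r : ℝ} (h : |a - b| < r) : b - r < a ∧ a < b + r := by
  rw [abs_lt] at h; constructor <;> linarith

theorem Fr_Sone : Fr Hone Sone := by
  refine host_Fr Fr_T1s sg1i_cont sg1_sg1i sg1i_sg1 ?_ ?_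
  · intro y hy
    rw [norm_lt_iff, abs_lt, abs_lt] at hy
    refine mem_of_superset ((box_open (-4) 4 159 161 (-4) 4).mem_nhds ?_) ?_
    · simp only [sg1_io, mem_ofPred_eq]
      refine ⟨⟨?_, ?_⟩, ⟨?_, ?_⟩, ?_, ?_⟩ <;> linarith [hy.1.1, hy.1.2, hy.2.1, hy.2.2]
    · rintro p ⟨⟨h1, h2⟩, ⟨h3, h4⟩, h5, h6⟩
      rcases le_total p.2.1 160 with h | h
      · left; right
        simp only [Rod, mem_ofPred_eq, abs_le]
        refine ⟨⟨?_, ?_⟩, ⟨?_, ?_⟩, ?_, ?_⟩ <;> linarith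
      · right
        refine KT_sub_XX ?_
        simp only [KT, sg1i, mem_ofPred_eq, abs_le]
        refine ⟨?_, ?_, ⟨?_, ?_⟩, ?_, ?_⟩ <;> linarith
  · intro y hy
    rw [norm_lt_iff, abs_lt, abs_lt] at hy
    refine mem_of_superset ((box_open (-4) 4 199 201 (-4) 4).mem_nhds ?_) ?_
    · simp only [sg1_tio, mem_ofPred_eq]
      refine ⟨⟨?_, ?_⟩, ⟨?_, ?_⟩, ?_, ?_⟩ <;> linarith [hy.1.1, hy.1.2, hy.2.1, hy.2.2]
    · rintro p ⟨⟨h1, h2⟩, ⟨h3, h4⟩, h5, h6⟩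
      rcases le_total 200 p.2.1 with h | h
      · left; left
        show 200 ≤ ‖p‖
        have := ((norm3_le_iff p).1 le_rfl).2.1
        have h7 := (abs_le.1 this).2
        linarith
      · right
        refine tau_XX.1 (KT_sub_XX ?_)
        simp only [KT, sg1i, tau, mem_ofPred_eq, abs_le]
        refine ⟨?_, ?_, ⟨?_, ?_⟩, ?_, ?_⟩ <;> linarith

/-! ## The inner host (ring) -/

noncomputable def sg2 (p : R3) : R3 := (2 * p.1, p.2.1, p.2.2 + 60)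
noncomputable def sg2i (p : R3) : R3 := (p.1 / 2, p.2.1, p.2.2 - 60)

theorem sg2_sg2i (p : R3) : sg2 (sg2i p) = p := by unfold sg2 sg2i; ext <;> simp; ring
theorem sg2i_sg2 (p : R3) : sg2i (sg2 p) = p := by unfold sg2 sg2i; ext <;> simp
theorem sg2_cont : Continuous sg2 := by unfold sg2; fun_prop
theorem sg2i_cont : Continuous sg2i := by unfold sg2i; fun_prop
theorem sg2_inj : Function.Injective sg2 := fun p q h => by rw [← sg2i_sg2 p, h, sg2i_sg2]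

noncomputable def Ψl (θ : ℝ) (y : R2) : R3 := (-60 + 20 * y.1, 20 * y.2, -40 + 120 * θ)
noncomputable def Ψr (θ : ℝ) (y : R2) : R3 := (60 + 20 * y.1, 20 * y.2, -40 + 120 * θ)

theorem Ψl_cont : Continuous (fun q : ℝ × R2 => Ψl q.1 q.2) := by unfold Ψl; fun_prop
theorem Ψr_cont : Continuous (fun q : ℝ × R2 => Ψr q.1 q.2) := by unfold Ψr; fun_prop

theorem Ψl_inj : ∀ θ θ' y y', 0 ≤ θ → θ ≤ 1 → 0 ≤ θ' → θ' ≤ 1 → ‖y‖ ≤ 1 → ‖y'‖ ≤ 1 →
      Ψl θ y = Ψl θ' y' → θ = θ' ∧ y = y' := by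
  intro θ θ' y y' _ _ _ _ _ _ h
  simp only [Ψl, Prod.mk.injEq] at h
  exact ⟨by linarith [h.2.2], Prod.ext (by linarith [h.1]) (by linarith [h.2.1])⟩

theorem Ψr_inj : ∀ θ θ' y y', 0 ≤ θ → θ ≤ 1 → 0 ≤ θ' → θ' ≤ 1 → ‖y‖ ≤ 1 → ‖y'‖ ≤ 1 →
      Ψr θ y = Ψr θ' y' → θ = θ' ∧ y = y' := by
  intro θ θ' y y' _ _ _ _ _ _ h
  simp only [Ψr, Prod.mk.injEq] at h
  exact ⟨by linarith [h.2.2], Prod.ext (by linarith [h.1]) (by linarith [h.2.1])⟩

def Bar : Set R3 := {p | |p.1| ≤ 80 ∧ |p.2.1| ≤ 20 ∧ |p.2.2 + 60| ≤ 20}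
def PL : Set R3 := {p | (-80 ≤ p.1 ∧ p.1 ≤ -40) ∧ |p.2.1| ≤ 20 ∧ (-40 ≤ p.2.2 ∧ p.2.2 ≤ 80)}
def PR : Set R3 := {p | (40 ≤ p.1 ∧ p.1 ≤ 80) ∧ |p.2.1| ≤ 20 ∧ (-40 ≤ p.2.2 ∧ p.2.2 ≤ 80)}
def Tb : Set R3 := {p | p ∈ Bar ∧ ¬ (|p.1| < 80 ∧ |p.2.1| < 20 ∧ |p.2.2 + 60| < 20)}
def Tb1 : Set R3 := (Tb \ Ψl 0 '' Metric.ball 0 1) ∪ lathe Ψl '' Metric.closedBall 0 1
def T2s : Set R3 := (Tb1 \ Ψr 0 '' Metric.ball 0 1) ∪ lathe Ψr '' Metric.closedBall 0 1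
def R2s : Set R3 := Bar ∪ PL ∪ PR

theorem isSph_Tb : IsSph Tb := by
  let A : R3 → R3 := fun p => (80 * p.1, 20 * p.2.1, 20 * p.2.2 - 60)
  have h := isSph_unit.image (F := A) (by fun_prop)
    (fun p _ q _ h => by
      simp only [A, Prod.mk.injEq] at h
      exact Prod.ext (by linarith [h.1]) (Prod.ext (by linarith [h.2.1]) (by linarith [h.2.2])))
  have e : A '' {p : R3 | ‖p‖ = 1} = Tb := by
    ext p
    constructor
    · rintro ⟨q, hq, rfl⟩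
      have hq' := (norm3_eq_iff q).1 hq
      have a1 : |80 * q.1| = 80 * |q.1| := by rw [abs_mul]; norm_num
      have a2 : |20 * q.2.1| = 20 * |q.2.1| := by rw [abs_mul]; norm_num
      have a3 : |20 * q.2.2 - 60 + 60| = 20 * |q.2.2| := by
        rw [sub_add_cancel, abs_mul]; norm_num
      refine ⟨⟨?_, ?_, ?_⟩, ?_⟩
      · show |80 * q.1| ≤ 80; rw [a1]; linarith [hq'.1.1]
      · show |20 * q.2.1| ≤ 20; rw [a2]; linarith [hq'.1.2.1]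
      · show |20 * q.2.2 - 60 + 60| ≤ 20; rw [a3]; linarith [hq'.1.2.2]
      · rintro ⟨h1, h2, h3⟩
        have h1' : |80 * q.1| < 80 := h1
        have h2' : |20 * q.2.1| < 20 := h2
        have h3' : |20 * q.2.2 - 60 + 60| < 20 := h3
        rw [a1] at h1'; rw [a2] at h2'; rw [a3] at h3'
        exact hq'.2 ⟨by linarith, by linarith, by linarith⟩
    · rintro ⟨⟨h1, h2, h3⟩, h4⟩
      refine ⟨(p.1 / 80, p.2.1 / 20, (p.2.2 + 60) / 20), ?_, ?_⟩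
      · show ‖_‖ = _
        rw [norm3_eq_iff]
        simp only [abs_div]
        norm_num
        refine ⟨⟨by linarith, by linarith, by linarith⟩, ?_⟩
        intro h5 h6
        by_contra hcon
        push Not at hcon
        exact h4 ⟨by linarith, by linarith, by linarith⟩
      · show (_, _, _) = p
        ext <;> simp only <;> ring
  rwa [e] at h

theorem Fr_Tb : Fr Bar Tb := by
  intro p hp hpT
  have h : |p.1| < 80 ∧ |p.2.1| < 20 ∧ |p.2.2 + 60| < 20 := by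
    by_contra hcon; exact hpT ⟨hp, hcon⟩
  have c1 : Continuous (fun p : R3 => |p.1|) := by fun_prop
  have c2 : Continuous (fun p : R3 => |p.2.1|) := by fun_prop
  have c3 : Continuous (fun p : R3 => |p.2.2 + 60|) := by fun_prop
  have hopen : IsOpen {p : R3 | |p.1| < 80 ∧ |p.2.1| < 20 ∧ |p.2.2 + 60| < 20} :=
    (isOpen_lt c1 continuous_const).inter ((isOpen_lt c2 continuous_const).inter
      (isOpen_lt c3 continuous_const))
  exact mem_of_superset (hopen.mem_nhds h) (fun q hq => ⟨hq.1.le, hq.2.1.le, hq.2.2.le⟩)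

theorem Ψl_mem {θ : ℝ} {y : R2} (h0 : 0 ≤ θ) (h1 : θ ≤ 1) (hy : ‖y‖ ≤ 1) : Ψl θ y ∈ PL := by
  rw [norm_le_iff, abs_le, abs_le] at hy
  simp only [PL, Ψl, mem_ofPred_eq, abs_le]
  refine ⟨⟨?_, ?_⟩, ⟨?_, ?_⟩, ?_, ?_⟩ <;> linarith [hy.1.1, hy.1.2, hy.2.1, hy.2.2]

theorem Ψr_mem {θ : ℝ} {y : R2} (h0 : 0 ≤ θ) (h1 : θ ≤ 1) (hy : ‖y‖ ≤ 1) : Ψr θ y ∈ PR := by
  rw [norm_le_iff, abs_le, abs_le] at hy
  simp only [PR, Ψr, mem_ofPred_eq, abs_le]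
  refine ⟨⟨?_, ?_⟩, ⟨?_, ?_⟩, ?_, ?_⟩ <;> linarith [hy.1.1, hy.1.2, hy.2.1, hy.2.2]

theorem lathe_l_cases {p : R3} (hp : p ∈ lathe Ψl '' Metric.closedBall 0 1) :
    p ∈ PL ∧ (p.2.2 = 80 ∨ (p.1 = -40 ∨ p.1 = -80) ∨ (p.2.1 = 20 ∨ p.2.1 = -20)) := by
  obtain ⟨x, hx, rfl⟩ := hp
  obtain ⟨θ, y, h0, h1, hy, hs, he, -⟩ := lathe_form Ψl (by simpa using hx)
  rw [he]
  refine ⟨Ψl_mem h0 h1 hy, ?_⟩
  rcases hs with h | h
  · left; simp only [Ψl, h]; norm_num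
  · right
    simp only [Ψl]
    rcases norm_one_cases h with (h | h) | (h | h)
    · left; left; rw [h]; norm_num
    · left; right; rw [h]; norm_num
    · right; left; rw [h]; norm_num
    · right; right; rw [h]; norm_num

theorem lathe_r_cases {p : R3} (hp : p ∈ lathe Ψr '' Metric.closedBall 0 1) :
    p ∈ PR ∧ (p.2.2 = 80 ∨ (p.1 = 80 ∨ p.1 = 40) ∨ (p.2.1 = 20 ∨ p.2.1 = -20)) := by
  obtain ⟨x, hx, rfl⟩ := hp
  obtain ⟨θ, y, h0, h1, hy, hs, he, -⟩ := lathe_form Ψr (by simpa using hx)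
  rw [he]
  refine ⟨Ψr_mem h0 h1 hy, ?_⟩
  rcases hs with h | h
  · left; simp only [Ψr, h]; norm_num
  · right
    simp only [Ψr]
    rcases norm_one_cases h with (h | h) | (h | h)
    · left; left; rw [h]; norm_num
    · left; right; rw [h]; norm_num
    · right; left; rw [h]; norm_num
    · right; right; rw [h]; norm_num

theorem Tb_diff : IsClosed (Tb \ Ψl 0 '' Metric.ball 0 1) := by
  refine diff_closed isSph_Tb.isClosed (box_open (-80) (-40) (-20) 20 (-41) (-39)) ?_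
  intro p hp
  constructor
  · rintro ⟨⟨h1, h2⟩, ⟨h3, h4⟩, h5, h6⟩
    have hZ : p.2.2 = -40 := by
      by_contra hne
      apply hp.2
      have h7 := abs_le.1 hp.1.2.2
      refine ⟨?_, ?_, ?_⟩ <;> rw [abs_lt] <;> constructor <;> try linarith
      exact lt_of_le_of_ne h7.2 (fun h => hne (by linarith))
    refine ⟨((p.1 + 60) / 20, p.2.1 / 20), ?_, ?_⟩
    · rw [mem_ball_zero_iff, norm_lt_iff, abs_lt, abs_lt]
      refine ⟨⟨?_, ?_⟩, ?_, ?_⟩ <;> simp only <;> linarith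
    · unfold Ψl; ext <;> simp only <;> linarith
  · rintro ⟨y, hy, rfl⟩
    rw [mem_ball_zero_iff, norm_lt_iff, abs_lt, abs_lt] at hy
    simp only [Ψl, mem_ofPred_eq]
    refine ⟨⟨?_, ?_⟩, ⟨?_, ?_⟩, ?_, ?_⟩ <;> linarith [hy.1.1, hy.1.2, hy.2.1, hy.2.2]

theorem isSph_Tb1 : IsSph Tb1 := by
  refine graft_lathe isSph_Tb Ψl_cont Ψl_inj ?_ Tb_diff ?_
  · intro y hy
    rw [norm_le_iff, abs_le, abs_le] at hy
    refine ⟨?_, ?_⟩
    · simp only [Bar, Ψl, mem_ofPred_eq, abs_le]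
      refine ⟨⟨?_, ?_⟩, ⟨?_, ?_⟩, ?_, ?_⟩ <;> linarith [hy.1.1, hy.1.2, hy.2.1, hy.2.2]
    · rintro ⟨-, -, h⟩
      simp only [Ψl] at h
      norm_num at h
  · intro θ y h0 h1 hy h
    have := abs_le.1 h.1.2.2
    simp only [Ψl] at this; linarith

theorem Tb1_diff : IsClosed (Tb1 \ Ψr 0 '' Metric.ball 0 1) := by
  refine diff_closed isSph_Tb1.isClosed (box_open 40 80 (-20) 20 (-41) (-39)) ?_
  intro p hp
  constructor
  · rintro ⟨⟨h1, h2⟩, ⟨h3, h4⟩, h5, h6⟩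
    have hZ : p.2.2 = -40 := by
      rcases hp with hp | hp
      · by_contra hne
        apply hp.1.2
        have h7 := abs_le.1 hp.1.1.2.2
        refine ⟨?_, ?_, ?_⟩ <;> rw [abs_lt] <;> constructor <;> try linarith
        exact lt_of_le_of_ne h7.2 (fun h => hne (by linarith))
      · exfalso; linarith [(lathe_l_cases hp).1.1.2]
    refine ⟨((p.1 - 60) / 20, p.2.1 / 20), ?_, ?_⟩
    · rw [mem_ball_zero_iff, norm_lt_iff, abs_lt, abs_lt]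
      refine ⟨⟨?_, ?_⟩, ?_, ?_⟩ <;> simp only <;> linarith
    · unfold Ψr; ext <;> simp only <;> linarith
  · rintro ⟨y, hy, rfl⟩
    rw [mem_ball_zero_iff, norm_lt_iff, abs_lt, abs_lt] at hy
    simp only [Ψr, mem_ofPred_eq]
    refine ⟨⟨?_, ?_⟩, ⟨?_, ?_⟩, ?_, ?_⟩ <;> linarith [hy.1.1, hy.1.2, hy.2.1, hy.2.2]

theorem isSph_T2s : IsSph T2s := by
  refine graft_lathe isSph_Tb1 Ψr_cont Ψr_inj ?_ Tb1_diff ?_
  · intro y hy
    rw [norm_le_iff, abs_le, abs_le] at hy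
    refine Or.inl ⟨⟨?_, ?_⟩, ?_⟩
    · simp only [Bar, Ψr, mem_ofPred_eq, abs_le]
      refine ⟨⟨?_, ?_⟩, ⟨?_, ?_⟩, ?_, ?_⟩ <;> linarith [hy.1.1, hy.1.2, hy.2.1, hy.2.2]
    · rintro ⟨-, -, h⟩
      simp only [Ψr] at h
      norm_num at h
    · rintro ⟨z, hz, h⟩
      rw [mem_ball_zero_iff, norm_lt_iff, abs_lt, abs_lt] at hz
      have := congrArg Prod.fst h
      simp only [Ψl, Ψr] at this; linarith [hz.1.2, hy.1.1]
  · rintro θ y h0 h1 hy (h | h)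
    · have := abs_le.1 h.1.1.2.2
      simp only [Ψr] at this; linarith
    · have := (lathe_l_cases h).1.1.2
      rw [norm_le_iff, abs_le, abs_le] at hy
      simp only [Ψr] at this; linarith [hy.1.1]

theorem Fr_T2s : Fr R2s T2s := by
  have f1 : Fr (Bar ∪ PL) Tb1 := by
    refine Fr_lathe Fr_Tb ?_ ?_ ?_
    · rintro p ⟨⟨h1, h2⟩, h3, h4, h5⟩
      rw [abs_le] at h3
      refine ⟨(p.2.2 + 40) / 120, ((p.1 + 60) / 20, p.2.1 / 20), by linarith, by linarith, ?_, ?_⟩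
      · rw [norm_le_iff, abs_le, abs_le]
        refine ⟨⟨?_, ?_⟩, ?_, ?_⟩ <;> simp only <;> linarith [h3.1, h3.2]
      · unfold Ψl; ext <;> simp only <;> ring
    · intro θ y h0 h1 hy
      rw [norm_lt_iff, abs_lt, abs_lt] at hy
      refine mem_of_superset ((box_open (-80) (-40) (-20) 20 (-40) 80).mem_nhds ?_) ?_
      · simp only [Ψl, mem_ofPred_eq]
        refine ⟨⟨?_, ?_⟩, ⟨?_, ?_⟩, ?_, ?_⟩ <;> linarith [hy.1.1, hy.1.2, hy.2.1, hy.2.2]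
      · rintro p ⟨⟨h1, h2⟩, ⟨h3, h4⟩, h5, h6⟩
        simp only [PL, mem_ofPred_eq, abs_le]
        refine ⟨⟨?_, ?_⟩, ⟨?_, ?_⟩, ?_, ?_⟩ <;> linarith
    · intro y hy
      rw [norm_lt_iff, abs_lt, abs_lt] at hy
      refine mem_of_superset ((box_open (-80) (-40) (-20) 20 (-41) (-39)).mem_nhds ?_) ?_
      · simp only [Ψl, mem_ofPred_eq]
        refine ⟨⟨?_, ?_⟩, ⟨?_, ?_⟩, ?_, ?_⟩ <;> linarith [hy.1.1, hy.1.2, hy.2.1, hy.2.2]
      · rintro p ⟨⟨h1, h2⟩, ⟨h3, h4⟩, h5, h6⟩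
        rcases le_total p.2.2 (-40) with h | h
        · left
          simp only [Bar, mem_ofPred_eq, abs_le]
          refine ⟨⟨?_, ?_⟩, ⟨?_, ?_⟩, ?_, ?_⟩ <;> linarith
        · right
          simp only [PL, mem_ofPred_eq, abs_le]
          refine ⟨⟨?_, ?_⟩, ⟨?_, ?_⟩, ?_, ?_⟩ <;> linarith
  refine Fr_lathe f1 ?_ ?_ ?_
  · rintro p ⟨⟨h1, h2⟩, h3, h4, h5⟩
    rw [abs_le] at h3
    refine ⟨(p.2.2 + 40) / 120, ((p.1 - 60) / 20, p.2.1 / 20), by linarith, by linarith, ?_, ?_⟩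
    · rw [norm_le_iff, abs_le, abs_le]
      refine ⟨⟨?_, ?_⟩, ?_, ?_⟩ <;> simp only <;> linarith [h3.1, h3.2]
    · unfold Ψr; ext <;> simp only <;> ring
  · intro θ y h0 h1 hy
    rw [norm_lt_iff, abs_lt, abs_lt] at hy
    refine mem_of_superset ((box_open 40 80 (-20) 20 (-40) 80).mem_nhds ?_) ?_
    · simp only [Ψr, mem_ofPred_eq]
      refine ⟨⟨?_, ?_⟩, ⟨?_, ?_⟩, ?_, ?_⟩ <;> linarith [hy.1.1, hy.1.2, hy.2.1, hy.2.2]
    · rintro p ⟨⟨h1, h2⟩, ⟨h3, h4⟩, h5, h6⟩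
      simp only [PR, mem_ofPred_eq, abs_le]
      refine ⟨⟨?_, ?_⟩, ⟨?_, ?_⟩, ?_, ?_⟩ <;> linarith
  · intro y hy
    rw [norm_lt_iff, abs_lt, abs_lt] at hy
    refine mem_of_superset ((box_open 40 80 (-20) 20 (-41) (-39)).mem_nhds ?_) ?_
    · simp only [Ψr, mem_ofPred_eq]
      refine ⟨⟨?_, ?_⟩, ⟨?_, ?_⟩, ?_, ?_⟩ <;> linarith [hy.1.1, hy.1.2, hy.2.1, hy.2.2]
    · rintro p ⟨⟨h1, h2⟩, ⟨h3, h4⟩, h5, h6⟩
      rcases le_total p.2.2 (-40) with h | h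
      · left; left
        simp only [Bar, mem_ofPred_eq, abs_le]
        refine ⟨⟨?_, ?_⟩, ⟨?_, ?_⟩, ?_, ?_⟩ <;> linarith
      · right
        simp only [PR, mem_ofPred_eq, abs_le]
        refine ⟨⟨?_, ?_⟩, ⟨?_, ?_⟩, ?_, ?_⟩ <;> linarith

theorem sg2_io (y : R2) : sg2 (io y) = (-40, 4 * y.1, 4 * y.2 + 60) := by
  unfold sg2 io; ext <;> simp; norm_num

theorem sg2_tio (y : R2) : sg2 (tau (io y)) = (40, 4 * y.2, 4 * y.1 + 60) := by
  unfold sg2 tau io; ext <;> simp; norm_num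

theorem Tb_z {p : R3} (h : p ∈ Tb) : p.2.2 ≤ -40 := by
  have := abs_le.1 h.1.2.2; linarith

theorem T2s_cases {p : R3} (hp : p ∈ T2s) : p.2.2 ≤ -40 ∨ p ∈ lathe Ψl '' Metric.closedBall 0 1 ∨
    p ∈ lathe Ψr '' Metric.closedBall 0 1 := by
  rcases hp with hp | hp
  · rcases hp.1 with hp | hp
    · exact Or.inl (Tb_z hp.1)
    · exact Or.inr (Or.inl hp)
  · exact Or.inr (Or.inr hp)

theorem host2_h1 {y : R2} (hy : ‖y‖ ≤ 1) : sg2 (io y) ∈ T2s := by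
  rw [norm_le_iff, abs_le, abs_le] at hy
  left
  refine ⟨Or.inr ?_, ?_⟩
  · have hn : ‖((1, y.1 / 5) : R2)‖ = 1 := by
      refine le_antisymm ?_ ?_
      · rw [norm_le_iff, abs_le, abs_le]
        refine ⟨⟨by norm_num, by norm_num⟩, ?_, ?_⟩ <;> simp only <;> linarith [hy.1.1, hy.1.2]
      · have := ((norm_le_iff ((1, y.1 / 5) : R2) _).1 le_rfl).1
        simpa using this
    obtain ⟨hx, hxe⟩ := lathe_surj Ψl (θ := (y.2 + 25) / 30) (by linarith [hy.2.1])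
      (by linarith [hy.2.2]) hn.le (Or.inr hn)
    refine ⟨_, mem_closedBall_zero_iff.2 hx, hxe.trans ?_⟩
    rw [sg2_io]; unfold Ψl; ext <;> simp only <;> ring
  · rintro ⟨z, hz, h⟩
    rw [mem_ball_zero_iff, norm_lt_iff, abs_lt, abs_lt] at hz
    have := congrArg Prod.fst h
    simp only [Ψr, sg2_io] at this; linarith [hz.1.1]

theorem host2_h2 {y : R2} (hy : ‖y‖ ≤ 1) : sg2 (tau (io y)) ∈ T2s := by
  rw [norm_le_iff, abs_le, abs_le] at hy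
  right
  have hn : ‖((-1, y.2 / 5) : R2)‖ = 1 := by
    refine le_antisymm ?_ ?_
    · rw [norm_le_iff, abs_le, abs_le]
      refine ⟨⟨by norm_num, by norm_num⟩, ?_, ?_⟩ <;> simp only <;> linarith [hy.2.1, hy.2.2]
    · have := ((norm_le_iff ((-1, y.2 / 5) : R2) _).1 le_rfl).1
      simpa using this
  obtain ⟨hx, hxe⟩ := lathe_surj Ψr (θ := (y.1 + 25) / 30) (by linarith [hy.1.1])
    (by linarith [hy.1.2]) hn.le (Or.inr hn)
  refine ⟨_, mem_closedBall_zero_iff.2 hx, hxe.trans ?_⟩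
  rw [sg2_tio]; unfold Ψr; ext <;> simp only <;> ring

theorem host2_c1 : IsClosed (T2s \ (fun y => sg2 (io y)) '' Metric.ball 0 1) := by
  refine diff_closed isSph_T2s.isClosed (box_open (-41) (-39) (-4) 4 56 64) ?_
  intro p hp
  constructor
  · rintro ⟨⟨h1, h2⟩, ⟨h3, h4⟩, h5, h6⟩
    have hX : p.1 = -40 := by
      rcases T2s_cases hp with hp | hp | hp
      · linarith
      · rcases (lathe_l_cases hp).2 with h | (h | h) | (h | h)
        · linarith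
        · exact h
        all_goals exfalso; linarith
      · linarith [(lathe_r_cases hp).1.1.1]
    refine ⟨(p.2.1 / 4, (p.2.2 - 60) / 4), ?_, ?_⟩
    · rw [mem_ball_zero_iff, norm_lt_iff, abs_lt, abs_lt]
      refine ⟨⟨?_, ?_⟩, ?_, ?_⟩ <;> simp only <;> linarith
    · simp only [sg2_io]; ext <;> simp only <;> linarith
  · rintro ⟨y, hy, rfl⟩
    rw [mem_ball_zero_iff, norm_lt_iff, abs_lt, abs_lt] at hy
    simp only [sg2_io, mem_ofPred_eq]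
    refine ⟨⟨?_, ?_⟩, ⟨?_, ?_⟩, ?_, ?_⟩ <;> linarith [hy.1.1, hy.1.2, hy.2.1, hy.2.2]

theorem host2_c2 : IsClosed (T2s \ (fun y => sg2 (tau (io y))) '' Metric.ball 0 1) := by
  refine diff_closed isSph_T2s.isClosed (box_open 39 41 (-4) 4 56 64) ?_
  intro p hp
  constructor
  · rintro ⟨⟨h1, h2⟩, ⟨h3, h4⟩, h5, h6⟩
    have hX : p.1 = 40 := by
      rcases T2s_cases hp with hp | hp | hp
      · linarith
      · linarith [(lathe_l_cases hp).1.1.2]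
      · rcases (lathe_r_cases hp).2 with h | (h | h) | (h | h)
        · linarith
        · linarith
        · exact h
        all_goals exfalso; linarith
    refine ⟨((p.2.2 - 60) / 4, p.2.1 / 4), ?_, ?_⟩
    · rw [mem_ball_zero_iff, norm_lt_iff, abs_lt, abs_lt]
      refine ⟨⟨?_, ?_⟩, ?_, ?_⟩ <;> simp only <;> linarith
    · simp only [sg2_tio]; ext <;> simp only <;> linarith
  · rintro ⟨y, hy, rfl⟩
    rw [mem_ball_zero_iff, norm_lt_iff, abs_lt, abs_lt] at hy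
    simp only [sg2_tio, mem_ofPred_eq]
    refine ⟨⟨?_, ?_⟩, ⟨?_, ?_⟩, ?_, ?_⟩ <;> linarith [hy.1.1, hy.1.2, hy.2.1, hy.2.2]

theorem host2_D {p : R3} (hp : p ∈ BB) (hx : |p.1| < 20) : sg2 p ∉ T2s := by
  simp only [BB, mem_ofPred_eq, abs_le] at hp
  rw [abs_lt] at hx
  intro h
  rcases T2s_cases h with h | h | h
  · simp only [sg2] at h; linarith [hp.2.2.1]
  · have := (lathe_l_cases h).1.1.2
    simp only [sg2] at this; linarith
  · have := (lathe_r_cases h).1.1.1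
    simp only [sg2] at this; linarith

/-- the inner wild sphere -/
noncomputable def Stwo : Set R3 := surf T2s sg2

theorem isSph_Stwo : IsSph Stwo :=
  host_sph isSph_T2s sg2_cont sg2_inj (fun _ h => host2_h1 h) (fun _ h => host2_h2 h) host2_c1
    host2_c2 (fun _ h => host2_D h)

/-- the inner horned ball -/
def Htwo : Set R3 := R2s ∪ sg2i ⁻¹' XX

theorem Fr_Stwo : Fr Htwo Stwo := by
  refine host_Fr Fr_T2s sg2i_cont sg2_sg2i sg2i_sg2 ?_ ?_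
  · intro y hy
    rw [norm_lt_iff, abs_lt, abs_lt] at hy
    refine mem_of_superset ((box_open (-41) (-39) (-4) 4 56 64).mem_nhds ?_) ?_
    · simp only [sg2_io, mem_ofPred_eq]
      refine ⟨⟨?_, ?_⟩, ⟨?_, ?_⟩, ?_, ?_⟩ <;> linarith [hy.1.1, hy.1.2, hy.2.1, hy.2.2]
    · rintro p ⟨⟨h1, h2⟩, ⟨h3, h4⟩, h5, h6⟩
      rcases le_total p.1 (-40) with h | h
      · left; left; right
        simp only [PL, mem_ofPred_eq, abs_le]
        refine ⟨⟨?_, ?_⟩, ⟨?_, ?_⟩, ?_, ?_⟩ <;> linarith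
      · right
        refine KT_sub_XX ?_
        simp only [KT, sg2i, mem_ofPred_eq, abs_le]
        refine ⟨?_, ?_, ⟨?_, ?_⟩, ?_, ?_⟩ <;> linarith
  · intro y hy
    rw [norm_lt_iff, abs_lt, abs_lt] at hy
    refine mem_of_superset ((box_open 39 41 (-4) 4 56 64).mem_nhds ?_) ?_
    · simp only [sg2_tio, mem_ofPred_eq]
      refine ⟨⟨?_, ?_⟩, ⟨?_, ?_⟩, ?_, ?_⟩ <;> linarith [hy.1.1, hy.1.2, hy.2.1, hy.2.2]
    · rintro p ⟨⟨h1, h2⟩, ⟨h3, h4⟩, h5, h6⟩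
      rcases le_total 40 p.1 with h | h
      · left; right
        simp only [PR, mem_ofPred_eq, abs_le]
        refine ⟨⟨?_, ?_⟩, ⟨?_, ?_⟩, ?_, ?_⟩ <;> linarith
      · right
        refine tau_XX.1 (KT_sub_XX ?_)
        simp only [KT, sg2i, tau, mem_ofPred_eq, abs_le]
        refine ⟨?_, ?_, ⟨?_, ?_⟩, ?_, ?_⟩ <;> linarith

end Sph9fe
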