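import Pool.Agent.Work.MP_9fe036_gt.Geo

namespace Sph9fe

open Topology Filter Set

abbrev R2 := ℝ × ℝ

noncomputable def mm (x : R2) : ℝ := min 1 (max ‖x‖ (1 / 2))

noncomputable def lathe (Ψ : ℝ → R2 → R3) (x : R2) : R3 := Ψ (2 * (1 - mm x)) ((mm x)⁻¹ • x)

theorem mm_ge (x : R2) : 1 / 2 ≤ mm x := le_min (by norm_num) (le_max_right _ _)
theorem mm_le (x : R2) : mm x ≤ 1 := min_le_left _ _
theorem mm_pos (x : R2) : 0 < mm x := lt_of_lt_of_le (by norm_num) (mm_ge x)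

theorem mm_cont : Continuous mm := by unfold mm; fun_prop

theorem lathe_cont {Ψ : ℝ → R2 → R3} (hΨ : Continuous (fun q : ℝ × R2 => Ψ q.1 q.2)) :
    Continuous (lathe Ψ) := by
  unfold lathe
  have h1 : Continuous (fun x : R2 => (2 * (1 - mm x), (mm x)⁻¹ • x)) := by
    have := mm_cont
    have h2 : Continuous (fun x : R2 => (mm x)⁻¹) := this.inv₀ (fun x => (mm_pos x).ne')
    fun_prop
  exact hΨ.comp h1

theorem mm_of_ge {x : R2} (h : 1 ≤ ‖x‖) : mm x = 1 := by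
  unfold mm; rw [min_eq_left]; exact le_trans h (le_max_left _ _)

theorem mm_of_le {x : R2} (h : ‖x‖ ≤ 1 / 2) : mm x = 1 / 2 := by
  unfold mm; rw [max_eq_right h, min_eq_right]; norm_num

theorem mm_of_mid {x : R2} (h : 1 / 2 ≤ ‖x‖) (h' : ‖x‖ ≤ 1) : mm x = ‖x‖ := by
  unfold mm; rw [max_eq_left h, min_eq_right h']

theorem lathe_ge (Ψ : ℝ → R2 → R3) {x : R2} (h : 1 ≤ ‖x‖) : lathe Ψ x = Ψ 0 x := by
  unfold lathe; rw [mm_of_ge h]; norm_num

theorem lathe_le (Ψ : ℝ → R2 → R3) {x : R2} (h : ‖x‖ ≤ 1 / 2) : lathe Ψ x = Ψ 1 ((2 : ℝ) • x) := by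
  unfold lathe; rw [mm_of_le h]; norm_num

theorem mm_norm {x : R2} (h : ‖x‖ ≤ 1) : ‖x‖ ≤ mm x :=
  le_min h (le_max_left _ _)

theorem norm_y {x : R2} (h : ‖x‖ ≤ 1) : ‖(mm x)⁻¹ • x‖ ≤ 1 := by
  rw [norm_smul, norm_inv, Real.norm_of_nonneg (mm_pos x).le, inv_mul_le_iff₀ (mm_pos x), mul_one]
  exact mm_norm h

theorem norm_y_eq {x : R2} (h : ‖x‖ ≤ 1) (hm : mm x ≠ 1 / 2) : ‖(mm x)⁻¹ • x‖ = 1 := by
  rcases le_or_gt ‖x‖ (1 / 2) with h1 | h1
  · exact absurd (mm_of_le h1) hm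
  · rw [mm_of_mid h1.le h, norm_smul, norm_inv, norm_norm, inv_mul_cancel₀]
    linarith

/-- description of the image -/
theorem lathe_surj (Ψ : ℝ → R2 → R3) {θ : ℝ} {y : R2} (h0 : 0 ≤ θ) (h1 : θ ≤ 1) (hy : ‖y‖ ≤ 1)
    (h : θ = 1 ∨ ‖y‖ = 1) : ‖(1 - θ / 2) • y‖ ≤ 1 ∧ lathe Ψ ((1 - θ / 2) • y) = Ψ θ y := by
  have hpos : 0 < 1 - θ / 2 := by linarith
  have hn : ‖(1 - θ / 2) • y‖ = (1 - θ / 2) * ‖y‖ := by
    rw [norm_smul, Real.norm_of_nonneg hpos.le]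
  have hle : ‖(1 - θ / 2) • y‖ ≤ 1 := by
    rw [hn]; nlinarith [norm_nonneg y]
  refine ⟨hle, ?_⟩
  have hm : mm ((1 - θ / 2) • y) = 1 - θ / 2 := by
    rcases h with h | h
    · subst h
      rw [mm_of_le]; norm_num
      rw [hn]; nlinarith [norm_nonneg y]
    · rw [mm_of_mid _ hle, hn, h, mul_one]
      rw [hn, h]; linarith
  unfold lathe
  rw [hm]
  congr 1
  · ring
  · rw [smul_smul, inv_mul_cancel₀ hpos.ne', one_smul]

theorem lathe_inj {Ψ : ℝ → R2 → R3}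
    (hinj : ∀ θ θ' y y', 0 ≤ θ → θ ≤ 1 → 0 ≤ θ' → θ' ≤ 1 → ‖y‖ ≤ 1 → ‖y'‖ ≤ 1 →
      Ψ θ y = Ψ θ' y' → θ = θ' ∧ y = y') {x x' : R2} (hx : ‖x‖ ≤ 1) (hx' : ‖x'‖ ≤ 1)
    (h : lathe Ψ x = lathe Ψ x') : x = x' := by
  unfold lathe at h
  have := hinj _ _ _ _ (by linarith [mm_le x]) (by linarith [mm_ge x]) (by linarith [mm_le x'])
    (by linarith [mm_ge x']) (norm_y hx) (norm_y hx') h
  have hm : mm x = mm x' := by linarith [this.1]
  have h2 := this.2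
  rw [hm] at h2
  have := congrArg (fun z => mm x' • z) h2
  simpa [smul_smul, mul_inv_cancel₀ (mm_pos x').ne'] using this

theorem norm_le_iff (x : R2) (r : ℝ) : ‖x‖ ≤ r ↔ |x.1| ≤ r ∧ |x.2| ≤ r := by
  rw [Prod.norm_def, max_le_iff, Real.norm_eq_abs, Real.norm_eq_abs]

theorem norm_lt_iff (x : R2) (r : ℝ) : ‖x‖ < r ↔ |x.1| < r ∧ |x.2| < r := by
  rw [Prod.norm_def, max_lt_iff, Real.norm_eq_abs, Real.norm_eq_abs]

/-! ### the two pieces -/

noncomputable def cl (t : ℝ) : ℝ := max 0 (min 1 t)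

theorem cl_nonneg (t : ℝ) : 0 ≤ cl t := le_max_left _ _
theorem cl_le (t : ℝ) : cl t ≤ 1 := max_le (by norm_num) (min_le_left _ _)
theorem cl_of_le {t : ℝ} (h : t ≤ 0) : cl t = 0 := by
  unfold cl; rw [max_eq_left]; exact le_trans (min_le_right _ _) h
theorem cl_of_ge {t : ℝ} (h : 1 ≤ t) : cl t = 1 := by
  unfold cl; rw [min_eq_left h]; norm_num
theorem cl_of_mem {t : ℝ} (h : 0 ≤ t) (h' : t ≤ 1) : cl t = t := by
  unfold cl; rw [min_eq_right h', max_eq_right h]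

/-- frustum -/
noncomputable def ΨT (θ : ℝ) (y : R2) : R3 := (-20 + 4 * θ, (4 + 11 * θ) * y.1, 4 * y.2)

/-- tube -/
noncomputable def ΨU (θ : ℝ) (y : R2) : R3 :=
  (-16 + cl (3 * θ) * (22 - y.1) - cl (3 * θ - 2) * (2 - y.1),
    -13 + y.1 + cl (3 * θ - 1) * (26 - 2 * y.1), y.2)

theorem ΨT_cont : Continuous (fun q : ℝ × R2 => ΨT q.1 q.2) := by unfold ΨT; fun_prop
theorem ΨU_cont : Continuous (fun q : ℝ × R2 => ΨU q.1 q.2) := by unfold ΨU cl; fun_prop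

/-- the base square -/
def io (y : R2) : R3 := (-20, 4 * y.1, 4 * y.2)

theorem ΨT_zero (y : R2) : ΨT 0 y = io y := by
  unfold ΨT io; ext <;> simp

theorem ΨT_one (y : R2) : ΨT 1 y = (-16, 15 * y.1, 4 * y.2) := by
  unfold ΨT; ext <;> simp <;> norm_num

theorem ΨU_zero (y : R2) : ΨU 0 y = (-16, -13 + y.1, y.2) := by
  unfold ΨU
  rw [cl_of_le (show (3:ℝ) * 0 ≤ 0 by norm_num), cl_of_le (show (3:ℝ) * 0 - 1 ≤ 0 by norm_num),
    cl_of_le (show (3:ℝ) * 0 - 2 ≤ 0 by norm_num)]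
  ext <;> simp

theorem ΨU_one (y : R2) : ΨU 1 y = (4, 13 - y.1, y.2) := by
  unfold ΨU
  rw [cl_of_ge (show 1 ≤ (3:ℝ) * 1 by norm_num), cl_of_ge (show 1 ≤ (3:ℝ) * 1 - 1 by norm_num),
    cl_of_ge (show 1 ≤ (3:ℝ) * 1 - 2 by norm_num)]
  ext <;> simp <;> ring

theorem ΨT_inj : ∀ θ θ' y y', 0 ≤ θ → θ ≤ 1 → 0 ≤ θ' → θ' ≤ 1 → ‖y‖ ≤ 1 → ‖y'‖ ≤ 1 →
      ΨT θ y = ΨT θ' y' → θ = θ' ∧ y = y' := by
  intro θ θ' y y' h0 _ _ _ _ _ h
  simp only [ΨT, Prod.mk.injEq] at h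
  obtain ⟨h1, h2, h3⟩ := h
  have e : θ = θ' := by linarith
  subst e
  refine ⟨rfl, Prod.ext ?_ (by linarith)⟩
  have : (0 : ℝ) < 4 + 11 * θ := by linarith
  exact mul_left_cancel₀ this.ne' h2

theorem ΨU_inj : ∀ θ θ' y y', 0 ≤ θ → θ ≤ 1 → 0 ≤ θ' → θ' ≤ 1 → ‖y‖ ≤ 1 → ‖y'‖ ≤ 1 →
      ΨU θ y = ΨU θ' y' → θ = θ' ∧ y = y' := by
  -- the first coordinate of `y` is recovered as a minimum
  have key : ∀ θ (y : R2), 0 ≤ θ → θ ≤ 1 → ‖y‖ ≤ 1 →
      min ((ΨU θ y).2.1 + 13) (min (6 - (ΨU θ y).1) (13 - (ΨU θ y).2.1)) = y.1 := by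
    intro θ y h0 h1 hy
    rw [norm_le_iff] at hy
    have hy1 := abs_le.1 hy.1
    simp only [ΨU]
    rcases le_total (3 * θ) 1 with ha | ha
    · rw [cl_of_mem (show 0 ≤ 3 * θ by linarith) ha, cl_of_le (show 3 * θ - 1 ≤ 0 by linarith),
        cl_of_le (show 3 * θ - 2 ≤ 0 by linarith)]
      rw [min_eq_left]
      · ring
      · refine le_min ?_ ?_ <;> nlinarith
    · rcases le_total (3 * θ) 2 with hb | hb
      · rw [cl_of_ge ha, cl_of_mem (show 0 ≤ 3 * θ - 1 by linarith) (by linarith),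
          cl_of_le (show 3 * θ - 2 ≤ 0 by linarith)]
        rw [min_eq_right, min_eq_left]
        · ring
        · nlinarith
        · refine le_trans (min_le_left _ _) ?_
          nlinarith
      · rw [cl_of_ge ha, cl_of_ge (show 1 ≤ 3 * θ - 1 by linarith),
          cl_of_mem (show 0 ≤ 3 * θ - 2 by linarith) (by linarith)]
        rw [min_eq_right, min_eq_right]
        · ring
        · nlinarith
        · refine le_trans (min_le_right _ _) ?_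
          nlinarith
  intro θ θ' y y' h0 h1 h0' h1' hy hy' h
  have e1 : y.1 = y'.1 := by rw [← key θ y h0 h1 hy, h, key θ' y' h0' h1' hy']
  rw [norm_le_iff] at hy hy'
  have hy1 := abs_le.1 hy.1
  simp only [ΨU, Prod.mk.injEq] at h
  obtain ⟨hx, hyy, hz⟩ := h
  rw [← e1] at hx hyy
  have e2 : cl (3 * θ - 1) = cl (3 * θ' - 1) := by
    have : (0 : ℝ) < 26 - 2 * y.1 := by linarith
    have h5 : cl (3 * θ - 1) * (26 - 2 * y.1) = cl (3 * θ' - 1) * (26 - 2 * y.1) := by linarith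
    exact mul_right_cancel₀ this.ne' h5
  refine ⟨?_, Prod.ext e1 hz⟩
  have p1 : (0 : ℝ) < 22 - y.1 := by linarith
  have p2 : (0 : ℝ) < 2 - y.1 := by linarith
  -- cases
  rcases le_total (3 * θ) 1 with ha | ha
  · have c2 : cl (3 * θ - 1) = 0 := cl_of_le (by linarith)
    rw [c2] at e2
    have hb : 3 * θ' ≤ 1 := by
      by_contra hcon
      push Not at hcon
      have : 0 < cl (3 * θ' - 1) := by
        unfold cl
        exact lt_max_of_lt_right (lt_min (by norm_num) (by linarith))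
      linarith
    rw [cl_of_mem (show 0 ≤ 3 * θ by linarith) ha, cl_of_mem (show 0 ≤ 3 * θ' by linarith) hb,
      cl_of_le (show 3 * θ - 2 ≤ 0 by linarith), cl_of_le (show 3 * θ' - 2 ≤ 0 by linarith)] at hx
    have : (3 * θ) * (22 - y.1) = (3 * θ') * (22 - y.1) := by linarith
    have := mul_right_cancel₀ p1.ne' this
    linarith
  · rcases lt_or_ge (3 * θ) 2 with hb | hb
    · have c2 : cl (3 * θ - 1) = 3 * θ - 1 := cl_of_mem (by linarith) (by linarith)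
      rw [c2] at e2
      rcases le_total (3 * θ') 1 with hc | hc
      · rw [cl_of_le (show 3 * θ' - 1 ≤ 0 by linarith)] at e2
        have hc1 : 3 * θ = 1 := by linarith
        rw [hc1, cl_of_ge (le_refl 1), cl_of_le (show (1:ℝ) - 2 ≤ 0 by norm_num),
          cl_of_mem (show 0 ≤ 3 * θ' by linarith) hc, cl_of_le (show 3 * θ' - 2 ≤ 0 by linarith)] at hx
        have : (1 : ℝ) * (22 - y.1) = (3 * θ') * (22 - y.1) := by linarith
        have := mul_right_cancel₀ p1.ne' this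
        linarith
      · rcases le_total (3 * θ') 2 with hd | hd
        · rw [cl_of_mem (show 0 ≤ 3 * θ' - 1 by linarith) (by linarith)] at e2
          linarith
        · rw [cl_of_ge (show 1 ≤ 3 * θ' - 1 by linarith)] at e2
          linarith
    · have c2 : cl (3 * θ - 1) = 1 := cl_of_ge (by linarith)
      rw [c2] at e2
      have hc : 2 ≤ 3 * θ' := by
        by_contra hcon
        push Not at hcon
        have : cl (3 * θ' - 1) < 1 := by
          unfold cl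
          exact max_lt (by norm_num) (min_lt_of_right_lt (by linarith))
        linarith
      rw [cl_of_ge (show 1 ≤ 3 * θ by linarith), cl_of_ge (show 1 ≤ 3 * θ' by linarith),
        cl_of_mem (show 0 ≤ 3 * θ - 2 by linarith) (by linarith),
        cl_of_mem (show 0 ≤ 3 * θ' - 2 by linarith) (by linarith)] at hx
      have : (3 * θ - 2) * (2 - y.1) = (3 * θ' - 2) * (2 - y.1) := by linarith
      have := mul_right_cancel₀ p2.ne' this
      linarith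

end Sph9fe
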