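import Pool.Agent.Work.MP_9fe036_gt.Sphere
import Pool.Agent.Work.MP_9fe036_gt.Alg

namespace Sph9fe

open Topology Filter Set

/-- unit square -/
def sq : Set (ℝ × ℝ) := Icc 0 1 ×ˢ Icc 0 1

theorem sq_compact : IsCompact sq := isCompact_Icc.prod isCompact_Icc

theorem sq_convex : Convex ℝ sq := (convex_Icc 0 1).prod (convex_Icc 0 1)

section

variable {X G K : Type*} [TopologicalSpace X] [Group G] [Group K]

theorem TrivOn.map {A : Set X} {k : X → X → K} {ψ : X → K} (h : TrivOn A k ψ) (π : K →* G) :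
    TrivOn A (fun a b => π (k a b)) (fun a => π (ψ a)) := by
  intro a ha
  filter_upwards [h a ha] with b hb
  rw [hb]; simp

theorem LocTriv.map {U : Set X} {k : X → X → K} (h : LocTriv U k) (π : K →* G) :
    LocTriv U (fun a b => π (k a b)) := by
  intro a ha
  obtain ⟨σ, hσ⟩ := h a ha
  refine ⟨fun x => π (σ x), ?_⟩
  filter_upwards [hσ] with b hb
  rw [hb]; simp

omit [TopologicalSpace X] in
/-- horizontal periods -/
theorem per_s {H : X → X → G} {F : ℝ × ℝ → X} {Ψ : ℝ × ℝ → G}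
    (hΨ : TrivOn sq (fun a b => H (F a) (F b)) Ψ) (hF : ∀ t, F (0, t) = F (1, t))
    {t t' : ℝ} (ht : t ∈ Icc (0 : ℝ) 1) (ht' : t' ∈ Icc (0 : ℝ) 1) :
    Ψ (1, t) * (Ψ (0, t))⁻¹ = Ψ (1, t') * (Ψ (0, t'))⁻¹ := by
  have h0 := hΨ.comp (B := Icc (0:ℝ) 1) (F := fun t : ℝ => ((0 : ℝ), t)) (by fun_prop)
    (fun t ht => ⟨by simp, ht⟩)
  have h1 := hΨ.comp (B := Icc (0:ℝ) 1) (F := fun t : ℝ => ((1 : ℝ), t)) (by fun_prop)
    (fun t ht => ⟨by simp, ht⟩)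
  have h1' : TrivOn (Icc (0 : ℝ) 1) (fun a b => H (F (0, a)) (F (0, b))) (fun t => Ψ (1, t)) :=
    h1.congr (fun a _ => Eventually.of_forall fun b => by rw [hF, hF])
  exact TrivOn.unique isPreconnected_Icc h0 h1' ht ht'

omit [TopologicalSpace X] in
/-- vertical periods -/
theorem per_t {H : X → X → G} {F : ℝ × ℝ → X} {Ψ : ℝ × ℝ → G}
    (hΨ : TrivOn sq (fun a b => H (F a) (F b)) Ψ) (hF : ∀ s, F (s, 0) = F (s, 1))
    {s s' : ℝ} (hs : s ∈ Icc (0 : ℝ) 1) (hs' : s' ∈ Icc (0 : ℝ) 1) :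
    Ψ (s, 1) * (Ψ (s, 0))⁻¹ = Ψ (s', 1) * (Ψ (s', 0))⁻¹ := by
  have h0 := hΨ.comp (B := Icc (0:ℝ) 1) (F := fun t : ℝ => (t, (0 : ℝ))) (by fun_prop)
    (fun t ht => ⟨ht, by simp⟩)
  have h1 := hΨ.comp (B := Icc (0:ℝ) 1) (F := fun t : ℝ => (t, (1 : ℝ))) (by fun_prop)
    (fun t ht => ⟨ht, by simp⟩)
  have h1' : TrivOn (Icc (0 : ℝ) 1) (fun a b => H (F (a, 0)) (F (b, 0))) (fun t => Ψ (t, 1)) :=
    h1.congr (fun a _ => Eventually.of_forall fun b => by rw [hF, hF])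
  exact TrivOn.unique isPreconnected_Icc h0 h1' hs hs'

/-- a null-homotopic loop has trivial holonomy -/
theorem null_hol {U : Set X} {H : X → X → G} (hH : LocTriv U H) {E : ℝ × ℝ → X}
    (hE : Continuous E) (hEU : ∀ a ∈ sq, E a ∈ U) (ha : ∀ t, E (0, t) = E (1, t))
    (hb : ∀ s s', E (s, 1) = E (s', 1)) {γ : ℝ → X} (hγ : ∀ s, E (s, 0) = γ s) {ψ : ℝ → G}
    (hψ : TrivOn (Icc (0 : ℝ) 1) (fun a b => H (γ a) (γ b)) ψ) : ψ 0 = ψ 1 := by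
  obtain ⟨χ, hχ⟩ := exists_trivOn_convex sq_compact sq_convex (U := E ⁻¹' U)
    (fun a ha => hEU a ha) (hH.comp hE)
  -- top edge: constant
  have hz : (0 : ℝ) ∈ Icc (0 : ℝ) 1 := by simp
  have ho : (1 : ℝ) ∈ Icc (0 : ℝ) 1 := by simp
  have htop := hχ.comp (B := Icc (0:ℝ) 1) (F := fun t : ℝ => (t, (1 : ℝ))) (by fun_prop)
    (fun t ht => ⟨ht, by simp⟩)
  have hE1 : H (E (0, 1)) (E (0, 1)) = 1 := by
    obtain ⟨σ, hσ⟩ := hH (E (0, 1)) (hEU _ ⟨by simp, by simp⟩)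
    have := hσ.self_of_nhds
    simpa using this
  have hone : TrivOn (Icc (0 : ℝ) 1) (fun a b => H (E (a, 1)) (E (b, 1))) (fun _ => (1 : G)) := by
    intro a _
    refine Eventually.of_forall fun b => ?_
    show H (E (a, 1)) (E (b, 1)) = _
    rw [hb a 0, hb b 0, hE1]; simp
  have h1 := TrivOn.unique isPreconnected_Icc hone htop hz ho
  simp only [inv_one, mul_one] at h1
  have h2 := per_s hχ ha hz ho
  rw [h1] at h2
  have h3 : χ (1, 0) = χ (0, 0) := by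
    rw [mul_inv_cancel] at h2
    exact mul_inv_eq_one.1 h2
  have hbot := hχ.comp (B := Icc (0:ℝ) 1) (F := fun t : ℝ => (t, (0 : ℝ))) (by fun_prop)
    (fun t ht => ⟨ht, by simp⟩)
  have hψ' : TrivOn (Icc (0 : ℝ) 1) (fun a b => H (E (a, 0)) (E (b, 0))) ψ :=
    hψ.congr (fun a _ => Eventually.of_forall fun b => by rw [hγ, hγ])
  have h4 := TrivOn.unique isPreconnected_Icc hbot hψ' hz ho
  rw [h3] at h4
  exact mul_right_cancel h4

end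

universe u

theorem core {X : Type*} [MetricSpace X] {Gh : Type u} [Group Gh] (N : Subgroup Gh) [N.Normal]
    (hc : ∀ z ∈ N, ∀ g : Gh, z * g = g * z) (h2 : ∀ z ∈ N, z * z = 1)
    {N1 N2 S I O : Set X} (e : S2 ≃ₜ S) (hSN : S ⊆ (N1 ∪ N2)ᶜ)
    (hI : IsOpen I) (hO : IsOpen O) (hcover : ∀ p, p ∈ I ∨ p ∈ S ∨ p ∈ O)
    (hIO : ∀ p ∈ I, p ∉ O)
    (hN2 : N2 ⊆ I) (hN1 : N1 ⊆ O)
    {h : X → X → Gh ⧸ N} (hh : LocTriv (N1 ∪ N2)ᶜ h)
    {F : ℝ × ℝ → X} (hF : Continuous F)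
    (hFs : ∀ t, F (0, t) = F (1, t)) (hFt : ∀ s, F (s, 0) = F (s, 1))
    (hFU : ∀ a ∈ sq, F a ∈ (N1 ∪ N2)ᶜ)
    {E1 : ℝ × ℝ → X} (hE1 : Continuous E1) (hE1a : ∀ t, E1 (0, t) = E1 (1, t))
    (hE1b : ∀ s s', E1 (s, 1) = E1 (s', 1)) {t₀ : ℝ} (ht₀ : t₀ ∈ Icc (0 : ℝ) 1)
    (hE1c : ∀ s, E1 (s, 0) = F (s, t₀)) (hE1N : ∀ a ∈ sq, E1 a ∈ N2ᶜ)
    {E2 : ℝ × ℝ → X} (hE2 : Continuous E2) (hE2a : ∀ t, E2 (0, t) = E2 (1, t))
    (hE2b : ∀ s s', E2 (s, 1) = E2 (s', 1)) {s₀ : ℝ} (hs₀ : s₀ ∈ Icc (0 : ℝ) 1)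
    (hE2c : ∀ s, E2 (s, 0) = F (s₀, s)) (hE2N : ∀ a ∈ sq, E2 a ∈ N1ᶜ)
    {ψ0 : ℝ × ℝ → Gh ⧸ N} (hψ0 : TrivOn sq (fun a b => h (F a) (F b)) ψ0)
    {s t : Gh} (hst : s * t ≠ t * s)
    (hs : ψ0 (1, 0) * (ψ0 (0, 0))⁻¹ = (s : Gh ⧸ N)) (ht : ψ0 (0, 1) * (ψ0 (0, 0))⁻¹ = (t : Gh ⧸ N)) :
    False := by
  classical
  obtain ⟨K, instK, i₁, i₂, π₁, π₂, π₃, h11, h12, h21, h22, h31, h32, hfin⟩ :=
    exists_package N hc h2
  obtain ⟨φ, hφ⟩ := triv_near_sphere e hSN hh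
  -- gauge transformation
  let h' : X → X → Gh ⧸ N := fun u v => φ u * h u v * (φ v)⁻¹
  have hh' : LocTriv (N1 ∪ N2)ᶜ h' := by
    intro p hp
    obtain ⟨σ, hσ⟩ := hh p hp
    refine ⟨fun x => σ x * (φ x)⁻¹, ?_⟩
    filter_upwards [hσ] with q hq
    show φ q.1 * h q.1 q.2 * (φ q.2)⁻¹ = _
    rw [hq]; group
  have h'S : ∀ p ∈ S, ∀ᶠ q in 𝓝 (p, p), h' q.1 q.2 = 1 := by
    intro p hp
    filter_upwards [hφ p hp] with q hq
    show φ q.1 * h q.1 q.2 * (φ q.2)⁻¹ = 1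
    rw [hq]; group
  -- glued functions
  have glue : ∀ (L : Type u) (_ : Group L) (j₁ j₂ : (Gh ⧸ N) →* L),
      LocTriv (N1 ∪ N2)ᶜ (fun u v : X => if u ∈ I ∧ v ∈ I then j₁ (h' u v) else
        if u ∈ O ∧ v ∈ O then j₂ (h' u v) else 1) := by
    intro L _ j₁ j₂ p hp
    rcases hcover p with hpI | hpS | hpO
    · obtain ⟨σ, hσ⟩ := hh' p hp
      refine ⟨fun x => j₁ (σ x), ?_⟩
      have hI2 : ∀ᶠ q : X × X in 𝓝 (p, p), q.1 ∈ I ∧ q.2 ∈ I := by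
        rw [nhds_prod_eq]
        exact Filter.prod_mem_prod (hI.mem_nhds hpI) (hI.mem_nhds hpI)
      filter_upwards [hσ, hI2] with q hq hqI
      rw [if_pos hqI, hq]; simp
    · refine ⟨fun _ => 1, ?_⟩
      filter_upwards [h'S p hpS] with q hq
      rw [hq]; simp
    · obtain ⟨σ, hσ⟩ := hh' p hp
      refine ⟨fun x => j₂ (σ x), ?_⟩
      have hO2 : ∀ᶠ q : X × X in 𝓝 (p, p), q.1 ∈ O ∧ q.2 ∈ O := by
        rw [nhds_prod_eq]
        exact Filter.prod_mem_prod (hO.mem_nhds hpO) (hO.mem_nhds hpO)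
      filter_upwards [hσ, hO2] with q hq hqO
      rw [if_neg (fun hc => hIO _ hc.1 hqO.1), if_pos hqO, hq]; simp
  let H : X → X → K := fun u v : X => if u ∈ I ∧ v ∈ I then i₁ (h' u v) else
        if u ∈ O ∧ v ∈ O then i₂ (h' u v) else 1
  have hH : LocTriv (N1 ∪ N2)ᶜ H := glue K instK i₁ i₂
  -- the trivialisation on the square
  obtain ⟨Ψ, hΨ⟩ := exists_trivOn_convex sq_compact sq_convex (U := F ⁻¹' (N1 ∪ N2)ᶜ)
    (fun a ha => hFU a ha) (hH.comp hF)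
  have hz : (0 : ℝ) ∈ Icc (0 : ℝ) 1 := by simp
  have ho : (1 : ℝ) ∈ Icc (0 : ℝ) 1 := by simp
  set l := Ψ (0, 1) * (Ψ (0, 0))⁻¹ with hl
  set m := Ψ (1, 0) * (Ψ (0, 0))⁻¹ with hm
  have pt : Ψ (1, 1) * (Ψ (1, 0))⁻¹ = l := per_t hΨ hFt ho hz
  have ps : Ψ (1, 1) * (Ψ (0, 1))⁻¹ = m := per_s hΨ hFs ho hz
  have hlm : l * m = m * l := by
    calc l * m = (Ψ (1, 1) * (Ψ (1, 0))⁻¹) * (Ψ (1, 0) * (Ψ (0, 0))⁻¹) := by rw [pt]
      _ = (Ψ (1, 1) * (Ψ (0, 1))⁻¹) * (Ψ (0, 1) * (Ψ (0, 0))⁻¹) := by group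
      _ = m * l := by rw [ps]
  -- first coordinate
  have hπ1 : TrivOn sq (fun a b => h' (F a) (F b)) (fun a => π₁ (Ψ a)) := by
    refine (hΨ.map π₁).congr ?_
    intro a ha
    have hcomp : Tendsto (fun b => (F a, F b)) (𝓝[sq] a) (𝓝 (F a, F a)) :=
      (by fun_prop : Continuous (fun b => (F a, F b))).continuousWithinAt
    rcases hcover (F a) with hpI | hpS | hpO
    · have hI2 : ∀ᶠ b in 𝓝[sq] a, F b ∈ I :=
        (hF.continuousWithinAt (s := sq) (x := a)) (hI.mem_nhds hpI)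
      filter_upwards [hI2] with b hb
      show _ = π₁ (if F a ∈ I ∧ F b ∈ I then _ else _)
      rw [if_pos ⟨hpI, hb⟩, h11]
    · filter_upwards [hcomp.eventually (h'S _ hpS)] with b hb
      show h' (F a) (F b) = π₁ (if _ then i₁ (h' (F a) (F b)) else if _ then i₂ (h' (F a) (F b)) else 1)
      have hb' : h' (F a) (F b) = 1 := hb
      rw [hb']; simp
    · have hO2 : ∀ᶠ b in 𝓝[sq] a, F b ∈ O :=
        (hF.continuousWithinAt (s := sq) (x := a)) (hO.mem_nhds hpO)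
      filter_upwards [hO2] with b hb
      show _ = π₁ (if F a ∈ I ∧ F b ∈ I then _ else if F a ∈ O ∧ F b ∈ O then _ else _)
      rw [if_neg (fun hc => hIO _ hc.1 hpO), if_pos ⟨hpO, hb⟩, h12]
  have hψ' : TrivOn sq (fun a b => h' (F a) (F b)) (fun a => ψ0 a * (φ (F a))⁻¹) := by
    intro a ha
    filter_upwards [hψ0 a ha] with b hb
    show φ (F a) * h (F a) (F b) * (φ (F b))⁻¹ = _
    rw [hb]; group
  have hsq : IsPreconnected sq := sq_convex.isPreconnected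
  have m00 : ((0 : ℝ), (0 : ℝ)) ∈ sq := ⟨hz, hz⟩
  have m10 : ((1 : ℝ), (0 : ℝ)) ∈ sq := ⟨ho, hz⟩
  have m01 : ((0 : ℝ), (1 : ℝ)) ∈ sq := ⟨hz, ho⟩
  have u1 := TrivOn.unique hsq hψ' hπ1 m00 m10
  have u2 := TrivOn.unique hsq hψ' hπ1 m00 m01
  rw [← hFs 0] at u1
  rw [← hFt 0] at u2
  set C := π₁ (Ψ (0, 0)) * (ψ0 (0, 0) * (φ (F (0, 0)))⁻¹)⁻¹ with hC
  have hm1 : π₁ m = C * (s : Gh ⧸ N) * C⁻¹ := by
    rw [← hs, hm, map_mul, map_inv]
    have e1 : π₁ (Ψ (1, 0)) = C * (ψ0 (1, 0) * (φ (F (0, 0)))⁻¹) := by rw [u1]; group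
    have e0 : π₁ (Ψ (0, 0)) = C * (ψ0 (0, 0) * (φ (F (0, 0)))⁻¹) := by rw [hC]; group
    rw [e1, e0]; group
  have hl1 : π₁ l = C * (t : Gh ⧸ N) * C⁻¹ := by
    rw [← ht, hl, map_mul, map_inv]
    have e1 : π₁ (Ψ (0, 1)) = C * (ψ0 (0, 1) * (φ (F (0, 0)))⁻¹) := by rw [u2]; group
    have e0 : π₁ (Ψ (0, 0)) = C * (ψ0 (0, 0) * (φ (F (0, 0)))⁻¹) := by rw [hC]; group
    rw [e1, e0]; group
  -- second coordinate of `m`
  have hm2 : π₂ m = 1 := by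
    let c : X → X → Gh ⧸ N := fun u v : X => if u ∈ I ∧ v ∈ I then (MonoidHom.id _) (h' u v) else
        if u ∈ O ∧ v ∈ O then (1 : (Gh ⧸ N) →* (Gh ⧸ N)) (h' u v) else 1
    have hc1 : LocTriv (N2ᶜ) c := by
      intro p hp
      by_cases hp1 : p ∈ N1
      · refine ⟨fun _ => 1, ?_⟩
        have hpO := hN1 hp1
        have hO2 : ∀ᶠ q : X × X in 𝓝 (p, p), q.1 ∈ O ∧ q.2 ∈ O := by
          rw [nhds_prod_eq]
          exact Filter.prod_mem_prod (hO.mem_nhds hpO) (hO.mem_nhds hpO)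
        filter_upwards [hO2] with q hq
        show (if q.1 ∈ I ∧ q.2 ∈ I then _ else if q.1 ∈ O ∧ q.2 ∈ O then _ else _) = _
        rw [if_neg (fun hc => hIO _ hc.1 hq.1), if_pos hq]; simp
      · exact glue _ inferInstance (MonoidHom.id _) 1 p (fun hc => hc.elim hp1 hp)
    have hrow := (hΨ.map π₂).comp (B := Icc (0:ℝ) 1) (F := fun r : ℝ => (r, t₀)) (by fun_prop)
      (fun r hr => ⟨hr, ht₀⟩)
    have hrow' : TrivOn (Icc (0 : ℝ) 1) (fun a b => c (F (a, t₀)) (F (b, t₀)))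
        (fun r => π₂ (Ψ (r, t₀))) := by
      refine hrow.congr ?_
      intro a _
      refine Eventually.of_forall fun b => ?_
      show (if _ then _ else if _ then _ else _) = π₂ (if _ then _ else if _ then _ else _)
      split_ifs
      · rw [h21]; rfl
      · rw [h22]; rfl
      · simp
    have := null_hol hc1 hE1 hE1N hE1a hE1b (γ := fun r => F (r, t₀)) hE1c hrow'
    have h3 : Ψ (1, t₀) * (Ψ (0, t₀))⁻¹ = m := per_s hΨ hFs ht₀ hz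
    rw [← h3, map_mul, map_inv, this, mul_inv_cancel]
  have hl3 : π₃ l = 1 := by
    let c : X → X → Gh ⧸ N := fun u v : X => if u ∈ I ∧ v ∈ I then
        (1 : (Gh ⧸ N) →* (Gh ⧸ N)) (h' u v) else
        if u ∈ O ∧ v ∈ O then (MonoidHom.id _) (h' u v) else 1
    have hc1 : LocTriv (N1ᶜ) c := by
      intro p hp
      by_cases hp1 : p ∈ N2
      · refine ⟨fun _ => 1, ?_⟩
        have hpI := hN2 hp1
        have hI2 : ∀ᶠ q : X × X in 𝓝 (p, p), q.1 ∈ I ∧ q.2 ∈ I := by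
          rw [nhds_prod_eq]
          exact Filter.prod_mem_prod (hI.mem_nhds hpI) (hI.mem_nhds hpI)
        filter_upwards [hI2] with q hq
        show (if q.1 ∈ I ∧ q.2 ∈ I then _ else if q.1 ∈ O ∧ q.2 ∈ O then _ else _) = _
        rw [if_pos hq]; simp
      · exact glue _ inferInstance 1 (MonoidHom.id _) p (fun hc => hc.elim hp hp1)
    have hrow := (hΨ.map π₃).comp (B := Icc (0:ℝ) 1) (F := fun r : ℝ => (s₀, r)) (by fun_prop)
      (fun r hr => ⟨hs₀, hr⟩)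
    have hrow' : TrivOn (Icc (0 : ℝ) 1) (fun a b => c (F (s₀, a)) (F (s₀, b)))
        (fun r => π₃ (Ψ (s₀, r))) := by
      refine hrow.congr ?_
      intro a _
      refine Eventually.of_forall fun b => ?_
      show (if _ then _ else if _ then _ else _) = π₃ (if _ then _ else if _ then _ else _)
      split_ifs
      · rw [h31]; rfl
      · rw [h32]; rfl
      · simp
    have := null_hol hc1 hE2 hE2N hE2a hE2b (γ := fun r => F (s₀, r)) hE2c hrow'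
    have h3 : Ψ (s₀, 1) * (Ψ (s₀, 0))⁻¹ = l := per_t hΨ hFt hs₀ hz
    rw [← h3, map_mul, map_inv, this, mul_inv_cancel]
  -- conclusion
  obtain ⟨c, hcC⟩ := QuotientGroup.mk_surjective C
  have := hfin l m hlm hl3 hm2 (c * t * c⁻¹) (c * s * c⁻¹)
    (by rw [hl1, ← hcC]; simp) (by rw [hm1, ← hcC]; simp)
  apply hst
  have e1 : c * (s * t) * c⁻¹ = c * (t * s) * c⁻¹ := by
    calc c * (s * t) * c⁻¹ = (c * s * c⁻¹) * (c * t * c⁻¹) := by group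
      _ = (c * t * c⁻¹) * (c * s * c⁻¹) := this.symm
      _ = c * (t * s) * c⁻¹ := by group
  exact mul_left_cancel (mul_right_cancel e1)

end Sph9fe
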