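import Pool.Agent.Work.MP_9fe036_gt.Glob
import Pool.Agent.Work.MP_9fe036_gt.Main1

namespace Sph9fe

open Topology Filter Set

/-! ### trigonometric functions -/

noncomputable def sS (t : ℝ) : ℝ := Real.sin (2 * Real.pi * t)
noncomputable def cC (t : ℝ) : ℝ := Real.cos (2 * Real.pi * t)

theorem sS_cont : Continuous sS := by unfold sS; fun_prop
theorem cC_cont : Continuous cC := by unfold cC; fun_prop

theorem sc_sq (t : ℝ) : sS t ^ 2 + cC t ^ 2 = 1 := Real.sin_sq_add_cos_sq _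

theorem sS_zero : sS 0 = 0 := by unfold sS; simp
theorem sS_one : sS 1 = 0 := by unfold sS; simp
theorem sS_half : sS (1 / 2) = 0 := by
  unfold sS; rw [show 2 * Real.pi * (1 / 2) = Real.pi by ring]; exact Real.sin_pi
theorem cC_zero : cC 0 = 1 := by unfold cC; simp
theorem cC_one : cC 1 = 1 := by unfold cC; simp
theorem cC_half : cC (1 / 2) = -1 := by
  unfold cC; rw [show 2 * Real.pi * (1 / 2) = Real.pi by ring]; exact Real.cos_pi

theorem sS_pos {t : ℝ} (h0 : 0 < t) (h1 : t < 1 / 2) : 0 < sS t := by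
  have hpi := Real.pi_pos
  refine Real.sin_pos_of_pos_of_lt_pi (by positivity) ?_
  nlinarith

theorem sS_neg {t : ℝ} (h0 : 1 / 2 < t) (h1 : t < 1) : sS t < 0 := by
  have hpi := Real.pi_pos
  unfold sS
  have : Real.sin (2 * Real.pi * t) = Real.sin (2 * Real.pi * t - 2 * Real.pi) :=
    (Real.sin_sub_two_pi _).symm
  rw [this]
  refine Real.sin_neg_of_neg_of_neg_pi_lt ?_ ?_ <;> nlinarith

theorem sS_eq {t : ℝ} (h0 : 0 ≤ t) (h1 : t ≤ 1) (h : sS t = 0) : t = 0 ∨ t = 1 / 2 ∨ t = 1 := by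
  rcases h0.eq_or_lt with h2 | h2
  · exact Or.inl h2.symm
  rcases h1.eq_or_lt with h3 | h3
  · exact Or.inr (Or.inr h3)
  rcases lt_trichotomy t (1 / 2) with h4 | h4 | h4
  · exact absurd h (sS_pos h2 h4).ne'
  · exact Or.inr (Or.inl h4)
  · exact absurd h (sS_neg h4 h3).ne

theorem cC_le (t : ℝ) : cC t ≤ 1 := Real.cos_le_one _
theorem cC_ge (t : ℝ) : -1 ≤ cC t := Real.neg_one_le_cos _

/-! ### the torus -/

noncomputable def rho (t : ℝ) : ℝ := 90 + 60 * cC t

noncomputable def FF (a : ℝ × ℝ) : R3 := (rho a.2 * sS a.1, 60 * sS a.2, rho a.2 * cC a.1)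

theorem rho_cont : Continuous rho := by unfold rho; have := cC_cont; fun_prop

theorem FF_cont : Continuous FF := by
  have h1 := cC_cont
  have h2 := sS_cont
  have h3 := rho_cont
  unfold FF
  exact ((h3.comp continuous_snd).mul (h2.comp continuous_fst)).prodMk
    ((continuous_const.mul (h2.comp continuous_snd)).prodMk
      ((h3.comp continuous_snd).mul (h1.comp continuous_fst)))

theorem rho_bounds (t : ℝ) : 30 ≤ rho t ∧ rho t ≤ 150 := by
  unfold rho; constructor <;> linarith [cC_le t, cC_ge t]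

/-- points of the closed ring region -/
def RingReg (p : R3) : Prop := 1600 ≤ p.1 ^ 2 + p.2.2 ^ 2 ∧ p.1 ^ 2 + p.2.2 ^ 2 ≤ 12800 ∧
  |p.2.1| ≤ 20 ∧ |p.1| ≤ 80 ∧ -80 ≤ p.2.2 ∧ p.2.2 ≤ 80

/-- points of the closed rod region, or outside -/
def RodReg (p : R3) : Prop := 200 ≤ ‖p‖ ∨ (|p.1| ≤ 20 ∧ |p.2.2| ≤ 20)

theorem ring_reg {p : R3} (h : p ∈ R2s ∨ sg2i p ∈ BB) : RingReg p := by
  unfold RingReg
  rcases h with ((h | h) | h) | h
  · simp only [Bar, mem_ofPred_eq, abs_le] at h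
    obtain ⟨⟨a1, a2⟩, ⟨a3, a4⟩, a5, a6⟩ := h
    rw [abs_le, abs_le]
    refine ⟨?_, ?_, ⟨?_, ?_⟩, ⟨?_, ?_⟩, ?_, ?_⟩ <;> nlinarith
  · simp only [PL, mem_ofPred_eq, abs_le] at h
    obtain ⟨⟨a1, a2⟩, ⟨a3, a4⟩, a5, a6⟩ := h
    rw [abs_le, abs_le]
    refine ⟨?_, ?_, ⟨?_, ?_⟩, ⟨?_, ?_⟩, ?_, ?_⟩ <;> nlinarith
  · simp only [PR, mem_ofPred_eq, abs_le] at h
    obtain ⟨⟨a1, a2⟩, ⟨a3, a4⟩, a5, a6⟩ := h
    rw [abs_le, abs_le]
    refine ⟨?_, ?_, ⟨?_, ?_⟩, ⟨?_, ?_⟩, ?_, ?_⟩ <;> nlinarith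
  · simp only [BB, sg2i, mem_ofPred_eq, abs_le] at h
    obtain ⟨⟨a1, a2⟩, ⟨a3, a4⟩, a5, a6⟩ := h
    rw [abs_le, abs_le]
    refine ⟨?_, ?_, ⟨?_, ?_⟩, ⟨?_, ?_⟩, ?_, ?_⟩ <;> nlinarith

theorem rod_reg {p : R3} (h : p ∈ R1s ∨ sg1i p ∈ BB) : RodReg p := by
  rcases h with (h | h) | h
  · exact Or.inl h
  · right; exact ⟨by linarith [h.1], by linarith [h.2.2]⟩
  · right
    simp only [BB, sg1i, mem_ofPred_eq] at h
    exact ⟨h.2.1, h.2.2⟩

theorem N1_reg {n : ℕ} {p : R3} (h : p ∈ N1 n) : RodReg p :=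
  rod_reg (h.elim Or.inl (fun h => Or.inr (NN_sub_BB n h)))

theorem N2_reg {n : ℕ} {p : R3} (h : p ∈ N2 n) : RingReg p :=
  ring_reg (h.elim Or.inl (fun h => Or.inr (NN_sub_BB n h)))

theorem FF_norm (a : ℝ × ℝ) : ‖FF a‖ < 200 := by
  have h1 := rho_bounds a.2
  have h2 := sc_sq a.1
  have h3 := sc_sq a.2
  rw [norm3_lt_iff, abs_lt, abs_lt, abs_lt]
  have s1 : -1 ≤ sS a.1 ∧ sS a.1 ≤ 1 := by constructor <;> nlinarith [sq_nonneg (cC a.1)]
  have s2 : -1 ≤ sS a.2 ∧ sS a.2 ≤ 1 := by constructor <;> nlinarith [sq_nonneg (cC a.2)]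
  have c1 := cC_le a.1
  have c2 := cC_ge a.1
  unfold FF
  simp only
  refine ⟨⟨?_, ?_⟩, ⟨?_, ?_⟩, ?_, ?_⟩ <;> nlinarith

theorem FF_sq (a : ℝ × ℝ) : (FF a).1 ^ 2 + (FF a).2.2 ^ 2 = rho a.2 ^ 2 := by
  unfold FF
  simp only
  have := sc_sq a.1
  calc (rho a.2 * sS a.1) ^ 2 + (rho a.2 * cC a.1) ^ 2 = rho a.2 ^ 2 * (sS a.1 ^ 2 + cC a.1 ^ 2) := by ring
    _ = rho a.2 ^ 2 := by rw [this, mul_one]

theorem FF_not_rod (a : ℝ × ℝ) : ¬ RodReg (FF a) := by
  rintro (h | ⟨h1, h2⟩)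
  · linarith [FF_norm a]
  · have h3 := FF_sq a
    have h4 := rho_bounds a.2
    have e1 : (FF a).1 ^ 2 ≤ 400 := by rw [← sq_abs]; nlinarith [abs_nonneg (FF a).1]
    have e2 : (FF a).2.2 ^ 2 ≤ 400 := by rw [← sq_abs]; nlinarith [abs_nonneg (FF a).2.2]
    nlinarith

theorem FF_not_ring (a : ℝ × ℝ) : ¬ RingReg (FF a) := by
  rintro ⟨h1, h2, h3, -⟩
  rw [FF_sq] at h1 h2
  have h4 := rho_bounds a.2
  have h5 := sc_sq a.2
  have e1 : 40 ≤ rho a.2 := by nlinarith
  have e2 : rho a.2 ≤ 114 := by nlinarith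
  have e3 : |60 * sS a.2| ≤ 20 := h3
  rw [abs_le] at e3
  unfold rho at e1 e2
  nlinarith

theorem FF_mem (n : ℕ) (a : ℝ × ℝ) : FF a ∈ (N1 n ∪ N2 n)ᶜ := by
  rintro (h | h)
  · exact FF_not_rod a (N1_reg h)
  · exact FF_not_ring a (N2_reg h)

/-! ### the trivialisation on the square -/

section
variable {G : Type*} [Group G]

open Classical in
noncomputable def psi0 (s t : G) (a : ℝ × ℝ) : G :=
  (if a.2 ≤ 1 / 2 then t else 1) * (if a.1 ≤ 1 / 2 then s else 1)

theorem cc1_triv (t : G) {a : ℝ × ℝ} (ha : a ∈ sq) : ∀ᶠ b in 𝓝[sq] a, cc1 t (FF a) (FF b) =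
    (if a.2 ≤ 1 / 2 then t else 1)⁻¹ * (if b.2 ≤ 1 / 2 then t else 1) := by
  classical
  obtain ⟨-, h0, h1⟩ := ha
  have c2 : Continuous (fun b : ℝ × ℝ => b.2) := continuous_snd
  have cS : Continuous (fun b : ℝ × ℝ => sS b.2) := sS_cont.comp continuous_snd
  by_cases hs : sS a.2 = 0
  · rcases sS_eq h0 h1 hs with h | h | h
    · -- t = 0
      have hlt : ∀ᶠ b in 𝓝[sq] a, b.2 < 1 / 2 :=
        Filter.Eventually.filter_mono nhdsWithin_le_nhds
          ((isOpen_lt c2 continuous_const).mem_nhds (show a.2 < 1 / 2 by rw [h]; norm_num))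
      filter_upwards [hlt] with b hb
      rw [if_pos (show a.2 ≤ 1 / 2 by rw [h]; norm_num), if_pos hb.le]
      have hT : Tl t (FF a).1 (FF a).2.2 = 1 := by
        unfold Tl
        rw [if_neg]
        rintro ⟨k1, k2⟩
        have h3 := FF_sq a
        have h4 : rho a.2 = 150 := by unfold rho; rw [h, cC_zero]; norm_num
        rw [h4, ← sq_abs (FF a).1, ← sq_abs (FF a).2.2] at h3
        nlinarith [abs_nonneg (FF a).1, abs_nonneg (FF a).2.2]
      unfold cc1
      rw [hT]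
      unfold step; simp
    · -- t = 1/2
      have hgt : ∀ᶠ b in 𝓝[sq] a, 0 < b.2 :=
        Filter.Eventually.filter_mono nhdsWithin_le_nhds
          ((isOpen_lt continuous_const c2).mem_nhds (show 0 < a.2 by rw [h]; norm_num))
      have hlt : ∀ᶠ b in 𝓝[sq] a, b.2 < 1 :=
        Filter.Eventually.filter_mono nhdsWithin_le_nhds
          ((isOpen_lt c2 continuous_const).mem_nhds (show a.2 < 1 by rw [h]; norm_num))
      filter_upwards [hgt, hlt] with b hb hb'
      have hT : Tl t (FF a).1 (FF a).2.2 = t := by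
        unfold Tl
        rw [if_pos]
        have h3 := FF_sq a
        have h4 : rho a.2 = 30 := by unfold rho; rw [h, cC_half]; norm_num
        rw [h4] at h3
        rw [abs_lt, abs_lt]
        refine ⟨⟨?_, ?_⟩, ?_, ?_⟩ <;> nlinarith [sq_nonneg (FF a).1, sq_nonneg (FF a).2.2]
      unfold cc1
      rw [hT]
      have ea : (FF a).2.1 = 0 := by show 60 * sS a.2 = 0; rw [hs, mul_zero]
      rw [ea, if_pos h.le]
      have e1 : step t 0 = t := by unfold step; simp
      rw [e1]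
      congr 1
      unfold step
      have eb : (FF b).2.1 = 60 * sS b.2 := rfl
      rw [eb]
      rcases lt_trichotomy b.2 (1 / 2) with h5 | h5 | h5
      · rw [if_neg (by have := sS_pos hb h5; linarith), if_pos h5.le]
      · rw [if_neg (by rw [h5, sS_half]; norm_num), if_pos h5.le]
      · rw [if_pos (by have := sS_neg h5 hb'; linarith), if_neg (not_le.2 h5)]
    · -- t = 1
      have hgt : ∀ᶠ b in 𝓝[sq] a, 1 / 2 < b.2 :=
        Filter.Eventually.filter_mono nhdsWithin_le_nhds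
          ((isOpen_lt continuous_const c2).mem_nhds (show 1 / 2 < a.2 by rw [h]; norm_num))
      filter_upwards [hgt] with b hb
      rw [if_neg (show ¬ a.2 ≤ 1 / 2 by rw [h]; norm_num), if_neg (not_le.2 hb)]
      have hT : Tl t (FF a).1 (FF a).2.2 = 1 := by
        unfold Tl
        rw [if_neg]
        rintro ⟨k1, k2⟩
        have h3 := FF_sq a
        have h4 : rho a.2 = 150 := by unfold rho; rw [h, cC_one]; norm_num
        rw [h4, ← sq_abs (FF a).1, ← sq_abs (FF a).2.2] at h3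
        nlinarith [abs_nonneg (FF a).1, abs_nonneg (FF a).2.2]
      unfold cc1
      rw [hT]
      unfold step; simp
  · -- no crossing
    have hpq : (0 < a.2 ∧ a.2 < 1) := by
      refine ⟨lt_of_le_of_ne h0 ?_, lt_of_le_of_ne h1 ?_⟩
      · intro h; apply hs; rw [← h, sS_zero]
      · intro h; apply hs; rw [h, sS_one]
    have hy : (FF a).2.1 ≠ 0 := by show 60 * sS a.2 ≠ 0; positivity
    have hsign : ∀ᶠ b in 𝓝[sq] a, ((FF b).2.1 < 0 ↔ (FF a).2.1 < 0) :=
      Filter.Eventually.filter_mono nhdsWithin_le_nhds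
        ((FF_cont.tendsto a).eventually (ev_y_sign hy))
    have hne : a.2 ≠ 1 / 2 := by intro h; apply hs; rw [h, sS_half]
    have hside : ∀ᶠ b in 𝓝[sq] a, (b.2 ≤ 1 / 2 ↔ a.2 ≤ 1 / 2) := by
      rcases lt_or_gt_of_ne hne with h | h
      · filter_upwards [Filter.Eventually.filter_mono nhdsWithin_le_nhds
          ((isOpen_lt c2 continuous_const).mem_nhds h)] with b hb
        exact ⟨fun _ => h.le, fun _ => le_of_lt hb⟩
      · filter_upwards [Filter.Eventually.filter_mono nhdsWithin_le_nhds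
          ((isOpen_lt continuous_const c2).mem_nhds h)] with b hb
        exact ⟨fun h' => absurd h' (not_le.2 hb), fun h' => absurd h' (not_le.2 h)⟩
    filter_upwards [hsign, hside] with b k1 k2
    unfold cc1
    rw [step_same k1.symm]
    simp only [k2]
    exact (inv_mul_cancel _).symm

theorem cc2_triv (s : G) {a : ℝ × ℝ} (ha : a ∈ sq) : ∀ᶠ b in 𝓝[sq] a, cc2 s (FF a) (FF b) =
    (if a.1 ≤ 1 / 2 then s else 1)⁻¹ * (if b.1 ≤ 1 / 2 then s else 1) := by
  classical
  obtain ⟨⟨h0, h1⟩, -⟩ := ha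
  have c1 : Continuous (fun b : ℝ × ℝ => b.1) := continuous_fst
  have hrho := rho_bounds a.2
  by_cases hs : sS a.1 = 0
  · rcases sS_eq h0 h1 hs with h | h | h
    · have hlt : ∀ᶠ b in 𝓝[sq] a, b.1 < 1 / 2 :=
        Filter.Eventually.filter_mono nhdsWithin_le_nhds
          ((isOpen_lt c1 continuous_const).mem_nhds (show a.1 < 1 / 2 by rw [h]; norm_num))
      filter_upwards [hlt] with b hb
      rw [if_pos (show a.1 ≤ 1 / 2 by rw [h]; norm_num), if_pos hb.le]
      have hT : Sl s (FF a).2.2 = 1 := by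
        unfold Sl
        rw [if_neg]
        show ¬ rho a.2 * cC a.1 < 0
        rw [h, cC_zero]; linarith
      unfold cc2
      rw [hT]
      unfold step; simp
    · have hgt : ∀ᶠ b in 𝓝[sq] a, 0 < b.1 :=
        Filter.Eventually.filter_mono nhdsWithin_le_nhds
          ((isOpen_lt continuous_const c1).mem_nhds (show 0 < a.1 by rw [h]; norm_num))
      have hlt : ∀ᶠ b in 𝓝[sq] a, b.1 < 1 :=
        Filter.Eventually.filter_mono nhdsWithin_le_nhds
          ((isOpen_lt c1 continuous_const).mem_nhds (show a.1 < 1 by rw [h]; norm_num))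
      filter_upwards [hgt, hlt] with b hb hb'
      have hT : Sl s (FF a).2.2 = s := by
        unfold Sl
        rw [if_pos]
        show rho a.2 * cC a.1 < 0
        rw [h, cC_half]; linarith
      unfold cc2
      rw [hT]
      have ea : (FF a).1 = 0 := by show rho a.2 * sS a.1 = 0; rw [hs, mul_zero]
      rw [ea, if_pos h.le]
      have e1 : step s 0 = s := by unfold step; simp
      rw [e1]
      congr 1
      unfold step
      have eb : (FF b).1 = rho b.2 * sS b.1 := rfl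
      have hb2 := rho_bounds b.2
      rw [eb]
      rcases lt_trichotomy b.1 (1 / 2) with h5 | h5 | h5
      · rw [if_neg, if_pos h5.le]
        have := sS_pos hb h5
        rw [not_lt]; exact mul_nonneg (by linarith) this.le
      · rw [if_neg, if_pos h5.le]
        rw [h5, sS_half]; norm_num
      · rw [if_pos, if_neg (not_le.2 h5)]
        have := sS_neg h5 hb'
        exact mul_neg_of_pos_of_neg (by linarith) this
    · have hgt : ∀ᶠ b in 𝓝[sq] a, 1 / 2 < b.1 :=
        Filter.Eventually.filter_mono nhdsWithin_le_nhds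
          ((isOpen_lt continuous_const c1).mem_nhds (show 1 / 2 < a.1 by rw [h]; norm_num))
      filter_upwards [hgt] with b hb
      rw [if_neg (show ¬ a.1 ≤ 1 / 2 by rw [h]; norm_num), if_neg (not_le.2 hb)]
      have hT : Sl s (FF a).2.2 = 1 := by
        unfold Sl
        rw [if_neg]
        show ¬ rho a.2 * cC a.1 < 0
        rw [h, cC_one]; linarith
      unfold cc2
      rw [hT]
      unfold step; simp
  · have hx : (FF a).1 ≠ 0 := mul_ne_zero (by linarith) hs
    have hsign : ∀ᶠ b in 𝓝[sq] a, ((FF b).1 < 0 ↔ (FF a).1 < 0) :=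
      Filter.Eventually.filter_mono nhdsWithin_le_nhds
        ((FF_cont.tendsto a).eventually (ev_x_sign hx))
    have hne : a.1 ≠ 1 / 2 := by intro h; apply hs; rw [h, sS_half]
    have hside : ∀ᶠ b in 𝓝[sq] a, (b.1 ≤ 1 / 2 ↔ a.1 ≤ 1 / 2) := by
      rcases lt_or_gt_of_ne hne with h | h
      · filter_upwards [Filter.Eventually.filter_mono nhdsWithin_le_nhds
          ((isOpen_lt c1 continuous_const).mem_nhds h)] with b hb
        exact ⟨fun _ => h.le, fun _ => le_of_lt hb⟩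
      · filter_upwards [Filter.Eventually.filter_mono nhdsWithin_le_nhds
          ((isOpen_lt continuous_const c1).mem_nhds h)] with b hb
        exact ⟨fun h' => absurd h' (not_le.2 hb), fun h' => absurd h' (not_le.2 h)⟩
    filter_upwards [hsign, hside] with b k1 k2
    unfold cc2
    rw [step_same k1.symm]
    simp only [k2]
    exact (inv_mul_cancel _).symm

theorem hh0_triv {s t : G} (hst : s * t = t * s) :
    TrivOn sq (fun a b => hh0 s t (FF a) (FF b)) (psi0 s t) := by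
  classical
  intro a ha
  filter_upwards [cc1_triv t ha, cc2_triv s ha] with b k1 k2
  unfold hh0 psi0
  rw [k1, k2]
  have hts : Commute t s := hst.symm
  have hcomm : ∀ (p q : Prop) [Decidable p] [Decidable q],
      Commute (if p then t else 1) (if q then s else 1) := by
    intro p q _ _
    split_ifs
    · exact hts
    · exact Commute.one_right _
    · exact Commute.one_left _
    · exact Commute.one_left _
  set A := if a.2 ≤ 1 / 2 then t else 1 with hA
  set B := if b.2 ≤ 1 / 2 then t else 1 with hB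
  set C := if a.1 ≤ 1 / 2 then s else 1 with hC
  set D := if b.1 ≤ 1 / 2 then s else 1 with hD
  have e1 : B * C⁻¹ = C⁻¹ * B := (hcomm (b.2 ≤ 1 / 2) (a.1 ≤ 1 / 2)).inv_right.eq
  have e2 : A * C = C * A := (hcomm (a.2 ≤ 1 / 2) (a.1 ≤ 1 / 2)).eq
  calc A⁻¹ * B * (C⁻¹ * D) = A⁻¹ * (B * C⁻¹) * D := by group
    _ = A⁻¹ * (C⁻¹ * B) * D := by rw [e1]
    _ = (C * A)⁻¹ * (B * D) := by group
    _ = (A * C)⁻¹ * (B * D) := by rw [e2]

end

end Sph9fe
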